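import Pool.Agent.H66.WSZ.AccF

namespace Pool.Agent.H66.WSZ

open Finset Classical

/-- PROOF. The set is the union, over the pairs `(c, σ)` with pairwise disjoint `c`, of the sets of
`accF`. There are `(t ^ 2) ^ (j * K)` functions `c : Fin K → Conf j t` and `s ^ K` functions `σ`
(`Finset.card_biUnion_le`, `Finset.sum_le_card_nsmul`, `Fintype.card_fun`). So the cardinality times
`U ^ (j * K)` is at most `s ^ K * (t ^ 2) ^ (j * K) * F ^ (j * K) * |Inp j t U|`, which is
`(s * t ^ (2 * j) * F ^ j) ^ K * |Inp j t U|`. Multiply by `2 ^ K`, use `hU`, and cancel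
`(U ^ j) ^ K = U ^ (j * K)`, which is positive. -/
theorem accC {j t U K F s : ℕ} {Θ : Type} [Fintype Θ] (hs : Fintype.card Θ = s)
    (D : Θ → Finset ℕ) (hD : ∀ σ, (D σ).card ≤ F) (hU0 : 0 < U)
    (hU : 2 * (s * t ^ (2 * j) * F ^ j) ≤ U ^ j) :
    2 ^ K * ((univ : Finset (Inp j t U)).filter (fun ω => Acc ω D K)).card ≤
      Fintype.card (Inp j t U) := by
  classical
  -- the index set
  set I : Finset ((Fin K → Conf j t) × (Fin K → Θ)) :=
    univ.filter (fun q => ∀ r r', r ≠ r' → Disj (q.1 r) (q.1 r')) with hI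
  have hsub : ((univ : Finset (Inp j t U)).filter (fun ω => Acc ω D K)) ⊆
      I.biUnion (fun q => (univ : Finset (Inp j t U)).filter
        (fun ω => ∀ r, Hits ω (D (q.2 r)) (q.1 r))) := by
    intro ω hω
    rw [mem_filter] at hω
    obtain ⟨c, σ, h1, h2⟩ := hω.2
    rw [mem_biUnion]
    refine ⟨(c, σ), ?_, ?_⟩
    · rw [hI, mem_filter]
      exact ⟨mem_univ _, h1⟩
    · rw [mem_filter]
      exact ⟨mem_univ _, h2⟩
  have hIc : I.card ≤ (t ^ 2) ^ (j * K) * s ^ K := by
    refine (Finset.card_filter_le _ _).trans ?_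
    rw [Finset.card_univ, Fintype.card_prod, Fintype.card_fun, Fintype.card_fun, Fintype.card_fun,
      Fintype.card_prod, Fintype.card_fin, Fintype.card_fin, Fintype.card_fin, hs, ← pow_mul,
      sq t]
  have hcard : ((univ : Finset (Inp j t U)).filter (fun ω => Acc ω D K)).card * U ^ (j * K) ≤
      ((t ^ 2) ^ (j * K) * s ^ K) * (F ^ (j * K) * Fintype.card (Inp j t U)) := by
    calc ((univ : Finset (Inp j t U)).filter (fun ω => Acc ω D K)).card * U ^ (j * K)
        ≤ (∑ q ∈ I, ((univ : Finset (Inp j t U)).filter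
            (fun ω => ∀ r, Hits ω (D (q.2 r)) (q.1 r))).card) * U ^ (j * K) :=
          Nat.mul_le_mul_right _ ((card_le_card hsub).trans card_biUnion_le)
      _ = ∑ q ∈ I, ((univ : Finset (Inp j t U)).filter
            (fun ω => ∀ r, Hits ω (D (q.2 r)) (q.1 r))).card * U ^ (j * K) := Finset.sum_mul ..
      _ ≤ ∑ q ∈ I, F ^ (j * K) * Fintype.card (Inp j t U) := by
          apply Finset.sum_le_sum
          intro q hq
          rw [hI, mem_filter] at hq
          exact accF D hD q.1 q.2 hq.2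
      _ = I.card * (F ^ (j * K) * Fintype.card (Inp j t U)) := by
          rw [Finset.sum_const, smul_eq_mul]
      _ ≤ _ := Nat.mul_le_mul_right _ hIc
  have hpos : 0 < U ^ (j * K) := Nat.pow_pos hU0
  apply Nat.le_of_mul_le_mul_right _ hpos
  calc 2 ^ K * ((univ : Finset (Inp j t U)).filter (fun ω => Acc ω D K)).card * U ^ (j * K)
      = 2 ^ K * (((univ : Finset (Inp j t U)).filter (fun ω => Acc ω D K)).card *
          U ^ (j * K)) := by ring
    _ ≤ 2 ^ K * (((t ^ 2) ^ (j * K) * s ^ K) * (F ^ (j * K) * Fintype.card (Inp j t U))) :=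
        Nat.mul_le_mul_left _ hcard
    _ = (2 * (s * t ^ (2 * j) * F ^ j)) ^ K * Fintype.card (Inp j t U) := by
        rw [mul_pow, mul_pow, mul_pow, ← pow_mul, ← pow_mul, ← pow_mul]
        rw [show 2 * (j * K) = 2 * j * K by ring]
        ring
    _ ≤ (U ^ j) ^ K * Fintype.card (Inp j t U) :=
        Nat.mul_le_mul_right _ (Nat.pow_le_pow_left hU K)
    _ = Fintype.card (Inp j t U) * U ^ (j * K) := by rw [← pow_mul]; ring

end Pool.Agent.H66.WSZ
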