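import Mathlib

namespace Pool.Agent.H66.WSZ

open Finset

/-- Counting functions with few possible values at the places of `R`, given the other values.
PROOF. Let `N = {i // i ∉ R}` and `ρ : (ι → X) → (N → X)` the restriction. The cardinality of `G` is
the sum over all `b : N → X` of the cardinality of the fibre `G_b = {x ∈ G | ρ x = b}`
(`Finset.card_eq_sum_card_fiberwise`). Each fibre has at most `∏ r ∈ R, F r` elements: if it is
empty this is trivial; else let `x₀ ∈ G_b`; each `x ∈ G_b` agrees with `x₀` outside `R`, so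
`E r x = E r x₀` for `r ∈ R` by `hE` and `x r ∈ E r x₀`; and `x` is determined by its restriction
to `R`; so `G_b` injects into `Finset.pi R (fun r => E r x₀)` (map `x` to `fun r _ => x r`),
which has `∏ r ∈ R, (E r x₀).card ≤ ∏ r ∈ R, F r` elements (`Finset.card_pi`,
`Finset.prod_le_prod'`). There are `|X| ^ (|ι| - |R|)` functions `b`, so
`|G| ≤ |X| ^ (|ι| - |R|) * ∏ r ∈ R, F r`; multiply by `|X| ^ |R|`. -/
theorem fixR {ι X : Type*} [Fintype ι] [DecidableEq ι] [Fintype X] [DecidableEq X] (R : Finset ι)
    (F : ι → ℕ) (E : ι → (ι → X) → Finset X)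
    (hE : ∀ r ∈ R, ∀ x x' : ι → X, (∀ i, i ∉ R → x i = x' i) → E r x = E r x')
    (hc : ∀ r ∈ R, ∀ x, (E r x).card ≤ F r) (G : Finset (ι → X))
    (hG : ∀ x ∈ G, ∀ r ∈ R, x r ∈ E r x) :
    G.card * Fintype.card X ^ R.card ≤ (∏ r ∈ R, F r) * Fintype.card X ^ Fintype.card ι := by
  let ρ : (ι → X) → ({i // i ∉ R} → X) := fun x i => x i.1
  have hfib : ∀ b : {i // i ∉ R} → X, (G.filter (fun x => ρ x = b)).card ≤ ∏ r ∈ R, F r := by
    intro b
    rcases (G.filter (fun x => ρ x = b)).eq_empty_or_nonempty with h | ⟨x₀, hx₀⟩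
    · rw [h, card_empty]
      exact Nat.zero_le _
    · rw [mem_filter] at hx₀
      have hag : ∀ x ∈ G.filter (fun x => ρ x = b), ∀ i, i ∉ R → x i = x₀ i := by
        intro x hx i hi
        rw [mem_filter] at hx
        have := congrFun (hx.2.trans hx₀.2.symm) ⟨i, hi⟩
        exact this
      calc (G.filter (fun x => ρ x = b)).card ≤ (Finset.pi R (fun r => E r x₀)).card := by
            refine card_le_card_of_injOn (fun x => fun r _ => x r) ?_ ?_
            · intro x hx
              have hx' : x ∈ G.filter (fun x => ρ x = b) := hx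
              rw [mem_coe, mem_pi]
              intro r hr
              rw [← hE r hr x x₀ (hag x hx')]
              exact hG x (mem_filter.1 hx').1 r hr
            · intro x hx y hy hxy
              funext i
              by_cases hi : i ∈ R
              · exact congrFun (congrFun hxy i) hi
              · rw [hag x hx i hi, hag y hy i hi]
        _ = ∏ r ∈ R, (E r x₀).card := card_pi _ _
        _ ≤ ∏ r ∈ R, F r := prod_le_prod' fun r hr => hc r hr x₀
  have hN : Fintype.card {i // i ∉ R} + R.card = Fintype.card ι := by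
    rw [Fintype.card_subtype]
    have : (univ.filter (fun i => i ∉ R)) = Rᶜ := by
      ext i
      simp
    rw [this, card_compl]
    have := card_le_univ R
    omega
  have hcard : G.card ≤ Fintype.card X ^ Fintype.card {i // i ∉ R} * ∏ r ∈ R, F r := by
    calc G.card = ∑ b : {i // i ∉ R} → X, (G.filter (fun x => ρ x = b)).card :=
          card_eq_sum_card_fiberwise (fun x _ => mem_coe.2 (mem_univ (ρ x)))
      _ ≤ ∑ _b : {i // i ∉ R} → X, ∏ r ∈ R, F r := sum_le_sum fun b _ => hfib b
      _ = Fintype.card X ^ Fintype.card {i // i ∉ R} * ∏ r ∈ R, F r := by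
          rw [sum_const, card_univ, smul_eq_mul, Fintype.card_fun]
  calc G.card * Fintype.card X ^ R.card
      ≤ (Fintype.card X ^ Fintype.card {i // i ∉ R} * ∏ r ∈ R, F r) *
          Fintype.card X ^ R.card := Nat.mul_le_mul_right _ hcard
    _ = (∏ r ∈ R, F r) * Fintype.card X ^ Fintype.card ι := by
        rw [← hN, pow_add]
        ring

end Pool.Agent.H66.WSZ
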