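import Pool.Agent.H66.WSZ.Defs
import Pool.Agent.H66.WSZ.FixR

namespace Pool.Agent.H66.WSZ

open Finset Classical

/-- PROOF. Let `ι = Fin j × (Fin t ⊕ Fin t)` and identify `Inp j t U` with `ι → Fin U` by
currying (`x (l, v) = ω l v`). Let `R` be the image of `Fin K × Fin j` under the map
`(r, l) ↦ (l, inr (c r l).2)`, which is injective because the configurations are disjoint; so
`R.card = K * j`. Apply `fixR` with `X = Fin U`, `F = fun _ => F`, and
`E (l, v) x = {b | (x (l, inl (c r l).1) : ℕ) + b ∈ D (σ r)}` if there is an `r` with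
`v = inr (c r l).2` (`r` chosen by `Exists.choose`), `E (l, v) x = ∅` if there is none. These sets
have at most `F` elements (`b ↦ x (l, inl _) + b` is injective into `D (σ r)`) and depend only on
the values of `x` at places `(l, inl _)`, which are not in `R`. If `Hits ω (D (σ r)) (c r)` for all
`r` then `x (l, v) ∈ E (l, v) x` for all `(l, v) ∈ R`. The cardinality of `ι → Fin U` is that of
`Inp j t U`. -/
theorem accF {j t U K F : ℕ} {Θ : Type} (D : Θ → Finset ℕ) (hD : ∀ σ, (D σ).card ≤ F)
    (c : Fin K → Conf j t) (σ : Fin K → Θ) (hc : ∀ r r', r ≠ r' → Disj (c r) (c r')) :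
    ((univ : Finset (Inp j t U)).filter (fun ω => ∀ r, Hits ω (D (σ r)) (c r))).card *
      U ^ (j * K) ≤ F ^ (j * K) * Fintype.card (Inp j t U) := by
  let e : (Fin j × (Fin t ⊕ Fin t) → Fin U) ≃ Inp j t U := Equiv.curry _ _ _
  have he : ∀ (ω : Inp j t U) l v, e.symm ω (l, v) = ω l v := fun ω l v => rfl
  let f : Fin K × Fin j → Fin j × (Fin t ⊕ Fin t) := fun p => (p.2, Sum.inr (c p.1 p.2).2)
  have hf : Function.Injective f := by
    intro p q h
    have h1 : p.2 = q.2 := congrArg Prod.fst h
    have h2 : (Sum.inr (c p.1 p.2).2 : Fin t ⊕ Fin t) = Sum.inr (c q.1 q.2).2 :=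
      congrArg Prod.snd h
    have h3 := Sum.inr.inj h2
    by_contra hpq
    have h4 : p.1 ≠ q.1 := fun h5 => hpq (Prod.ext h5 h1)
    apply (hc p.1 q.1 h4 p.2).2
    rw [h3, h1]
  let R : Finset (Fin j × (Fin t ⊕ Fin t)) := univ.image f
  have hRc : R.card = K * j := by
    show (univ.image f).card = K * j
    rw [card_image_of_injective _ hf, card_univ, Fintype.card_prod, Fintype.card_fin,
      Fintype.card_fin]
  have hRl : ∀ l v, ((l, Sum.inl v) : Fin j × (Fin t ⊕ Fin t)) ∉ R := by
    intro l v h
    obtain ⟨p, -, hp⟩ := mem_image.mp h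
    have := congrArg Prod.snd hp
    exact Sum.inr_ne_inl this
  let E : Fin j × (Fin t ⊕ Fin t) → (Fin j × (Fin t ⊕ Fin t) → Fin U) → Finset (Fin U) :=
    fun i x => if h : ∃ r, i.2 = Sum.inr (c r i.1).2 then
      univ.filter (fun b : Fin U =>
        (x (i.1, Sum.inl (c h.choose i.1).1) : ℕ) + (b : ℕ) ∈ D (σ h.choose)) else ∅
  have key := fixR R (fun _ => F) E (by
      intro i hi x x' hx
      by_cases h : ∃ r, i.2 = Sum.inr (c r i.1).2
      · simp only [E, dif_pos h]
        rw [hx _ (hRl _ _)]
      · simp only [E, dif_neg h]) (by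
      intro i hi x
      by_cases h : ∃ r, i.2 = Sum.inr (c r i.1).2
      · simp only [E, dif_pos h]
        refine le_trans ?_ (hD (σ h.choose))
        apply card_le_card_of_injOn
          (fun b : Fin U => (x (i.1, Sum.inl (c h.choose i.1).1) : ℕ) + (b : ℕ))
        · intro b hb
          exact mem_coe.mpr (mem_filter.mp (mem_coe.mp hb)).2
        · intro b _ b' _ hbb
          apply Fin.ext
          exact Nat.add_left_cancel hbb
      · simp only [E, dif_neg h]
        simp)
      (((univ : Finset (Inp j t U)).filter (fun ω => ∀ r, Hits ω (D (σ r)) (c r))).map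
        e.symm.toEmbedding) (by
      intro x hx i hi
      obtain ⟨ω, hω, rfl⟩ := mem_map.mp hx
      have hω' := (mem_filter.mp hω).2
      obtain ⟨p, -, hp⟩ := mem_image.mp hi
      have h : ∃ r, i.2 = Sum.inr (c r i.1).2 := by
        refine ⟨p.1, ?_⟩
        rw [← hp]
      simp only [E, dif_pos h]
      apply mem_filter.mpr
      refine ⟨mem_univ _, ?_⟩
      have h1 := hω' h.choose i.1
      have h2 := h.choose_spec
      have h3 : (e.symm.toEmbedding ω) i = ω i.1 (Sum.inr (c h.choose i.1).2) := by
        rw [← h2]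
        rfl
      rw [h3]
      exact h1)
  rw [card_map, hRc, prod_const, hRc, Fintype.card_fin] at key
  have h5 : Fintype.card (Inp j t U) = U ^ Fintype.card (Fin j × (Fin t ⊕ Fin t)) := by
    rw [← Fintype.card_congr e, Fintype.card_fun, Fintype.card_fin]
  rw [h5, Nat.mul_comm j K]
  exact key

end Pool.Agent.H66.WSZ
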