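import Pool.Agent.H66.WSZ.Cst

namespace Pool.Agent.H66.WSZ

/-- PROOF. `A ^ j - B ^ j ≤ j * (A - B) * A ^ (j - 1)` for `0 ≤ B ≤ A` (e.g. by
`pow_sub_pow_le...` or induction on `j`), `A - B ≤ lam ^ 2`, `A ≤ lam + lam ^ 2 ≤ 2 * lam` because
`0 ≤ lam ≤ 1`, so the difference is at most
`j * lam ^ 2 * (2 * lam) ^ (j - 1) = j * 2 ^ (j - 1) * lam ^ (j + 1)`. -/
theorem algJ (j : ℕ) (hj : 0 < j) (A B lam : ℝ) (hB : 0 ≤ B) (hBA : B ≤ A)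
    (hA : A ≤ B + lam ^ 2) (hBl : B ≤ lam) (hl : lam ≤ 1) :
    A ^ j ≤ B ^ j + j * 2 ^ (j - 1) * lam ^ (j + 1) := by
  have h0 : 0 ≤ lam := hB.trans hBl
  have hA0 : 0 ≤ A := hB.trans hBA
  have h1 : ∀ m : ℕ, A ^ (m + 1) ≤ B ^ (m + 1) + ((m : ℝ) + 1) * (A - B) * A ^ m := by
    intro m
    induction m with
    | zero => simp
    | succ m ih =>
      have h2 : A * A ^ (m + 1) ≤ A * (B ^ (m + 1) + ((m : ℝ) + 1) * (A - B) * A ^ m) :=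
        mul_le_mul_of_nonneg_left ih hA0
      have h3 : (A - B) * B ^ (m + 1) ≤ (A - B) * A ^ (m + 1) :=
        mul_le_mul_of_nonneg_left (pow_le_pow_left₀ hB hBA _) (sub_nonneg.2 hBA)
      calc A ^ (m + 1 + 1) = A * A ^ (m + 1) := by ring
        _ ≤ A * (B ^ (m + 1) + ((m : ℝ) + 1) * (A - B) * A ^ m) := h2
        _ = B ^ (m + 1 + 1) + (A - B) * B ^ (m + 1) + ((m : ℝ) + 1) * (A - B) * A ^ (m + 1) := by ring
        _ ≤ B ^ (m + 1 + 1) + (A - B) * A ^ (m + 1) + ((m : ℝ) + 1) * (A - B) * A ^ (m + 1) := by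
          linarith
        _ = B ^ (m + 1 + 1) + (((m + 1 : ℕ) : ℝ) + 1) * (A - B) * A ^ (m + 1) := by
          push_cast
          ring
  obtain ⟨m, rfl⟩ : ∃ m, j = m + 1 := ⟨j - 1, by omega⟩
  have hA2 : A ≤ 2 * lam := by nlinarith
  have hAB : A - B ≤ lam ^ 2 := by linarith
  have h4 : A ^ m ≤ (2 * lam) ^ m := pow_le_pow_left₀ hA0 hA2 _
  have h5 : (A - B) * A ^ m ≤ lam ^ 2 * (2 * lam) ^ m :=
    mul_le_mul hAB h4 (by positivity) (by positivity)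
  calc A ^ (m + 1) ≤ B ^ (m + 1) + ((m : ℝ) + 1) * (A - B) * A ^ m := h1 m
    _ = B ^ (m + 1) + ((m : ℝ) + 1) * ((A - B) * A ^ m) := by ring
    _ ≤ B ^ (m + 1) + ((m : ℝ) + 1) * (lam ^ 2 * (2 * lam) ^ m) := by
      have : ((m : ℝ) + 1) * ((A - B) * A ^ m) ≤ ((m : ℝ) + 1) * (lam ^ 2 * (2 * lam) ^ m) :=
        mul_le_mul_of_nonneg_left h5 (by positivity)
      linarith
    _ = B ^ (m + 1) + ((m + 1 : ℕ) : ℝ) * 2 ^ (m + 1 - 1) * lam ^ (m + 1 + 1) := by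
      rw [mul_pow, Nat.add_sub_cancel]
      push_cast
      ring

end Pool.Agent.H66.WSZ
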