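import Mathlib

namespace Pool.Agent.H66.WSZ

open Finset Classical

/-- Groups of `m` integers with the same value of `y`.
PROOF. Induction on `N`, for all `R`. For `N = 0` nothing is to show (`Fin 0` is empty). Step: from
`m * (N + 1 + S) ≤ |R|` we get `m * S ≤ |R|` and (`S > 0` because of `y 0`) some value `s` with at
least `m` elements `z ∈ R` with `y z = s` (else `|R| ≤ (m - 1) * S < m * S`,
`Finset.exists_le_card_fiber_of_mul_le_card_of_maps_to`). Take a subset `G₀` of this fibre with
`m` elements (`Finset.exists_subset_card_eq`), apply the induction hypothesis to `R \ G₀` (which has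
at least `m * (N + S)` elements) and put `G = Fin.cons G₀ G'`, `s = Fin.cons s s'`. -/
theorem chk {S m : ℕ} (hm : 0 < m) (y : ℕ → Fin S) (N : ℕ) (R : Finset ℕ)
    (hR : m * (N + S) ≤ R.card) :
    ∃ (G : Fin N → Finset ℕ) (s : Fin N → Fin S), (∀ a, G a ⊆ R) ∧ (∀ a, (G a).card = m) ∧
      (∀ a a', a ≠ a' → Disjoint (G a) (G a')) ∧ ∀ a, ∀ z ∈ G a, y z = s a := by
  induction N generalizing R with
  | zero => exact ⟨fun a => a.elim0, fun a => a.elim0, fun a => a.elim0, fun a => a.elim0,
      fun a => a.elim0, fun a => a.elim0⟩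
  | succ N ih =>
    have hS : 0 < S := lt_of_le_of_lt (Nat.zero_le _) (y 0).2
    have hcard : (Finset.univ : Finset (Fin S)).card * m ≤ R.card := by
      rw [Finset.card_univ, Fintype.card_fin]
      refine le_trans ?_ hR
      rw [mul_comm]
      exact Nat.mul_le_mul_left m (by omega)
    have hne : (Finset.univ : Finset (Fin S)).Nonempty := ⟨⟨0, hS⟩, Finset.mem_univ _⟩
    obtain ⟨s, -, hs⟩ := Finset.exists_le_card_fiber_of_mul_le_card_of_maps_to
      (s := R) (t := (Finset.univ : Finset (Fin S))) (f := y) (fun _ _ => Finset.mem_univ _) hne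
      hcard
    obtain ⟨G₀, hG₀, hc₀⟩ := Finset.exists_subset_card_eq hs
    have hG₀R : G₀ ⊆ R := hG₀.trans (Finset.filter_subset _ _)
    have hR' : m * (N + S) ≤ (R \ G₀).card := by
      rw [Finset.card_sdiff_of_subset hG₀R, hc₀]
      have : m * (N + 1 + S) = m * (N + S) + m := by ring
      omega
    obtain ⟨G', s', h1, h2, h3, h4⟩ := ih (R \ G₀) hR'
    refine ⟨Fin.cons G₀ G', Fin.cons s s', ?_, ?_, ?_, ?_⟩
    · intro a
      refine Fin.cases ?_ (fun i => ?_) a
      · simpa using hG₀R
      · simpa using (h1 i).trans Finset.sdiff_subset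
    · intro a
      refine Fin.cases ?_ (fun i => ?_) a
      · simpa using hc₀
      · simpa using h2 i
    · intro a a'
      refine Fin.cases ?_ (fun i => ?_) a
      · refine Fin.cases ?_ (fun i' => ?_) a'
        · intro h; exact absurd rfl h
        · intro _
          simp only [Fin.cons_zero, Fin.cons_succ]
          exact (Finset.disjoint_of_subset_left (h1 i') Finset.sdiff_disjoint).symm
      · refine Fin.cases ?_ (fun i' => ?_) a'
        · intro _
          simp only [Fin.cons_zero, Fin.cons_succ]
          exact Finset.disjoint_of_subset_left (h1 i) Finset.sdiff_disjoint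
        · intro h
          simp only [Fin.cons_succ]
          exact h3 i i' (fun hh => h (by rw [hh]))
    · intro a
      refine Fin.cases ?_ (fun i => ?_) a
      · intro z hz
        simp only [Fin.cons_zero] at hz ⊢
        exact (Finset.mem_filter.1 (hG₀ hz)).2
      · intro z hz
        simp only [Fin.cons_succ] at hz ⊢
        exact h4 i z hz

end Pool.Agent.H66.WSZ
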