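import Mathlib

namespace Pool.Agent.H66.WSZ

open Finset Classical

private theorem cho_aux {S : ℕ} (f : ℕ → Fin S) (Z : Finset ℕ) (h : ℕ) :
    h ≤ S → ∃ Q : Finset (Fin S), Q.card = h ∧
      h * Z.card ≤ S * (Z.filter (fun z => f z ∈ Q)).card := by
  induction h with
  | zero => intro _; exact ⟨∅, by simp, by simp⟩
  | succ h ih =>
    intro hS
    obtain ⟨Q, hQ, hq⟩ := ih (by omega)
    set q := (Z.filter (fun z => f z ∈ Q)).card with hqdef
    have hne : (Qᶜ : Finset (Fin S)).Nonempty := by
      rw [← Finset.card_pos, Finset.card_compl, Fintype.card_fin]; omega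
    obtain ⟨c, hc, hmax⟩ := Finset.exists_max_image (Qᶜ : Finset (Fin S))
      (fun d => (Z.filter (fun z => f z = d)).card) hne
    set v := (Z.filter (fun z => f z = c)).card with hvdef
    have hcQ : c ∉ Q := by simpa using hc
    have h1 : (Z.filter (fun z => f z ∉ Q)).card ≤ (S - h) * v := by
      have hcount : (Z.filter (fun z => f z ∉ Q)).card
          = ∑ d ∈ (Qᶜ : Finset (Fin S)), ((Z.filter (fun z => f z ∉ Q)).filter
              (fun z => f z = d)).card := by
        apply Finset.card_eq_sum_card_fiberwise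
        intro z hz
        simp only [Finset.coe_filter, Set.mem_ofPred_eq] at hz
        simpa using hz.2
      rw [hcount]
      calc ∑ d ∈ (Qᶜ : Finset (Fin S)), ((Z.filter (fun z => f z ∉ Q)).filter
              (fun z => f z = d)).card
          ≤ ∑ d ∈ (Qᶜ : Finset (Fin S)), v := by
            apply Finset.sum_le_sum
            intro d hd
            refine le_trans ?_ (hmax d hd)
            apply Finset.card_le_card
            intro z hz
            simp only [Finset.mem_filter] at hz ⊢
            exact ⟨hz.1.1, hz.2⟩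
        _ = (S - h) * v := by
            rw [Finset.sum_const, Finset.card_compl, Fintype.card_fin, hQ, smul_eq_mul]
    have h2 : Z.card = q + (Z.filter (fun z => f z ∉ Q)).card := by
      rw [hqdef]; exact (Finset.card_filter_add_card_filter_not (s := Z) (fun z => f z ∈ Q)).symm
    have h3 : (Z.filter (fun z => f z ∈ insert c Q)).card = q + v := by
      have : Z.filter (fun z => f z ∈ insert c Q)
          = Z.filter (fun z => f z ∈ Q) ∪ Z.filter (fun z => f z = c) := by
        ext z
        simp only [Finset.mem_filter, Finset.mem_insert, Finset.mem_union]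
        tauto
      rw [this, Finset.card_union_of_disjoint]
      rw [Finset.disjoint_left]
      intro z hz hz'
      simp only [Finset.mem_filter] at hz hz'
      exact hcQ (hz'.2 ▸ hz.2)
    refine ⟨insert c Q, by rw [Finset.card_insert_of_notMem hcQ, hQ], ?_⟩
    rw [h3]
    obtain ⟨e, he⟩ : ∃ e, S = h + 1 + e := ⟨S - (h + 1), by omega⟩
    have he' : S - h = e + 1 := by omega
    rw [he'] at h1
    set n := (Z.filter (fun z => f z ∉ Q)).card with hn
    rw [h2] at hq ⊢
    rw [he] at hq ⊢
    -- hq : h * (q + n) ≤ (h+1+e) * q ; h1 : n ≤ (e+1) * v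
    -- goal : (h+1) * (q+n) ≤ (h+1+e) * (q+v)
    have hq' : h * n ≤ (1 + e) * q := by nlinarith
    have key : (e + 1) * ((h + 1) * n) ≤ (e + 1) * (e * q + (h + 1 + e) * v) := by
      have a1 : e * (h * n) ≤ e * ((1 + e) * q) := Nat.mul_le_mul_left _ hq'
      have a2 : (h + 1 + e) * n ≤ (h + 1 + e) * ((e + 1) * v) := Nat.mul_le_mul_left _ h1
      nlinarith
    have key' : (h + 1) * n ≤ e * q + (h + 1 + e) * v := Nat.le_of_mul_le_mul_left key (by omega)
    nlinarith

/-- `h` cells which contain at least the fraction `h / S` of the mass.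
PROOF. Induction on `h ≤ S`, with `Q.card = h` in place of `Q.card ≤ h`. Step from `h` to `h + 1 ≤ S`:
let `Q` be given, `q` the number of all `z ∈ Z` with `f z ∈ Q`, so `h * |Z| ≤ S * q`. The other
`S - h` cells contain together `|Z| - q` elements of `Z`; let `c ∉ Q` be one of them with the
largest number `v` of `z ∈ Z` with `f z = c`; so `|Z| - q ≤ (S - h) * v`
(`Finset.exists_max_image`, `Finset.sum_le_card_nsmul`, `Finset.card_eq_sum_card_fiberwise`).
Then `insert c Q` works: it contains `q + v` elements and
`(S - h) * (h + 1) * |Z| = S * |Z| + (S - h - 1) * h * |Z| ≤ S * |Z| + (S - h - 1) * S * q`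
`= S * ((|Z| - q) + (S - h) * q) ≤ S * (S - h) * (v + q)`; cancel `S - h > 0`. (An average over
all cyclic intervals of length `h`, or over all sets of `h` cells, is as good.) -/
theorem cho {S : ℕ} (h : ℕ) (hh : h ≤ S) (f : ℕ → Fin S) (Z : Finset ℕ) :
    ∃ Q : Finset (Fin S), Q.card ≤ h ∧ h * Z.card ≤ S * (Z.filter (fun z => f z ∈ Q)).card := by
  obtain ⟨Q, hQ, hq⟩ := cho_aux f Z h hh
  exact ⟨Q, hQ.le, hq⟩

end Pool.Agent.H66.WSZ
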