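import Pool.Agent.H66.WSZ.Defs

namespace Pool.Agent.H66.WSZ

open Finset Classical

/-- PROOF. Let `A = {y | sm y p ∈ C}`, `u = inl p.1`, `v = inr p.2` (`u ≠ v`). The map
`(z, a, y) ↦ (y with the value a at u and the value z - a at v)`, from the triples with `z ∈ C`,
`a ≤ U / 2` and `y : {w // w ≠ u ∧ w ≠ v} → Fin U`, to `A` is injective (`a` is the value at `u`,
`z` the sum of the values at `u` and at `v`), and it is well defined because `U / 2 ≤ z < U`, so
`a ≤ z` and `z - a < U`. Hence `|C| * (U / 2 + 1) * U ^ (2 * t - 2) ≤ |A|`. Since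
`U ≤ 2 * (U / 2 + 1)` and `1 ≤ t`,
`|C| * U ^ (2 * t) = |C| * U * U ^ (2 * t - 2) * U ≤ 2 * (U / 2 + 1) * |C| * U ^ (2 * t - 2) * U`
`≤ 2 * U * |A|`. (Another way, perhaps simpler: the number of `y` in `A` is, for each `(a, b)` with
`a + b ∈ C`, exactly `U ^ (2 * t - 2)`; sum over the fibres of `y ↦ (y u, y v)`. Or avoid
subtypes by a double count: let `B` be the set of all `(y, z, a)` with `y` arbitrary, `z ∈ C`,
`a ≤ U / 2`; map it to `A × (Fin U × Fin U)` by `(y, z, a) ↦ (update (update y u a) v (z - a),
(y u, y v))`; this is injective, so `U ^ (2 * t) * |C| * (U / 2 + 1) ≤ |A| * U * U`, and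
`U ≤ 2 * (U / 2 + 1)` gives the claim after cancelling one factor `U` (if `U = 0` then
`t = 0` is impossible because of `p`, and `0 ^ (2 * t) = 0`).) -/
theorem single_lower {t U : ℕ} (C : Finset ℕ) (hC : C ⊆ Ico (U / 2) U) (p : Fin t × Fin t) :
    C.card * U ^ (2 * t) ≤
      2 * U * ((univ : Finset (Fin t ⊕ Fin t → Fin U)).filter (fun y => sm y p ∈ C)).card := by
  rcases Nat.eq_zero_or_pos U with hU | hU
  · subst hU
    have ht : 0 < t := Fin.pos p.1
    rw [zero_pow (by omega)]
    simp
  set A := (univ : Finset (Fin t ⊕ Fin t → Fin U)).filter (fun y => sm y p ∈ C) with hA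
  let g : ℕ → Fin U := fun n => ⟨n % U, Nat.mod_lt _ hU⟩
  have hg : ∀ n, n < U → ((g n : Fin U) : ℕ) = n := fun n hn => Nat.mod_eq_of_lt hn
  have huv : (Sum.inl p.1 : Fin t ⊕ Fin t) ≠ Sum.inr p.2 := by simp
  have hlt : U / 2 < U := Nat.div_lt_self hU (by norm_num)
  have key : ((univ : Finset (Fin t ⊕ Fin t → Fin U)) ×ˢ (C ×ˢ range (U / 2 + 1))).card ≤
      (A ×ˢ (univ : Finset (Fin U × Fin U))).card := by
    refine Finset.card_le_card_of_injOn
      (fun q => (Function.update (Function.update q.1 (Sum.inl p.1) (g q.2.2)) (Sum.inr p.2)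
        (g (q.2.1 - q.2.2)), (q.1 (Sum.inl p.1), q.1 (Sum.inr p.2)))) ?_ ?_
    · rintro ⟨y, z, a⟩ hq
      rw [Finset.mem_coe, Finset.mem_product, Finset.mem_product] at hq
      obtain ⟨-, hz, ha⟩ := hq
      have hz' := Finset.mem_Ico.1 (hC hz)
      have ha' := Finset.mem_range.1 ha
      simp only at hz' ha'
      rw [Finset.mem_coe, Finset.mem_product]
      refine ⟨?_, Finset.mem_univ _⟩
      rw [hA, Finset.mem_filter]
      refine ⟨Finset.mem_univ _, ?_⟩
      simp only [sm, Function.update_self, Function.update_of_ne huv]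
      rw [hg a (by omega), hg (z - a) (by omega)]
      have : a + (z - a) = z := by omega
      rw [this]
      exact hz
    · rintro ⟨y, z, a⟩ hq ⟨y', z', a'⟩ hq' heq
      rw [Finset.mem_coe, Finset.mem_product, Finset.mem_product] at hq hq'
      obtain ⟨-, hz, ha⟩ := hq
      obtain ⟨-, hz2, ha2⟩ := hq'
      have hz' := Finset.mem_Ico.1 (hC hz)
      have ha' := Finset.mem_range.1 ha
      have hz2' := Finset.mem_Ico.1 (hC hz2)
      have ha2' := Finset.mem_range.1 ha2
      simp only at hz' ha' hz2' ha2'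
      simp only [Prod.mk.injEq] at heq
      obtain ⟨h1, h2, h3⟩ := heq
      have hu := congrArg (Fin.val) (congrFun h1 (Sum.inl p.1))
      have hv := congrArg (Fin.val) (congrFun h1 (Sum.inr p.2))
      simp only [Function.update_self, Function.update_of_ne huv] at hu hv
      rw [hg a (by omega), hg a' (by omega)] at hu
      rw [hg (z - a) (by omega), hg (z' - a') (by omega)] at hv
      have hzz : z = z' := by omega
      have hyy : y = y' := by
        funext w
        by_cases hwu : w = Sum.inl p.1
        · rw [hwu]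
          exact h2
        by_cases hwv : w = Sum.inr p.2
        · rw [hwv]
          exact h3
        have hw := congrFun h1 w
        rwa [Function.update_of_ne hwv, Function.update_of_ne hwu, Function.update_of_ne hwv,
          Function.update_of_ne hwu] at hw
      rw [hyy, hzz, hu]
  rw [Finset.card_product, Finset.card_product, Finset.card_product, Finset.card_range,
    Finset.card_univ, Finset.card_univ, Fintype.card_prod, Fintype.card_fin, Fintype.card_fun,
    Fintype.card_fin, Fintype.card_sum, Fintype.card_fin, ← two_mul] at key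
  have h2 : U ≤ 2 * (U / 2 + 1) := by omega
  have h3 : U * (C.card * U ^ (2 * t)) ≤ U * (2 * U * A.card) := by
    calc U * (C.card * U ^ (2 * t)) ≤ 2 * (U / 2 + 1) * (C.card * U ^ (2 * t)) :=
          Nat.mul_le_mul_right _ h2
      _ = 2 * (U ^ (2 * t) * (C.card * (U / 2 + 1))) := by ring
      _ ≤ 2 * (A.card * (U * U)) := Nat.mul_le_mul_left _ key
      _ = U * (2 * U * A.card) := by ring
  exact Nat.le_of_mul_le_mul_left h3 hU

end Pool.Agent.H66.WSZ
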