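import Pool.Agent.H66.WSZ.PairE
import Pool.Agent.H66.WSZ.PairL

namespace Pool.Agent.H66.WSZ

open Finset Classical

private theorem cnt1_sum {t U : ℕ} (C : Finset ℕ) :
    ∑ y : Fin t ⊕ Fin t → Fin U, cnt C y = ∑ p : Fin t × Fin t,
      ((univ : Finset (Fin t ⊕ Fin t → Fin U)).filter (fun y => sm y p ∈ C)).card := by
  unfold cnt
  simp only [Finset.card_filter]
  rw [Finset.sum_comm]

private theorem cnt1_card (t : ℕ) : (univ : Finset (Fin t × Fin t)).card = t ^ 2 := by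
  rw [Finset.card_univ, Fintype.card_prod, Fintype.card_fin, sq]

/-- PROOF. `∑ y, cnt C y = ∑ p, |{y | sm y p ∈ C}|` (exchange the sums: `Finset.card_filter`,
`Finset.sum_comm`), there are `t ^ 2` pairs `p`, and `single_upper`. -/
theorem sum_cnt_le {t U : ℕ} (C : Finset ℕ) :
    U * ∑ y : Fin t ⊕ Fin t → Fin U, cnt C y ≤ C.card * t ^ 2 * U ^ (2 * t) := by
  rw [cnt1_sum, Finset.mul_sum]
  calc ∑ p : Fin t × Fin t, U * ((univ : Finset (Fin t ⊕ Fin t → Fin U)).filter
        (fun y => sm y p ∈ C)).card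
      ≤ ∑ _p : Fin t × Fin t, C.card * U ^ (2 * t) :=
        Finset.sum_le_sum fun p _ => single_upper C p
    _ = C.card * t ^ 2 * U ^ (2 * t) := by
        rw [Finset.sum_const, cnt1_card, smul_eq_mul]
        ring

/-- PROOF. As `sum_cnt_le`, with `single_lower`. -/
theorem sum_cnt_ge {t U : ℕ} (C : Finset ℕ) (hC : C ⊆ Ico (U / 2) U) :
    C.card * t ^ 2 * U ^ (2 * t) ≤ 2 * U * ∑ y : Fin t ⊕ Fin t → Fin U, cnt C y := by
  rw [cnt1_sum, Finset.mul_sum]
  calc C.card * t ^ 2 * U ^ (2 * t) = ∑ _p : Fin t × Fin t, C.card * U ^ (2 * t) := by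
        rw [Finset.sum_const, cnt1_card, smul_eq_mul]
        ring
    _ ≤ ∑ p : Fin t × Fin t, 2 * U * ((univ : Finset (Fin t ⊕ Fin t → Fin U)).filter
        (fun y => sm y p ∈ C)).card :=
        Finset.sum_le_sum fun p _ => single_lower C hC p

end Pool.Agent.H66.WSZ
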