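import Pool.Agent.H66.WSZ.PairE

namespace Pool.Agent.H66.WSZ

open Finset Classical

private theorem cnt2_mul {t U : ℕ} (C C' : Finset ℕ) (y : Fin t ⊕ Fin t → Fin U) :
    cnt C y * cnt C' y = ∑ q : (Fin t × Fin t) × (Fin t × Fin t),
      if sm y q.1 ∈ C ∧ sm y q.2 ∈ C' then 1 else 0 := by
  unfold cnt
  rw [← Finset.card_product, ← Finset.card_filter]
  congr 1
  ext q
  simp only [Finset.mem_product, Finset.mem_filter, Finset.mem_univ, true_and]

private theorem cnt2_sum {t U : ℕ} (C C' : Finset ℕ) :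
    ∑ y : Fin t ⊕ Fin t → Fin U, cnt C y * cnt C' y =
      ∑ q : (Fin t × Fin t) × (Fin t × Fin t),
        ((univ : Finset (Fin t ⊕ Fin t → Fin U)).filter
          (fun y => sm y q.1 ∈ C ∧ sm y q.2 ∈ C')).card := by
  simp only [cnt2_mul]
  rw [Finset.sum_comm]
  refine Finset.sum_congr rfl fun q _ => ?_
  rw [Finset.card_filter]

private theorem cnt2_card (t : ℕ) :
    (univ : Finset ((Fin t × Fin t) × (Fin t × Fin t))).card = t ^ 4 := by
  rw [Finset.card_univ, Fintype.card_prod, Fintype.card_prod, Fintype.card_fin]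
  ring

/-- PROOF. `cnt C y ^ 2` is the number of pairs `(p, p')` with `sm y p ∈ C` and `sm y p' ∈ C`
(`Finset.card_product`); those with `p = p'` are `cnt C y`. So
`cnt C y ^ 2 = cnt C y + ∑ over p ≠ p' of [sm y p ∈ C ∧ sm y p' ∈ C]`; exchange the sums, use
`pair_upper` (with `C' = C`) for each of the at most `t ^ 4` pairs `(p, p')` with `p ≠ p'`. -/
theorem sum_cnt_sq {t U : ℕ} (C : Finset ℕ) :
    U ^ 2 * ∑ y : Fin t ⊕ Fin t → Fin U, cnt C y ^ 2 ≤
      U ^ 2 * ∑ y : Fin t ⊕ Fin t → Fin U, cnt C y + (C.card * t ^ 2) ^ 2 * U ^ (2 * t) := by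
  have h0 : ∑ y : Fin t ⊕ Fin t → Fin U, cnt C y ^ 2 =
      ∑ q : (Fin t × Fin t) × (Fin t × Fin t),
        ((univ : Finset (Fin t ⊕ Fin t → Fin U)).filter
          (fun y => sm y q.1 ∈ C ∧ sm y q.2 ∈ C)).card := by
    rw [← cnt2_sum]
    exact Finset.sum_congr rfl fun y _ => sq _
  have h1 : ∑ y : Fin t ⊕ Fin t → Fin U, cnt C y =
      ∑ q ∈ (univ : Finset ((Fin t × Fin t) × (Fin t × Fin t))).filter (fun q => q.1 = q.2),
        ((univ : Finset (Fin t ⊕ Fin t → Fin U)).filter
          (fun y => sm y q.1 ∈ C ∧ sm y q.2 ∈ C)).card := by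
    have h2 : ∑ y : Fin t ⊕ Fin t → Fin U, cnt C y = ∑ p : Fin t × Fin t,
        ((univ : Finset (Fin t ⊕ Fin t → Fin U)).filter (fun y => sm y p ∈ C)).card := by
      unfold cnt
      simp only [Finset.card_filter]
      rw [Finset.sum_comm]
    rw [h2]
    refine Finset.sum_bij' (fun p _ => (p, p)) (fun q _ => q.1) ?_ ?_ ?_ ?_ ?_
    · intro p _
      simp
    · intro q _
      exact Finset.mem_univ _
    · intro p _
      rfl
    · intro q hq
      rw [Finset.mem_filter] at hq
      exact Prod.ext rfl hq.2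
    · intro p _
      simp only [and_self]
  rw [h0, ← Finset.sum_filter_add_sum_filter_not univ (fun q => q.1 = q.2), ← h1, mul_add]
  refine Nat.add_le_add_left ?_ _
  rw [Finset.mul_sum]
  calc ∑ q ∈ (univ : Finset ((Fin t × Fin t) × (Fin t × Fin t))).filter (fun q => ¬ q.1 = q.2),
        U ^ 2 * ((univ : Finset (Fin t ⊕ Fin t → Fin U)).filter
          (fun y => sm y q.1 ∈ C ∧ sm y q.2 ∈ C)).card
      ≤ ∑ _q ∈ (univ : Finset ((Fin t × Fin t) × (Fin t × Fin t))).filter (fun q => ¬ q.1 = q.2),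
        C.card * C.card * U ^ (2 * t) :=
        Finset.sum_le_sum fun q hq => pair_upper C C q.1 q.2 (Finset.mem_filter.1 hq).2
    _ ≤ ∑ _q : (Fin t × Fin t) × (Fin t × Fin t), C.card * C.card * U ^ (2 * t) :=
        Finset.sum_le_sum_of_subset (Finset.filter_subset _ _)
    _ = (C.card * t ^ 2) ^ 2 * U ^ (2 * t) := by
        rw [Finset.sum_const, cnt2_card, smul_eq_mul]
        ring

/-- PROOF. `cnt C y * cnt C' y` is the number of pairs `(p, p')` with `sm y p ∈ C` and
`sm y p' ∈ C'`; there are none with `p = p'` because `C` and `C'` are disjoint. Exchange the sums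
and use `pair_upper` for each of the at most `t ^ 4` pairs. -/
theorem sum_cnt_mul {t U : ℕ} (C C' : Finset ℕ) (hC : Disjoint C C') :
    U ^ 2 * ∑ y : Fin t ⊕ Fin t → Fin U, cnt C y * cnt C' y ≤
      (C.card * t ^ 2) * (C'.card * t ^ 2) * U ^ (2 * t) := by
  rw [cnt2_sum, Finset.mul_sum]
  calc ∑ q : (Fin t × Fin t) × (Fin t × Fin t),
        U ^ 2 * ((univ : Finset (Fin t ⊕ Fin t → Fin U)).filter
          (fun y => sm y q.1 ∈ C ∧ sm y q.2 ∈ C')).card
      ≤ ∑ _q : (Fin t × Fin t) × (Fin t × Fin t), C.card * C'.card * U ^ (2 * t) := by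
        refine Finset.sum_le_sum fun q _ => ?_
        by_cases hq : q.1 = q.2
        · have h0 : (univ : Finset (Fin t ⊕ Fin t → Fin U)).filter
              (fun y => sm y q.1 ∈ C ∧ sm y q.2 ∈ C') = ∅ := by
            refine Finset.filter_eq_empty_iff.2 fun y _ hy => ?_
            rw [hq] at hy
            exact Finset.disjoint_left.1 hC hy.1 hy.2
          rw [h0, Finset.card_empty, mul_zero]
          exact Nat.zero_le _
        · exact pair_upper C C' q.1 q.2 hq
    _ = (C.card * t ^ 2) * (C'.card * t ^ 2) * U ^ (2 * t) := by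
        rw [Finset.sum_const, cnt2_card, smul_eq_mul]
        ring

end Pool.Agent.H66.WSZ
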