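import Pool.Agent.H66.WSZ.PairE

namespace Pool.Agent.H66.WSZ

open Finset Classical

/-- PROOF. `shr C C' y` counts the pairs `q = (p, p')` with `¬ Dj p p'`, `sm y p ∈ C`,
`sm y p' ∈ C'`. There are at most `2 * t ^ 3` pairs `q` with `¬ Dj p p'` (that is `p.1 = p'.1` or
`p.2 = p'.2`: each of the two sets has `t ^ 3` elements), and none of the counted ones has `p = p'`
because `C` and `C'` are disjoint. Exchange the sums (`Finset.card_filter`, `Finset.sum_comm`) and
use `pair_upper` for each `q` with `p ≠ p'`. -/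
theorem sum_shr {t U : ℕ} (C C' : Finset ℕ) (hC : Disjoint C C') :
    U ^ 2 * ∑ y : Fin t ⊕ Fin t → Fin U, shr C C' y ≤
      2 * t ^ 3 * (C.card * C'.card) * U ^ (2 * t) := by
  have hA : ((univ : Finset ((Fin t × Fin t) × (Fin t × Fin t))).filter
      (fun q => ¬ Dj q.1 q.2)).card ≤ 2 * t ^ 3 := by
    have h1 : ((univ : Finset ((Fin t × Fin t) × (Fin t × Fin t))).filter
        (fun q => q.1.1 = q.2.1)).card ≤ t ^ 3 := by
      calc _ ≤ (univ : Finset (Fin t × Fin t × Fin t)).card := by
            apply Finset.card_le_card_of_injOn (fun q => (q.1.1, q.1.2, q.2.2))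
            · intro q _; simp
            · rintro ⟨⟨a, b⟩, ⟨c, d⟩⟩ hq ⟨⟨a', b'⟩, ⟨c', d'⟩⟩ hq' h
              simp only [Finset.coe_filter, Finset.mem_univ, true_and, Set.mem_ofPred_eq] at hq hq'
              simp only [Prod.mk.injEq] at h ⊢
              obtain ⟨h1, h2, h3⟩ := h
              subst h1 h2 h3 hq hq'
              simp
        _ = t ^ 3 := by simp; ring
    have h2 : ((univ : Finset ((Fin t × Fin t) × (Fin t × Fin t))).filter
        (fun q => q.1.2 = q.2.2)).card ≤ t ^ 3 := by
      calc _ ≤ (univ : Finset (Fin t × Fin t × Fin t)).card := by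
            apply Finset.card_le_card_of_injOn (fun q => (q.1.1, q.1.2, q.2.1))
            · intro q _; simp
            · rintro ⟨⟨a, b⟩, ⟨c, d⟩⟩ hq ⟨⟨a', b'⟩, ⟨c', d'⟩⟩ hq' h
              simp only [Finset.coe_filter, Finset.mem_univ, true_and, Set.mem_ofPred_eq] at hq hq'
              simp only [Prod.mk.injEq] at h ⊢
              obtain ⟨h1, h2, h3⟩ := h
              subst h1 h2 h3 hq hq'
              simp
        _ = t ^ 3 := by simp; ring
    calc _ ≤ (((univ : Finset ((Fin t × Fin t) × (Fin t × Fin t))).filter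
          (fun q => q.1.1 = q.2.1)) ∪ ((univ : Finset ((Fin t × Fin t) × (Fin t × Fin t))).filter
          (fun q => q.1.2 = q.2.2))).card := by
          apply Finset.card_le_card
          intro q hq
          simp only [Finset.mem_filter, Finset.mem_univ, true_and, Finset.mem_union, Dj] at hq ⊢
          tauto
      _ ≤ _ := Finset.card_union_le _ _
      _ ≤ 2 * t ^ 3 := by omega
  have hq : ∀ q : (Fin t × Fin t) × (Fin t × Fin t),
      U ^ 2 * ((univ : Finset (Fin t ⊕ Fin t → Fin U)).filter
        (fun y => sm y q.1 ∈ C ∧ sm y q.2 ∈ C' ∧ ¬ Dj q.1 q.2)).card ≤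
        if ¬ Dj q.1 q.2 then C.card * C'.card * U ^ (2 * t) else 0 := by
    intro q
    split_ifs with hD
    · have : ((univ : Finset (Fin t ⊕ Fin t → Fin U)).filter
          (fun y => sm y q.1 ∈ C ∧ sm y q.2 ∈ C' ∧ ¬ Dj q.1 q.2)) = ∅ := by
        apply Finset.filter_eq_empty_iff.2
        intro y _ h
        exact h.2.2 hD
      rw [this]; simp
    · by_cases hpp : q.1 = q.2
      · have : ((univ : Finset (Fin t ⊕ Fin t → Fin U)).filter
            (fun y => sm y q.1 ∈ C ∧ sm y q.2 ∈ C' ∧ ¬ Dj q.1 q.2)) = ∅ := by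
          apply Finset.filter_eq_empty_iff.2
          intro y _ h
          rw [← hpp] at h
          exact Finset.disjoint_left.1 hC h.1 h.2.1
        rw [this]; simp
      · refine le_trans (Nat.mul_le_mul_left _ (Finset.card_le_card ?_))
          (pair_upper C C' q.1 q.2 hpp)
        intro y hy
        simp only [Finset.mem_filter, Finset.mem_univ, true_and] at hy ⊢
        exact ⟨hy.1, hy.2.1⟩
  have hswap : ∑ y : Fin t ⊕ Fin t → Fin U, shr C C' y =
      ∑ q : (Fin t × Fin t) × (Fin t × Fin t), ((univ : Finset (Fin t ⊕ Fin t → Fin U)).filter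
        (fun y => sm y q.1 ∈ C ∧ sm y q.2 ∈ C' ∧ ¬ Dj q.1 q.2)).card := by
    unfold shr
    simp only [Finset.card_filter]
    exact Finset.sum_comm
  rw [hswap, Finset.mul_sum]
  calc _ ≤ ∑ q : (Fin t × Fin t) × (Fin t × Fin t),
        (if ¬ Dj q.1 q.2 then C.card * C'.card * U ^ (2 * t) else 0) :=
        Finset.sum_le_sum fun q _ => hq q
    _ = ((univ : Finset ((Fin t × Fin t) × (Fin t × Fin t))).filter
          (fun q => ¬ Dj q.1 q.2)).card * (C.card * C'.card * U ^ (2 * t)) := by
        rw [← Finset.sum_filter, Finset.sum_const, smul_eq_mul]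
    _ ≤ 2 * t ^ 3 * (C.card * C'.card * U ^ (2 * t)) := Nat.mul_le_mul_right _ hA
    _ = _ := by ring

end Pool.Agent.H66.WSZ
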