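import Pool.Agent.H66.WSZ.Hub

namespace Pool.Agent.H66.WSZ

open Finset Classical Pool.Agent.H55.FreeIdx

variable {H S W h : ℕ}

/-- The integers whose first `τ` probes are in the header `θ`, whose last probe is in the cell
`σ.1`, and which are accepted if this cell contains `σ.2`; the empty set if they are more
than `F`. -/
noncomputable def Dset (P : Scheme H S W) (g : Fin H) (w₀ : Fin W) (θ : Fin h → Fin S × Fin W)
    (τ F U : ℕ) (σ : Fin S × Fin W) : Finset ℕ :=
  if ((range (2 * U)).filter (fun z => Res P g (hmem θ w₀) (hset θ) τ z ∧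
      cl P g (hmem θ w₀) τ z = σ.1 ∧
      P.ans g z (σ.2 :: P.reads g (hmem θ w₀) z τ) = true)).card ≤ F
  then (range (2 * U)).filter (fun z => Res P g (hmem θ w₀) (hset θ) τ z ∧
      cl P g (hmem θ w₀) τ z = σ.1 ∧
      P.ans g z (σ.2 :: P.reads g (hmem θ w₀) z τ) = true)
  else ∅

/-- PROOF. `split_ifs`. -/
theorem Dset_card (P : Scheme H S W) (g : Fin H) (w₀ : Fin W) (θ : Fin h → Fin S × Fin W)
    (τ F U : ℕ) (σ : Fin S × Fin W) : (Dset P g w₀ θ τ F U σ).card ≤ F := by
  unfold Dset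
  split_ifs with h
  · exact h
  · simp

/-- PROOF. Let `N = hmem θ w₀`, `Q = hset θ`, `s = cl P g N τ z`, `w = M s`; `N = M` on `Q` by
`hmem_eq`. For every `z'` with `Res P g N Q τ z'` we have `Res P g M Q τ z'` (`res_iff`), hence
`P.reads g M z' τ = P.reads g N z' τ` (`reads_eq`, with `i = τ`) and
`cl P g M τ z' = cl P g N τ z'` (`cl_eq`); if this cell is `s` then
`P.run (τ + 1) g M z' = P.ans g z' (w :: P.reads g N z' τ)` (unfold `run`, `reads`). So the filtered
set in `Dset` with `σ = (s, w)` is contained in the set of all `z' < 2 * U` accepted by `M`, its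
cardinality is at most `F` by `hF`, and `z` is in it by `hacc`. -/
theorem coA (P : Scheme H S W) (g : Fin H) (M : Fin S → Fin W) (w₀ : Fin W)
    (θ : Fin h → Fin S × Fin W) (hθ : ∀ i, (θ i).2 = M (θ i).1) (τ F U z : ℕ)
    (hF : ((range (2 * U)).filter (fun z => P.run (τ + 1) g M z = true)).card ≤ F)
    (hz : z < 2 * U) (hres : Res P g (hmem θ w₀) (hset θ) τ z)
    (hacc : P.run (τ + 1) g M z = true) :
    z ∈ Dset P g w₀ θ τ F U (cl P g (hmem θ w₀) τ z, M (cl P g (hmem θ w₀) τ z)) := by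
  have hN : ∀ c ∈ hset θ, hmem θ w₀ c = M c := fun c hc => hmem_eq θ w₀ M hθ c hc
  have key : ∀ z', Res P g (hmem θ w₀) (hset θ) τ z' →
      P.run (τ + 1) g M z' =
        P.ans g z' (M (cl P g (hmem θ w₀) τ z') :: P.reads g (hmem θ w₀) z' τ) := by
    intro z' hz'
    have h1 : Res P g M (hset θ) τ z' := (res_iff P g M (hmem θ w₀) (hset θ) hN τ z').1 hz'
    have h2 := reads_eq P g M (hmem θ w₀) (hset θ) hN τ z' h1 τ le_rfl
    have h3 := cl_eq P g M (hmem θ w₀) (hset θ) hN τ z' h1 τ le_rfl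
    rw [h2, h3]
    rfl
  have hsub : (range (2 * U)).filter (fun z' => Res P g (hmem θ w₀) (hset θ) τ z' ∧
      cl P g (hmem θ w₀) τ z' = cl P g (hmem θ w₀) τ z ∧
      P.ans g z' (M (cl P g (hmem θ w₀) τ z) :: P.reads g (hmem θ w₀) z' τ) = true) ⊆
      (range (2 * U)).filter (fun z' => P.run (τ + 1) g M z' = true) := by
    intro z' hz'
    rw [mem_filter] at hz' ⊢
    obtain ⟨h1, h2, h3, h4⟩ := hz'
    refine ⟨h1, ?_⟩
    rw [key z' h2, h3]
    exact h4
  unfold Dset
  rw [if_pos]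
  · rw [mem_filter]
    refine ⟨mem_range.2 hz, hres, rfl, ?_⟩
    rw [← key z hres]
    exact hacc
  · refine le_trans (le_of_eq ?_) ((card_le_card hsub).trans (le_trans (le_of_eq ?_) hF))
    · rfl
    · congr

end Pool.Agent.H66.WSZ
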