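import Pool.Agent.H66.WSZ.Lev

namespace Pool.Agent.H66.WSZ

open Finset Classical Pool.Agent.H55.FreeIdx

variable {H S W : ℕ}

/-- PROOF. `lev` with `Z = Ico (U / 2) U` (so `U ≤ 2 * |Z|`) gives `Q`, `exists_header` gives
`θ : Fin (τ * h) → _` with `(θ i).2 = M (θ i).1` and `Q ⊆ hset θ` (`S > 0`: `P.addr g 0 []`).
`Res P g M Q τ z` implies `Res P g M (hset θ) τ z` (`res_mono`), which implies
`Res P g (hmem θ w₀) (hset θ) τ z` (`res_iff`, `hmem_eq`). -/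
theorem coB (P : Scheme H S W) (g : Fin H) (M : Fin S → Fin W) (w₀ : Fin W) (h : ℕ)
    (hh : h ≤ S) (τ U : ℕ) :
    ∃ θ : Fin (τ * h) → Fin S × Fin W, (∀ i, (θ i).2 = M (θ i).1) ∧
      h ^ τ * U ≤ 2 * (S ^ τ *
        ((Ico (U / 2) U).filter (fun z => Res P g (hmem θ w₀) (hset θ) τ z)).card) := by
  obtain ⟨Q, hQ, hZ⟩ := lev P g M (Ico (U / 2) U) h hh τ
  have hS : 0 < S := lt_of_le_of_lt (Nat.zero_le _) (P.addr g 0 []).2
  obtain ⟨θ, hθ, hQθ⟩ := exists_header Q hQ hS M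
  refine ⟨θ, hθ, ?_⟩
  have hsub : (Ico (U / 2) U).filter (fun z => Res P g M Q τ z) ⊆
      (Ico (U / 2) U).filter (fun z => Res P g (hmem θ w₀) (hset θ) τ z) := by
    intro z hz
    rw [Finset.mem_filter] at hz ⊢
    refine ⟨hz.1, ?_⟩
    have h1 : Res P g M (hset θ) τ z := res_mono P g M Q _ hQθ τ z hz.2
    exact (res_iff P g M (hmem θ w₀) (hset θ) (fun c hc => hmem_eq θ w₀ M hθ c hc) τ z).2 h1
  have hcard : U ≤ 2 * (Ico (U / 2) U).card := by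
    rw [Nat.card_Ico]
    omega
  calc h ^ τ * U ≤ h ^ τ * (2 * (Ico (U / 2) U).card) := Nat.mul_le_mul_left _ hcard
    _ = 2 * (h ^ τ * (Ico (U / 2) U).card) := by ring
    _ ≤ 2 * (S ^ τ * ((Ico (U / 2) U).filter (fun z => Res P g M Q τ z)).card) :=
        Nat.mul_le_mul_left _ hZ
    _ ≤ _ := Nat.mul_le_mul_left _ (Nat.mul_le_mul_left _ (Finset.card_le_card hsub))

end Pool.Agent.H66.WSZ
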