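import Pool.Agent.H66.WSZ.CorL

namespace Pool.Agent.H66.WSZ

/-- The numbers of the corollary for words of `κ * log n` bits.
PROOF. Write `j = κ + 3`, `E = 1 + 1 / T + 1 / (T ^ 2 * j) ≤ 2 + 1 / 3`, `w = j * (Nat.log 2 n + 1)`,
`h = n / (C * (T * w))` (natural division). Since `n < 2 ^ (Nat.log 2 n + 1)`, `n ^ j ≤ 2 ^ w`.
`S * W ≤ n ^ E * n ^ κ ≤ n ^ (κ + 7 / 3)`, so `2 * (S * W) ≤ n ^ (κ + 3) ≤ 2 ^ w` for `n ≥ 8`.
`C * (T * (w * h)) ≤ n` by `Nat.div_mul_le_self`. By `corL` (exponent `1`, `k = 1`)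
`2 * C * T * w ≤ n` for large `n`, so `h ≥ 1` and `h ≥ n / (2 * C * T * w)` (real). Last inequality,
in the reals: `C * S ^ (T * j - 1) ≤ C * n ^ (E * (T * j - 1))` and
`E * (T * j - 1) = (T + 1) * j - 1 - 1 / (T ^ 2 * j)`, while
`n ^ (2 * j - 1) * h ^ ((T - 1) * j) ≥ n ^ ((T + 1) * j - 1) / (2 * C * T * w) ^ ((T - 1) * j)`. So it
suffices that `C * (2 * C * T * j * (Nat.log 2 n + 1)) ^ ((T - 1) * j) < n ^ (1 / (T ^ 2 * j))`, which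
is `corL` with `A = C`, `B = 2 * C * T * j`, `k = (T - 1) * j`, `ε = 1 / (T ^ 2 * j)`. -/
theorem corN (T κ C : ℕ) (hT : 1 ≤ T) (hC : 0 < C) : ∃ n₀ : ℕ, ∀ n S W : ℕ, n₀ ≤ n → n ≤ S →
    W ≤ n ^ κ → (S : ℝ) ≤ (n : ℝ) ^ (1 + 1 / (T : ℝ) + 1 / ((T : ℝ) ^ 2 * ((κ : ℝ) + 3))) →
    ∃ w h : ℕ, 1 ≤ w ∧ 1 ≤ h ∧ 2 * (S * W) ≤ n ^ (κ + 3) ∧ S * W ≤ 2 ^ w ∧
      C * (T * (w * h)) ≤ n ∧
      C * S ^ (T * (κ + 3) - 1) < n ^ (2 * (κ + 3) - 1) * h ^ ((T - 1) * (κ + 3)) := by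
  obtain ⟨n1, hn1⟩ := corL 2 0 0 (2 / 3) (by norm_num)
  obtain ⟨n2, hn2⟩ := corL 1 (2 * C * T * (κ + 3)) 1 1 one_pos
  have hT0 : (0 : ℝ) < (T : ℝ) := by exact_mod_cast hT
  have hκ3 : (0 : ℝ) < (κ : ℝ) + 3 := by positivity
  obtain ⟨n3, hn3⟩ := corL C (2 * C * T * (κ + 3)) ((T - 1) * (κ + 3))
    (1 / ((T : ℝ) ^ 2 * ((κ : ℝ) + 3))) (by positivity)
  refine ⟨max 1 (max n1 (max n2 n3)), ?_⟩
  intro n S W hn hnS hW hS
  have h1n : 1 ≤ n := le_trans (le_max_left _ _) hn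
  have hn1' := hn1 n (le_trans (le_trans (le_max_left _ _) (le_max_right _ _)) hn)
  have hn2' := hn2 n (le_trans (le_trans (le_max_left _ _) (le_trans (le_max_right _ _)
    (le_max_right _ _))) hn)
  have hn3' := hn3 n (le_trans (le_trans (le_max_right _ _) (le_trans (le_max_right _ _)
    (le_max_right _ _))) hn)
  have hnr1 : (1 : ℝ) ≤ n := by exact_mod_cast h1n
  have hnr0 : (0 : ℝ) < n := by linarith
  set l : ℕ := Nat.log 2 n with hl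
  set E : ℝ := 1 + 1 / (T : ℝ) + 1 / ((T : ℝ) ^ 2 * ((κ : ℝ) + 3)) with hE
  have hE73 : E ≤ 7 / 3 := by
    have hT1 : (1 : ℝ) ≤ T := by exact_mod_cast hT
    have h1 : 1 / (T : ℝ) ≤ 1 := by
      rw [div_le_one hT0]; exact hT1
    have h2 : 1 / ((T : ℝ) ^ 2 * ((κ : ℝ) + 3)) ≤ 1 / 3 := by
      apply one_div_le_one_div_of_le (by norm_num)
      have h3 : (1 : ℝ) ≤ (T : ℝ) ^ 2 := one_le_pow₀ hT1
      have h4 : (0 : ℝ) ≤ (κ : ℝ) := by positivity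
      nlinarith
    rw [hE]; linarith
  -- the product bound
  have hSW : 2 * (S * W) ≤ n ^ (κ + 3) := by
    have h2 : (2 : ℝ) < (n : ℝ) ^ ((2 : ℝ) / 3) := by
      have := hn1'
      rw [pow_zero, mul_one] at this
      exact_mod_cast this
    have h3 : (S : ℝ) ≤ (n : ℝ) ^ ((7 : ℝ) / 3) :=
      hS.trans (Real.rpow_le_rpow_of_exponent_le hnr1 hE73)
    have h4 : (W : ℝ) ≤ (n : ℝ) ^ κ := by exact_mod_cast hW
    have h5 : (2 : ℝ) * (S * W) ≤ (n : ℝ) ^ (κ + 3) := by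
      calc (2 : ℝ) * (S * W) ≤ (n : ℝ) ^ ((2 : ℝ) / 3) * ((n : ℝ) ^ ((7 : ℝ) / 3) * (n : ℝ) ^ κ) := by
            gcongr
        _ = (n : ℝ) ^ κ * ((n : ℝ) ^ ((2 : ℝ) / 3) * (n : ℝ) ^ ((7 : ℝ) / 3)) := by ring
        _ = (n : ℝ) ^ κ * (n : ℝ) ^ (3 : ℕ) := by
            rw [← Real.rpow_add hnr0, ← Real.rpow_natCast (n : ℝ) 3]
            congr 2
            norm_num
        _ = (n : ℝ) ^ (κ + 3) := by rw [pow_add]
    exact_mod_cast h5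
  have hD2 : 2 * (C * (T * ((κ + 3) * (l + 1)))) < n := by
    have h6 : ((2 * C * T * (κ + 3) : ℕ) : ℝ) * ((l : ℝ) + 1) < n := by
      have h6' := hn2'
      rw [pow_one, Nat.cast_one, one_mul, Real.rpow_one] at h6'
      exact h6'
    have h7 : (((2 * C * T * (κ + 3)) * (l + 1) : ℕ) : ℝ) < n := by
      push_cast at h6 ⊢
      exact h6
    have h8 : (2 * C * T * (κ + 3)) * (l + 1) < n := by exact_mod_cast h7
    calc 2 * (C * (T * ((κ + 3) * (l + 1)))) = (2 * C * T * (κ + 3)) * (l + 1) := by ring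
      _ < n := h8
  set w : ℕ := (κ + 3) * (l + 1) with hw
  set D : ℕ := C * (T * w) with hD
  have hw1 : 1 ≤ w := by
    rw [hw]
    exact Nat.mul_pos (by omega) (by omega)
  have hD1 : 1 ≤ D := by
    rw [hD]
    exact Nat.mul_pos hC (Nat.mul_pos hT hw1)
  have hh1 : 1 ≤ n / D := by
    rw [Nat.le_div_iff_mul_le hD1]
    omega
  refine ⟨w, n / D, hw1, hh1, hSW, ?_, ?_, ?_⟩
  · have h2 : n ^ (κ + 3) ≤ 2 ^ w := by
      have h3 : n < 2 ^ (l + 1) := Nat.lt_pow_succ_log_self (by norm_num) n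
      calc n ^ (κ + 3) ≤ (2 ^ (l + 1)) ^ (κ + 3) := Nat.pow_le_pow_left h3.le _
        _ = 2 ^ w := by rw [← pow_mul, hw, mul_comm]
    omega
  · calc C * (T * (w * (n / D))) = D * (n / D) := by rw [hD]; ring
      _ ≤ n := Nat.mul_div_le n D
  · obtain ⟨T', rfl⟩ : ∃ T', T = T' + 1 := ⟨T - 1, by omega⟩
    set k : ℕ := T' * (κ + 3) with hk
    have e1 : (T' + 1) * (κ + 3) - 1 = k + (κ + 2) := by
      rw [hk, add_mul, one_mul]
      omega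
    have e2 : 2 * (κ + 3) - 1 = 2 * κ + 5 := by omega
    have e3 : (T' + 1 - 1) * (κ + 3) = k := by rw [Nat.add_sub_cancel]
    rw [e1, e2, e3]
    rw [e3] at hn3'
    set h : ℕ := n / D with hh
    have hn2D : n ≤ 2 * D * h := by
      have h4 : n < D * (h + 1) := by
        rw [hh]
        exact Nat.lt_mul_div_succ n hD1
      have h5 : D * (h + 1) ≤ D * (2 * h) := Nat.mul_le_mul_left D (by omega)
      calc n ≤ D * (h + 1) := h4.le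
        _ ≤ D * (2 * h) := h5
        _ = 2 * D * h := by ring
    have hcast : ((2 * C * (T' + 1) * (κ + 3) : ℕ) : ℝ) * ((l : ℝ) + 1) = ((2 * D : ℕ) : ℝ) := by
      rw [hD, hw]
      push_cast
      ring
    rw [hcast] at hn3'
    set ε : ℝ := 1 / (((T' + 1 : ℕ) : ℝ) ^ 2 * ((κ : ℝ) + 3)) with hε
    have hpow : ((n : ℝ) ^ E) ^ (k + (κ + 2)) * (n : ℝ) ^ ε = (n : ℝ) ^ (2 * κ + 5 + k) := by
      rw [← Real.rpow_natCast ((n : ℝ) ^ E), ← Real.rpow_mul hnr0.le, ← Real.rpow_add hnr0,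
        ← Real.rpow_natCast (n : ℝ)]
      congr 1
      rw [hE, hε, hk]
      push_cast
      field_simp
      ring
    have hpos : (0 : ℝ) < ((2 * D : ℕ) : ℝ) ^ k := by
      have : (0 : ℝ) < ((2 * D : ℕ) : ℝ) := by exact_mod_cast (by omega : 0 < 2 * D)
      positivity
    have hS0 : (0 : ℝ) < ((n : ℝ) ^ E) ^ (k + (κ + 2)) := by
      have : 0 < (n : ℝ) ^ E := Real.rpow_pos_of_pos hnr0 _
      positivity
    have hfin : (C : ℝ) * (S : ℝ) ^ (k + (κ + 2)) * ((2 * D : ℕ) : ℝ) ^ k <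
        ((n : ℝ) ^ (2 * κ + 5) * (h : ℝ) ^ k) * ((2 * D : ℕ) : ℝ) ^ k := by
      calc (C : ℝ) * (S : ℝ) ^ (k + (κ + 2)) * ((2 * D : ℕ) : ℝ) ^ k
          ≤ (C : ℝ) * ((n : ℝ) ^ E) ^ (k + (κ + 2)) * ((2 * D : ℕ) : ℝ) ^ k := by gcongr
        _ = ((n : ℝ) ^ E) ^ (k + (κ + 2)) * ((C : ℝ) * ((2 * D : ℕ) : ℝ) ^ k) := by ring
        _ < ((n : ℝ) ^ E) ^ (k + (κ + 2)) * (n : ℝ) ^ ε := mul_lt_mul_of_pos_left hn3' hS0
        _ = (n : ℝ) ^ (2 * κ + 5 + k) := hpow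
        _ = (n : ℝ) ^ (2 * κ + 5) * (n : ℝ) ^ k := pow_add _ _ _
        _ ≤ (n : ℝ) ^ (2 * κ + 5) * (((2 * D * h : ℕ) : ℝ)) ^ k := by
            have : (n : ℝ) ≤ ((2 * D * h : ℕ) : ℝ) := by exact_mod_cast hn2D
            gcongr
        _ = ((n : ℝ) ^ (2 * κ + 5) * (h : ℝ) ^ k) * ((2 * D : ℕ) : ℝ) ^ k := by
            rw [Nat.cast_mul (2 * D) h, mul_pow]
            ring
    have := lt_of_mul_lt_mul_right hfin hpos.le
    exact_mod_cast this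

end Pool.Agent.H66.WSZ
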