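import Pool.Agent.H66.WSZ.Defs

namespace Pool.Agent.H66.WSZ

open Finset Classical Pool.Agent.H55.FreeIdx

/-- Additional cells do no harm.
PROOF. `P'` has the same answers and the addresses `Fin.castLE hS (P.addr g z l)`. If `P` handles
`A`, `B` with `g`, `M` then `P'` does with `g` and `M' c = M ⟨c, _⟩` for `c < S`, and any value
`M (P.addr g 0 [])` for the other cells: `P'.reads g M' z t = P.reads g M z t` by induction on `t`,
so `run` is the same. -/
theorem pad {H S S' W : ℕ} (P : Scheme H S W) (hS : S ≤ S') :
    ∃ P' : Scheme H S' W, ∀ (T F n U : ℕ) (A B : Fin n → Fin U),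
      Handles P T F A B → Handles P' T F A B := by
  refine ⟨⟨fun g z l => Fin.castLE hS (P.addr g z l), P.ans⟩, ?_⟩
  intro T F n U A B h
  obtain ⟨g, M, h1, h2⟩ := h
  let M' : Fin S' → Fin W := fun c => if hc : (c : ℕ) < S then M ⟨c, hc⟩ else M (P.addr g 0 [])
  have hM' : ∀ a : Fin S, M' (Fin.castLE hS a) = M a := by
    intro a
    have : ((Fin.castLE hS a : Fin S') : ℕ) < S := a.2
    simp only [M']
    rw [dif_pos this]
    rfl
  have hreads : ∀ (z t : ℕ), Scheme.reads (⟨fun g z l => Fin.castLE hS (P.addr g z l), P.ans⟩ :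
      Scheme H S' W) g M' z t = P.reads g M z t := by
    intro z t
    induction t with
    | zero => rfl
    | succ t ih =>
      simp only [Scheme.reads]
      rw [ih, hM']
  have hrun : ∀ z : ℕ, Scheme.run (⟨fun g z l => Fin.castLE hS (P.addr g z l), P.ans⟩ :
      Scheme H S' W) T g M' z = P.run T g M z := by
    intro z
    unfold Scheme.run
    rw [hreads]
  refine ⟨g, M', ?_, ?_⟩
  · intro z hz
    rw [hrun]
    exact h1 z hz
  · have h3 : (range (2 * U)).filter (fun z => Scheme.run
        (⟨fun g z l => Fin.castLE hS (P.addr g z l), P.ans⟩ : Scheme H S' W) T g M' z = true) =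
        (range (2 * U)).filter (fun z => P.run T g M z = true) := by
      apply Finset.filter_congr
      intro z _
      rw [hrun]
    rw [h3]
    exact h2

/-- PROOF. Each side is a `Nat.card` of a subtype of a finite type; `Nat.card_le_card_of_injective`
with the map `Subtype.map id`. -/
theorem handlesFraction_mono {H S S' W : ℕ} (P : Scheme H S W) (P' : Scheme H S' W)
    (T F n U : ℕ) (δ : ℝ)
    (hPP : ∀ A B : Fin n → Fin U, Handles P T F A B → Handles P' T F A B)
    (hf : HandlesFraction P T F n U δ) : HandlesFraction P' T F n U δ := by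
  unfold HandlesFraction at hf ⊢
  refine hf.trans ?_
  have h1 : Nat.card {p : (Fin n → Fin U) × (Fin n → Fin U) // Handles P T F p.1 p.2} ≤
      Nat.card {p : (Fin n → Fin U) × (Fin n → Fin U) // Handles P' T F p.1 p.2} := by
    apply Nat.card_le_card_of_injective
      (fun p : {p : (Fin n → Fin U) × (Fin n → Fin U) // Handles P T F p.1 p.2} =>
        (⟨p.1, hPP _ _ p.2⟩ :
          {p : (Fin n → Fin U) × (Fin n → Fin U) // Handles P' T F p.1 p.2}))
    intro a b hab
    have h2 := congrArg Subtype.val hab
    exact Subtype.ext h2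
  exact_mod_cast h1

end Pool.Agent.H66.WSZ
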