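import Pool.Agent.H66.WSZ.ThmA
import Pool.Agent.H66.WSZ.Pad
import Pool.Agent.H66.WSZ.CorN

namespace Pool.Agent.H66.WSZ

open Finset Classical Pool.Agent.H55.FreeIdx

theorem corB (T κ : ℕ) (hT : 1 ≤ T) : ∃ C n₀ : ℕ, 0 < C ∧
    ∀ (n U S W H F : ℕ) (P : Scheme H S W), n₀ ≤ n → 1 ≤ F → F * n ^ 3 ≤ U → W ≤ n ^ κ →
      (H : ℝ) ≤ (2 : ℝ) ^ ((n : ℝ) / C) →
      HandlesFraction P T F n U ((2 : ℝ) ^ (-((n : ℝ) / C))) →
      (n : ℝ) ^ (1 + 1 / (T : ℝ) + 1 / ((T : ℝ) ^ 2 * ((κ : ℝ) + 3))) < S := by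
  obtain ⟨C, hC, hmain⟩ := main (κ + 3) (by omega)
  obtain ⟨n₀, hn₀⟩ := corN T κ C hT hC
  refine ⟨C, n₀ + 1, hC, ?_⟩
  intro n U S W H F P hn hF hUF hW hH hfr
  by_contra hcon
  push Not at hcon
  have hn1 : 1 ≤ n := by omega
  have hn1' : (1 : ℝ) ≤ n := by exact_mod_cast hn1
  have hU : 0 < U := lt_of_lt_of_le (by positivity) hUF
  have hU' : (0 : ℝ) < U := by exact_mod_cast hU
  have hW1 : 1 ≤ W := by
    by_contra hW0
    have hW0' : W = 0 := by omega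
    subst hW0'
    have hempty : IsEmpty {p : (Fin n → Fin U) × (Fin n → Fin U) // Handles P T F p.1 p.2} := by
      refine ⟨?_⟩
      rintro ⟨p, g, M, -⟩
      exact (M (P.addr g 0 [])).elim0
    unfold HandlesFraction at hfr
    rw [Nat.card_of_isEmpty, Nat.cast_zero] at hfr
    have : 0 < (2 : ℝ) ^ (-((n : ℝ) / C)) * (U : ℝ) ^ (2 * n) := by positivity
    linarith
  obtain ⟨P', hP'⟩ := pad P (le_max_left S n)
  have hfr' := handlesFraction_mono P P' T F n U _ (fun A B => hP' T F n U A B) hfr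
  have hS' : ((max S n : ℕ) : ℝ) ≤
      (n : ℝ) ^ (1 + 1 / (T : ℝ) + 1 / ((T : ℝ) ^ 2 * ((κ : ℝ) + 3))) := by
    rw [Nat.cast_max]
    refine max_le hcon ?_
    have hT' : (0 : ℝ) < T := by exact_mod_cast hT
    calc (n : ℝ) = (n : ℝ) ^ (1 : ℝ) := (Real.rpow_one _).symm
      _ ≤ _ := Real.rpow_le_rpow_of_exponent_le hn1' (by
        have : 0 < 1 / (T : ℝ) := by positivity
        have : 0 < 1 / ((T : ℝ) ^ 2 * ((κ : ℝ) + 3)) := by positivity
        linarith)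
  obtain ⟨w, h, hw, hh, hSW, hSW2, hCn, hlt⟩ := hn₀ n (max S n) W (by omega) (le_max_right _ _)
    hW hS'
  have hsz : 2 * (max S n * W) * (n ^ 2 * F) ^ (κ + 3) ≤ U ^ (κ + 3) := by
    calc 2 * (max S n * W) * (n ^ 2 * F) ^ (κ + 3)
        ≤ n ^ (κ + 3) * (n ^ 2 * F) ^ (κ + 3) := Nat.mul_le_mul_right _ hSW
      _ = (F * n ^ 3) ^ (κ + 3) := by rw [← mul_pow]; congr 1; ring
      _ ≤ U ^ (κ + 3) := Nat.pow_le_pow_left hUF _
  have key := hmain n U (max S n) W H T F w h P' (le_max_right _ _) hW1 hF hT hw hh hsz hSW2 hCn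
    hH hfr'
  omega

/-- The accepted integers are exactly the at most `n ^ 2` sums, so the scheme handles all
pairs of arrays with `F = n ^ 2`. -/
theorem corC (T κ : ℕ) (hT : 1 ≤ T) : ∃ C n₀ : ℕ, 0 < C ∧
    ∀ n U S W H : ℕ, n₀ ≤ n → n ^ 5 ≤ U → W ≤ n ^ κ → (H : ℝ) ≤ (2 : ℝ) ^ ((n : ℝ) / C) →
      Solvable n U S W H T →
      (n : ℝ) ^ (1 + 1 / (T : ℝ) + 1 / ((T : ℝ) ^ 2 * ((κ : ℝ) + 3))) < S := by
  obtain ⟨C, n₀, hC, hmain⟩ := corB T κ hT
  refine ⟨C, n₀ + 1, hC, ?_⟩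
  intro n U S W H hn hU hW hH hsolv
  obtain ⟨P, hP⟩ := hsolv
  have hall : ∀ A B : Fin n → Fin U, Handles P T (n ^ 2) A B := by
    intro A B
    obtain ⟨g, M, hM⟩ := hP A B
    refine ⟨g, M, fun z hz => (hM z).2 hz, ?_⟩
    have hsub : (range (2 * U)).filter (fun z => P.run T g M z = true) ⊆
        (univ : Finset (Fin n × Fin n)).image (fun p => (A p.1 : ℕ) + (B p.2 : ℕ)) := by
      intro z hz
      obtain ⟨a, b, hab⟩ := (hM z).1 (mem_filter.1 hz).2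
      exact mem_image.2 ⟨(a, b), mem_univ _, hab⟩
    refine (card_le_card hsub).trans (card_image_le.trans ?_)
    rw [card_univ, Fintype.card_prod, Fintype.card_fin]
    exact (sq n).ge
  refine hmain n U S W H (n ^ 2) P (by omega) (Nat.one_le_pow _ _ (by omega)) ?_ hW hH ?_
  · calc n ^ 2 * n ^ 3 = n ^ 5 := by ring
      _ ≤ U := hU
  · unfold HandlesFraction
    have hcard : Nat.card {p : (Fin n → Fin U) × (Fin n → Fin U) //
        Handles P T (n ^ 2) p.1 p.2} = U ^ (2 * n) := by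
      have e : {p : (Fin n → Fin U) × (Fin n → Fin U) // Handles P T (n ^ 2) p.1 p.2} ≃
          (Fin n → Fin U) × (Fin n → Fin U) :=
        Equiv.subtypeUnivEquiv (fun p : (Fin n → Fin U) × (Fin n → Fin U) => hall p.1 p.2)
      rw [Nat.card_congr e, Nat.card_eq_fintype_card,
        Fintype.card_prod, Fintype.card_fun, Fintype.card_fin, Fintype.card_fin, two_mul, pow_add]
    rw [hcard]
    push_cast
    have h1 : (2 : ℝ) ^ (-((n : ℝ) / C)) ≤ 1 :=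
      Real.rpow_le_one_of_one_le_of_nonpos (by norm_num) (by
        have : 0 ≤ (n : ℝ) / C := by positivity
        linarith)
    have h2 : 0 ≤ (U : ℝ) ^ (2 * n) := by positivity
    nlinarith

end Pool.Agent.H66.WSZ
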