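import Pool.Agent.H66.WSZ.CorL

namespace Pool.Agent.H66.WSZ

/-- The numbers of the corollary for words of `κ * log n` bits (adapted from `corN`). -/
theorem corG (T j κ C : ℕ) (hT : 1 ≤ T) (hj : 2 ≤ j) (hC : 0 < C) (ε : ℝ) (hε : 0 < ε) :
    ∃ n₀ : ℕ, ∀ n S W : ℕ, n₀ ≤ n → n ≤ S →
    W ≤ n ^ κ → (S : ℝ) ≤ (n : ℝ) ^ (1 + (j : ℝ) / ((T : ℝ) * j - 1) - ε) →
    ∃ w h : ℕ, 1 ≤ w ∧ 1 ≤ h ∧ 2 * (S * W) ≤ n ^ (κ + 4) ∧ S * W ≤ 2 ^ w ∧
      C * (T * (w * h)) ≤ n ∧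
      C * S ^ (T * j - 1) < n ^ (2 * j - 1) * h ^ ((T - 1) * j) := by
  have hT0 : (0 : ℝ) < (T : ℝ) := by exact_mod_cast hT
  have hT1 : (1 : ℝ) ≤ T := by exact_mod_cast hT
  have hj2 : (2 : ℝ) ≤ j := by exact_mod_cast hj
  have hTj : (1 : ℝ) ≤ (T : ℝ) * j - 1 := by nlinarith
  obtain ⟨n2, hn2⟩ := corL 1 (2 * C * T * (κ + 4)) 1 1 one_pos
  obtain ⟨n3, hn3⟩ := corL C (2 * C * T * (κ + 4)) ((T - 1) * j)
    (ε * ((T : ℝ) * j - 1)) (by nlinarith)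
  refine ⟨max 2 (max n2 n3), ?_⟩
  intro n S W hn hnS hW hS
  have h1n : 2 ≤ n := le_trans (le_max_left _ _) hn
  have hn2' := hn2 n (le_trans (le_trans (le_max_left _ _) (le_max_right _ _)) hn)
  have hn3' := hn3 n (le_trans (le_trans (le_max_right _ _) (le_max_right _ _)) hn)
  have hnr1 : (1 : ℝ) ≤ n := by exact_mod_cast (by omega : 1 ≤ n)
  have hnr0 : (0 : ℝ) < n := by linarith
  set l : ℕ := Nat.log 2 n with hl
  set E : ℝ := 1 + (j : ℝ) / ((T : ℝ) * j - 1) - ε with hE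
  have hE3 : E ≤ 3 := by
    have h1 : (j : ℝ) / ((T : ℝ) * j - 1) ≤ 2 := by
      rw [div_le_iff₀ (by linarith)]
      nlinarith
    rw [hE]; linarith
  -- the product bound
  have hSW : 2 * (S * W) ≤ n ^ (κ + 4) := by
    have h3 : (S : ℝ) ≤ (n : ℝ) ^ (3 : ℕ) := by
      refine hS.trans ((Real.rpow_le_rpow_of_exponent_le hnr1 hE3).trans ?_)
      rw [← Real.rpow_natCast]
      norm_num
    have h3' : S ≤ n ^ 3 := by exact_mod_cast h3
    calc 2 * (S * W) ≤ n * (n ^ 3 * n ^ κ) := by gcongr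
      _ = n ^ (κ + 4) := by ring
  have hD2 : 2 * (C * (T * ((κ + 4) * (l + 1)))) < n := by
    have h6 : ((2 * C * T * (κ + 4) : ℕ) : ℝ) * ((l : ℝ) + 1) < n := by
      have h6' := hn2'
      rw [pow_one, Nat.cast_one, one_mul, Real.rpow_one] at h6'
      exact h6'
    have h7 : (((2 * C * T * (κ + 4)) * (l + 1) : ℕ) : ℝ) < n := by
      push_cast at h6 ⊢
      exact h6
    have h8 : (2 * C * T * (κ + 4)) * (l + 1) < n := by exact_mod_cast h7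
    calc 2 * (C * (T * ((κ + 4) * (l + 1)))) = (2 * C * T * (κ + 4)) * (l + 1) := by ring
      _ < n := h8
  set w : ℕ := (κ + 4) * (l + 1) with hw
  set D : ℕ := C * (T * w) with hD
  have hw1 : 1 ≤ w := by
    rw [hw]
    exact Nat.mul_pos (by omega) (by omega)
  have hD1 : 1 ≤ D := by
    rw [hD]
    exact Nat.mul_pos hC (Nat.mul_pos hT hw1)
  have hh1 : 1 ≤ n / D := by
    rw [Nat.le_div_iff_mul_le hD1]
    omega
  refine ⟨w, n / D, hw1, hh1, hSW, ?_, ?_, ?_⟩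
  · have h2 : n ^ (κ + 4) ≤ 2 ^ w := by
      have h3 : n < 2 ^ (l + 1) := Nat.lt_pow_succ_log_self (by norm_num) n
      calc n ^ (κ + 4) ≤ (2 ^ (l + 1)) ^ (κ + 4) := Nat.pow_le_pow_left h3.le _
        _ = 2 ^ w := by rw [← pow_mul, hw, mul_comm]
    omega
  · calc C * (T * (w * (n / D))) = D * (n / D) := by rw [hD]; ring
      _ ≤ n := Nat.mul_div_le n D
  · set k : ℕ := (T - 1) * j with hk
    have hTjn : 1 ≤ T * j := Nat.mul_pos hT (by omega)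
    have hkT : k + j = T * j := by
      rw [hk, ← Nat.succ_mul, Nat.succ_eq_add_one, Nat.sub_add_cancel hT]
    set h : ℕ := n / D with hh
    have hn2D : n ≤ 2 * D * h := by
      have h4 : n < D * (h + 1) := by
        rw [hh]
        exact Nat.lt_mul_div_succ n hD1
      have h5 : D * (h + 1) ≤ D * (2 * h) := Nat.mul_le_mul_left D (by omega)
      calc n ≤ D * (h + 1) := h4.le
        _ ≤ D * (2 * h) := h5
        _ = 2 * D * h := by ring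
    have hcast : ((2 * C * T * (κ + 4) : ℕ) : ℝ) * ((l : ℝ) + 1) = ((2 * D : ℕ) : ℝ) := by
      rw [hD, hw]
      push_cast
      ring
    rw [hcast] at hn3'
    have hcT : ((T * j - 1 : ℕ) : ℝ) = (T : ℝ) * j - 1 := by
      rw [Nat.cast_sub hTjn]
      push_cast
      ring
    have hpow : ((n : ℝ) ^ E) ^ (T * j - 1) * (n : ℝ) ^ (ε * ((T : ℝ) * j - 1)) =
        (n : ℝ) ^ (2 * j - 1 + k) := by
      rw [← Real.rpow_natCast ((n : ℝ) ^ E), ← Real.rpow_mul hnr0.le, ← Real.rpow_add hnr0,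
        ← Real.rpow_natCast (n : ℝ)]
      congr 1
      have e : 2 * j - 1 + k = T * j + j - 1 := by omega
      rw [e, hcT, hE, Nat.cast_sub (by omega)]
      push_cast
      have hne : (T : ℝ) * j - 1 ≠ 0 := by linarith
      have hc : (j : ℝ) / ((T : ℝ) * j - 1) * ((T : ℝ) * j - 1) = j := div_mul_cancel₀ _ hne
      have h1 : (1 + (j : ℝ) / ((T : ℝ) * j - 1) - ε) * ((T : ℝ) * j - 1) =
          ((T : ℝ) * j - 1) + (j : ℝ) / ((T : ℝ) * j - 1) * ((T : ℝ) * j - 1) -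
            ε * ((T : ℝ) * j - 1) := by ring
      rw [h1, hc]
      ring
    have hpos : (0 : ℝ) < ((2 * D : ℕ) : ℝ) ^ k := by
      have : (0 : ℝ) < ((2 * D : ℕ) : ℝ) := by exact_mod_cast (by omega : 0 < 2 * D)
      positivity
    have hS0 : (0 : ℝ) < ((n : ℝ) ^ E) ^ (T * j - 1) := by
      have : 0 < (n : ℝ) ^ E := Real.rpow_pos_of_pos hnr0 _
      positivity
    have hfin : (C : ℝ) * (S : ℝ) ^ (T * j - 1) * ((2 * D : ℕ) : ℝ) ^ k <
        ((n : ℝ) ^ (2 * j - 1) * (h : ℝ) ^ k) * ((2 * D : ℕ) : ℝ) ^ k := by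
      calc (C : ℝ) * (S : ℝ) ^ (T * j - 1) * ((2 * D : ℕ) : ℝ) ^ k
          ≤ (C : ℝ) * ((n : ℝ) ^ E) ^ (T * j - 1) * ((2 * D : ℕ) : ℝ) ^ k := by gcongr
        _ = ((n : ℝ) ^ E) ^ (T * j - 1) * ((C : ℝ) * ((2 * D : ℕ) : ℝ) ^ k) := by ring
        _ < ((n : ℝ) ^ E) ^ (T * j - 1) * (n : ℝ) ^ (ε * ((T : ℝ) * j - 1)) :=
            mul_lt_mul_of_pos_left hn3' hS0
        _ = (n : ℝ) ^ (2 * j - 1 + k) := hpow
        _ = (n : ℝ) ^ (2 * j - 1) * (n : ℝ) ^ k := pow_add _ _ _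
        _ ≤ (n : ℝ) ^ (2 * j - 1) * (((2 * D * h : ℕ) : ℝ)) ^ k := by
            have : (n : ℝ) ≤ ((2 * D * h : ℕ) : ℝ) := by exact_mod_cast hn2D
            gcongr
        _ = ((n : ℝ) ^ (2 * j - 1) * (h : ℝ) ^ k) * ((2 * D : ℕ) : ℝ) ^ k := by
            rw [Nat.cast_mul (2 * D) h, mul_pow]
            ring
    have := lt_of_mul_lt_mul_right hfin hpos.le
    exact_mod_cast this

end Pool.Agent.H66.WSZ
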