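import Pool.Agent.H66.WSZ.Cor
import Pool.Agent.H66.WSZ.CorG

namespace Pool.Agent.H66.WSZ

open Finset Classical Pool.Agent.H55.FreeIdx

/-- The exponent `1 + j / (T * j - 1)` for words of less than `j * log U` bits. -/
theorem corGen (T j κ : ℕ) (hT : 1 ≤ T) (hj : 2 ≤ j) (ε : ℝ) (hε : 0 < ε) :
    ∃ C n₀ : ℕ, 0 < C ∧ ∀ (n U S W H F : ℕ) (P : Scheme H S W), n₀ ≤ n → 1 ≤ F →
      n ^ (κ + 4) * (n ^ 2 * F) ^ j ≤ U ^ j → W ≤ n ^ κ →
      (H : ℝ) ≤ (2 : ℝ) ^ ((n : ℝ) / C) →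
      HandlesFraction P T F n U ((2 : ℝ) ^ (-((n : ℝ) / C))) →
      (n : ℝ) ^ (1 + (j : ℝ) / ((T : ℝ) * j - 1) - ε) < S := by
  have hT0 : (0 : ℝ) < (T : ℝ) := by exact_mod_cast hT
  have hT1 : (1 : ℝ) ≤ T := by exact_mod_cast hT
  have hj2 : (2 : ℝ) ≤ j := by exact_mod_cast hj
  have hTj : (1 : ℝ) ≤ (T : ℝ) * j - 1 := by nlinarith
  obtain ⟨C, hC, hmain⟩ := main j (by omega)
  set ε' : ℝ := min ε (1 / (T : ℝ)) with hε'
  have hε'0 : 0 < ε' := lt_min hε (by positivity)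
  obtain ⟨n₀, hn₀⟩ := corG T j κ C hT hj hC ε' hε'0
  refine ⟨C, n₀ + 1, hC, ?_⟩
  intro n U S W H F P hn hF hUF hW hH hfr
  by_contra hcon
  push Not at hcon
  have hn1 : 1 ≤ n := by omega
  have hn1' : (1 : ℝ) ≤ n := by exact_mod_cast hn1
  have hU : 0 < U := by
    rcases Nat.eq_zero_or_pos U with h0 | h0
    · exfalso
      rw [h0, zero_pow (by omega)] at hUF
      have : 0 < n ^ (κ + 4) * (n ^ 2 * F) ^ j := by positivity
      omega
    · exact h0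
  have hU' : (0 : ℝ) < U := by exact_mod_cast hU
  have hW1 : 1 ≤ W := by
    by_contra hW0
    have hW0' : W = 0 := by omega
    subst hW0'
    have hempty : IsEmpty {p : (Fin n → Fin U) × (Fin n → Fin U) // Handles P T F p.1 p.2} := by
      refine ⟨?_⟩
      rintro ⟨p, g, M, -⟩
      exact (M (P.addr g 0 [])).elim0
    unfold HandlesFraction at hfr
    rw [Nat.card_of_isEmpty, Nat.cast_zero] at hfr
    have : 0 < (2 : ℝ) ^ (-((n : ℝ) / C)) * (U : ℝ) ^ (2 * n) := by positivity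
    linarith
  obtain ⟨P', hP'⟩ := pad P (le_max_left S n)
  have hfr' := handlesFraction_mono P P' T F n U _ (fun A B => hP' T F n U A B) hfr
  have hS' : ((max S n : ℕ) : ℝ) ≤ (n : ℝ) ^ (1 + (j : ℝ) / ((T : ℝ) * j - 1) - ε') := by
    rw [Nat.cast_max]
    have hjT : 1 / (T : ℝ) ≤ (j : ℝ) / ((T : ℝ) * j - 1) := by
      rw [div_le_div_iff₀ hT0 (by linarith)]
      linarith
    have h1 : ε' ≤ ε := min_le_left _ _
    have h2 : ε' ≤ 1 / (T : ℝ) := min_le_right _ _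
    refine max_le (hcon.trans (Real.rpow_le_rpow_of_exponent_le hn1' (by linarith))) ?_
    calc (n : ℝ) = (n : ℝ) ^ (1 : ℝ) := (Real.rpow_one _).symm
      _ ≤ _ := Real.rpow_le_rpow_of_exponent_le hn1' (by linarith)
  obtain ⟨w, h, hw, hh, hSW, hSW2, hCn, hlt⟩ := hn₀ n (max S n) W (by omega) (le_max_right _ _)
    hW hS'
  have hsz : 2 * (max S n * W) * (n ^ 2 * F) ^ j ≤ U ^ j :=
    (Nat.mul_le_mul_right _ hSW).trans hUF
  have key := hmain n U (max S n) W H T F w h P' (le_max_right _ _) hW1 hF hT hw hh hsz hSW2 hCn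
    hH hfr'
  omega

end Pool.Agent.H66.WSZ
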