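import Mathlib

namespace Pool.Agent.H66.WSZ

/-- PROOF. `Nat.log 2 n ≤ Real.log n / Real.log 2 ≤ 2 * Real.log n` (`Real.natLog_le_logb`, or
`2 ^ Nat.log 2 n ≤ n`), and powers of `log n` are `o(n ^ ε)` (`isLittleO_log_rpow_rpow_atTop` or
`isLittleO_pow_log_id_atTop`). Elementary: `Real.log n ≤ n ^ (ε') / ε'` (`Real.log_le_rpow_div`)
with `ε' = ε / (k + 1)` bounds the left side by `D * n ^ (k * ε / (k + 1))`. -/
theorem corL (A B k : ℕ) (ε : ℝ) (hε : 0 < ε) : ∃ n₀ : ℕ, ∀ n : ℕ, n₀ ≤ n →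
    (A : ℝ) * ((B : ℝ) * ((Nat.log 2 n : ℝ) + 1)) ^ k < (n : ℝ) ^ ε := by
  set e' : ℝ := ε / (k + 1) with he'
  have hk1 : (0 : ℝ) < (k : ℝ) + 1 := by positivity
  have he0 : 0 < e' := by rw [he']; positivity
  -- the constant
  set D : ℝ := (A : ℝ) * ((B : ℝ) * (2 / e' + 1)) ^ k + 1 with hD
  have hD0 : 0 < D := by rw [hD]; positivity
  refine ⟨max 2 (⌈D ^ (1 / e')⌉₊ + 1), fun n hn => ?_⟩
  have hn2 : 2 ≤ n := le_trans (le_max_left _ _) hn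
  have hnD : ⌈D ^ (1 / e')⌉₊ + 1 ≤ n := le_trans (le_max_right _ _) hn
  have hn1 : (1 : ℝ) ≤ n := by exact_mod_cast (by omega : 1 ≤ n)
  have hn0 : (0 : ℝ) < n := by linarith
  have hnD' : D ^ (1 / e') ≤ (n : ℝ) := by
    have h1 := Nat.le_ceil (D ^ (1 / e'))
    have h2 : ((⌈D ^ (1 / e')⌉₊ : ℕ) : ℝ) ≤ n := by exact_mod_cast (by omega : _ ≤ n)
    linarith
  have hDn : D ≤ (n : ℝ) ^ e' := by
    have h3 := Real.rpow_le_rpow (Real.rpow_nonneg hD0.le _) hnD' he0.le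
    rw [← Real.rpow_mul hD0.le, one_div_mul_cancel he0.ne', Real.rpow_one] at h3
    exact h3
  have hlog : (Nat.log 2 n : ℝ) ≤ 2 * Real.log n := by
    have h1 : (2 : ℝ) ^ (Nat.log 2 n) ≤ n := by
      exact_mod_cast Nat.pow_log_le_self 2 (by omega)
    have h2 := Real.log_le_log (by positivity) h1
    rw [Real.log_pow] at h2
    have h3 : (1 : ℝ) / 2 ≤ Real.log 2 := by
      have := Real.log_two_gt_d9
      linarith
    have h4 : (0 : ℝ) ≤ (Nat.log 2 n : ℝ) := by positivity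
    nlinarith
  have hlog2 : Real.log n ≤ (n : ℝ) ^ e' / e' := Real.log_le_rpow_div hn0.le he0
  have hp1 : 1 ≤ (n : ℝ) ^ e' := Real.one_le_rpow hn1 he0.le
  have h5 : (Nat.log 2 n : ℝ) + 1 ≤ (2 / e' + 1) * (n : ℝ) ^ e' := by
    have h6 : 2 * ((n : ℝ) ^ e' / e') = 2 / e' * (n : ℝ) ^ e' := by ring
    nlinarith
  have h7 : ((B : ℝ) * ((Nat.log 2 n : ℝ) + 1)) ^ k ≤
      ((B : ℝ) * (2 / e' + 1)) ^ k * ((n : ℝ) ^ e') ^ k := by
    rw [← mul_pow]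
    refine pow_le_pow_left₀ (by positivity) ?_ k
    calc (B : ℝ) * ((Nat.log 2 n : ℝ) + 1) ≤ (B : ℝ) * ((2 / e' + 1) * (n : ℝ) ^ e') := by
          gcongr
      _ = (B : ℝ) * (2 / e' + 1) * (n : ℝ) ^ e' := by ring
  have hpk : 0 < ((n : ℝ) ^ e') ^ k := by positivity
  calc (A : ℝ) * ((B : ℝ) * ((Nat.log 2 n : ℝ) + 1)) ^ k
      ≤ (A : ℝ) * (((B : ℝ) * (2 / e' + 1)) ^ k * ((n : ℝ) ^ e') ^ k) := by gcongr
    _ = (A : ℝ) * ((B : ℝ) * (2 / e' + 1)) ^ k * ((n : ℝ) ^ e') ^ k := by ring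
    _ < D * ((n : ℝ) ^ e') ^ k := by
        refine mul_lt_mul_of_pos_right ?_ hpk
        rw [hD]
        linarith
    _ ≤ (n : ℝ) ^ e' * ((n : ℝ) ^ e') ^ k := by gcongr
    _ = (n : ℝ) ^ ε := by
        rw [← pow_succ', ← Real.rpow_natCast, ← Real.rpow_mul hn0.le]
        congr 1
        rw [he']
        push_cast
        field_simp

end Pool.Agent.H66.WSZ
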