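import Pool.Agent.H66.WSZ.CoA
import Pool.Agent.H66.WSZ.CoB
import Pool.Agent.H66.WSZ.Chk

namespace Pool.Agent.H66.WSZ

open Finset Classical Pool.Agent.H55.FreeIdx

/-- A scheme handles few inputs, if most inputs have packings in all systems of groups, and few
inputs are accepted in `K` disjoint configurations by a fixed system of small sets. -/
theorem core {H S W j t U m N K F τ h : ℕ} (P : Scheme H S W) (hh : h ≤ S)
    (hm : 0 < m) (hsz : 2 * (m * (N + S)) * S ^ τ ≤ h ^ τ * U) (hS : 0 < S) (p₁ p₂ : ℝ)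
    (h1 : ∀ G : Fin N → Finset ℕ, (∀ a, G a ⊆ Ico (U / 2) U) → (∀ a, (G a).card = m) →
      (∀ a a', a ≠ a' → Disjoint (G a) (G a')) →
      (((univ : Finset (Inp j t U)).filter (fun ω => ¬ Pack ω G K)).card : ℝ) ≤ p₁)
    (h2 : ∀ D : Fin S × Fin W → Finset ℕ, (∀ σ, (D σ).card ≤ F) →
      (((univ : Finset (Inp j t U)).filter (fun ω => Acc ω D K)).card : ℝ) ≤ p₂)
    (hp₁ : 0 ≤ p₁) (hp₂ : 0 ≤ p₂) :
    (((univ : Finset (Inp j t U)).filter (fun ω => HInp P (τ + 1) F ω)).card : ℝ) ≤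
      (H : ℝ) * ((S * W : ℕ) : ℝ) ^ (τ * h) * (p₁ + p₂) := by
  rcases Nat.eq_zero_or_pos W with hW | hW
  · have h0 : ((univ : Finset (Inp j t U)).filter (fun ω => HInp P (τ + 1) F ω)) = ∅ := by
      rw [Finset.filter_eq_empty_iff]
      rintro ω _ ⟨g, M, _, _⟩
      have := (M ⟨0, hS⟩).isLt
      omega
    rw [h0, Finset.card_empty, Nat.cast_zero]
    positivity
  set w₀ : Fin W := ⟨0, hW⟩ with hw₀
  set R : Fin H → (Fin (τ * h) → Fin S × Fin W) → Finset ℕ := fun g θ =>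
    (Ico (U / 2) U).filter (fun z => Res P g (hmem θ w₀) (hset θ) τ z) with hR
  have hch : ∀ g θ, ∃ (G : Fin N → Finset ℕ) (s : Fin N → Fin S), m * (N + S) ≤ (R g θ).card →
      (∀ a, G a ⊆ R g θ) ∧ (∀ a, (G a).card = m) ∧ (∀ a a', a ≠ a' → Disjoint (G a) (G a')) ∧
      ∀ a, ∀ z ∈ G a, cl P g (hmem θ w₀) τ z = s a := by
    intro g θ
    by_cases hc : m * (N + S) ≤ (R g θ).card
    · obtain ⟨G, s, hG⟩ := chk hm (fun z => cl P g (hmem θ w₀) τ z) N (R g θ) hc
      exact ⟨G, s, fun _ => hG⟩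
    · exact ⟨fun _ => ∅, fun _ => ⟨0, hS⟩, fun h => absurd h hc⟩
  choose G s hGs using hch
  set B : Fin H × (Fin (τ * h) → Fin S × Fin W) → Finset (Inp j t U) := fun q =>
    if m * (N + S) ≤ (R q.1 q.2).card then
      (univ : Finset (Inp j t U)).filter (fun ω => ¬ Pack ω (G q.1 q.2) K) ∪
      (univ : Finset (Inp j t U)).filter (fun ω => Acc ω (Dset P q.1 w₀ q.2 τ F U) K)
    else ∅ with hB
  have hcard : ∀ q, ((B q).card : ℝ) ≤ p₁ + p₂ := by
    intro q
    rw [hB]
    dsimp only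
    split_ifs with hc
    · obtain ⟨hG1, hG2, hG3, -⟩ := hGs q.1 q.2 hc
      have b1 := h1 (G q.1 q.2) (fun a => (hG1 a).trans (Finset.filter_subset _ _)) hG2 hG3
      have b2 := h2 (Dset P q.1 w₀ q.2 τ F U) (fun σ => Dset_card P q.1 w₀ q.2 τ F U σ)
      have b3 : (((univ : Finset (Inp j t U)).filter (fun ω => ¬ Pack ω (G q.1 q.2) K) ∪
        (univ : Finset (Inp j t U)).filter
          (fun ω => Acc ω (Dset P q.1 w₀ q.2 τ F U) K)).card : ℝ) ≤
        (((univ : Finset (Inp j t U)).filter (fun ω => ¬ Pack ω (G q.1 q.2) K)).card : ℝ) +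
        (((univ : Finset (Inp j t U)).filter
          (fun ω => Acc ω (Dset P q.1 w₀ q.2 τ F U) K)).card : ℝ) := by
        exact_mod_cast Finset.card_union_le _ _
      linarith
    · rw [Finset.card_empty, Nat.cast_zero]
      linarith
  have hsub : ((univ : Finset (Inp j t U)).filter (fun ω => HInp P (τ + 1) F ω)) ⊆
      (univ : Finset (Fin H × (Fin (τ * h) → Fin S × Fin W))).biUnion B := by
    intro ω hω
    obtain ⟨g, M, hacc, hF⟩ := (mem_filter.1 hω).2
    obtain ⟨θ, hθ, hRc⟩ := coB P g M w₀ h hh τ U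
    rw [mem_biUnion]
    refine ⟨(g, θ), mem_univ _, ?_⟩
    have hc : m * (N + S) ≤ (R g θ).card := by
      have h3 : 2 * (m * (N + S)) * S ^ τ ≤ 2 * (R g θ).card * S ^ τ := by
        refine (hsz.trans hRc).trans (le_of_eq ?_)
        ring
      have h4 := Nat.le_of_mul_le_mul_right h3 (pow_pos hS τ)
      omega
    rw [hB]
    dsimp only
    rw [if_pos hc, mem_union, mem_filter, mem_filter]
    by_cases hpk : Pack ω (G g θ) K
    · right
      refine ⟨mem_univ _, ?_⟩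
      obtain ⟨hG1, -, -, hG4⟩ := hGs g θ hc
      obtain ⟨c, a, hdis, hhit⟩ := hpk
      refine ⟨c, fun r => (s g θ (a r), M (s g θ (a r))), hdis, fun r l => ?_⟩
      have hz := hhit r l
      have hzR := hG1 (a r) hz
      rw [hR] at hzR
      obtain ⟨hz1, hz2⟩ := mem_filter.1 hzR
      have hz3 := (Finset.mem_Ico.1 hz1).2
      have h5 := coA P g M w₀ θ hθ τ F U (sm (ω l) (c r l)) hF (by omega) hz2 (hacc l (c r l))
      rw [hG4 (a r) _ hz] at h5
      exact h5
    · left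
      exact ⟨mem_univ _, hpk⟩
  have h6 : (((univ : Finset (Inp j t U)).filter (fun ω => HInp P (τ + 1) F ω)).card : ℝ) ≤
      ∑ q : Fin H × (Fin (τ * h) → Fin S × Fin W), ((B q).card : ℝ) := by
    exact_mod_cast (card_le_card hsub).trans card_biUnion_le
  refine h6.trans ((Finset.sum_le_card_nsmul _ _ _ (fun q _ => hcard q)).trans (le_of_eq ?_))
  rw [nsmul_eq_mul, Finset.card_univ, Fintype.card_prod, Fintype.card_fun, Fintype.card_prod,
    Fintype.card_fin, Fintype.card_fin, Fintype.card_fin, Fintype.card_fin]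
  push_cast
  ring

end Pool.Agent.H66.WSZ
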