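import Mathlib

namespace Pool.Agent.H66.WSZ

/-- upper bound for the density of the groups -/
noncomputable def lamS (j : ℕ) : ℝ := 1 / (j * 2 ^ (2 * j + 1))

/-- upper bound for the number of configurations per array entry -/
noncomputable def x2 (j : ℕ) : ℝ := 1 / (8 * j * 2 ^ j)

/-- half of the expected size of a packing per array entry -/
noncomputable def c1 (j : ℕ) : ℝ := 1 / (64 * j * 4 ^ j)

end Pool.Agent.H66.WSZ
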