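import Pool.Agent.H55.FreeIdx.Defs

/-!
3SUM-Indexing with a constant number of probes and words of any size: definitions of the statement
(first section) and of the proof (second section).
-/

namespace Pool.Agent.H66.WSZ

open Finset Pool.Agent.H55.FreeIdx

section statement

variable {H S W : ℕ}

/-- With `T` probes the scheme `P` handles the arrays `A`, `B`, with at most `F` positive answers:
for some value of the index and some contents of the memory every sum is accepted, and at most
`F` of all the integers `z < 2 * U` are accepted. -/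
def Handles (P : Scheme H S W) (T F : ℕ) {n U : ℕ} (A B : Fin n → Fin U) : Prop :=
  ∃ (g : Fin H) (M : Fin S → Fin W), (∀ z, IsSum A B z → P.run T g M z = true) ∧
    ((range (2 * U)).filter (fun z => P.run T g M z = true)).card ≤ F

/-- `P` handles at least the fraction `δ` of all pairs of arrays of `n` integers in `[0, U)`. -/
def HandlesFraction (P : Scheme H S W) (T F n U : ℕ) (δ : ℝ) : Prop :=
  δ * (U : ℝ) ^ (2 * n) ≤
    (Nat.card {p : (Fin n → Fin U) × (Fin n → Fin U) // Handles P T F p.1 p.2} : ℝ)

end statement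

section proof

/-- Inputs of the proof: `j` classes, each of them a pair of arrays of length `t`. -/
abbrev Inp (j t U : ℕ) := Fin j → Fin t ⊕ Fin t → Fin U

/-- The sum which belongs to the pair `p` in one class. -/
def sm {t U : ℕ} (y : Fin t ⊕ Fin t → Fin U) (p : Fin t × Fin t) : ℕ :=
  (y (Sum.inl p.1) : ℕ) + (y (Sum.inr p.2) : ℕ)

/-- Configurations: one pair in each class. -/
abbrev Conf (j t : ℕ) := Fin j → Fin t × Fin t

/-- All the sums of the configuration `c` are in `D`. -/
def Hits {j t U : ℕ} (ω : Inp j t U) (D : Finset ℕ) (c : Conf j t) : Prop :=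
  ∀ l, sm (ω l) (c l) ∈ D

/-- Two pairs without a common coordinate. -/
def Dj {t : ℕ} (p p' : Fin t × Fin t) : Prop := p.1 ≠ p'.1 ∧ p.2 ≠ p'.2

/-- Disjoint configurations: their pairs have no common coordinate, in any class. -/
def Disj {j t : ℕ} (c c' : Conf j t) : Prop := ∀ l, Dj (c l) (c' l)

/-- There are `K` pairwise disjoint configurations, each of which hits one of the groups `G a`. -/
def Pack {j t U N : ℕ} (ω : Inp j t U) (G : Fin N → Finset ℕ) (K : ℕ) : Prop :=
  ∃ (c : Fin K → Conf j t) (a : Fin K → Fin N), (∀ r r', r ≠ r' → Disj (c r) (c r')) ∧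
    ∀ r, Hits ω (G (a r)) (c r)

/-- There are `K` pairwise disjoint configurations, each of which hits one of the sets `D σ`. -/
def Acc {j t U : ℕ} {Θ : Type} (ω : Inp j t U) (D : Θ → Finset ℕ) (K : ℕ) : Prop :=
  ∃ (c : Fin K → Conf j t) (σ : Fin K → Θ), (∀ r r', r ≠ r' → Disj (c r) (c r')) ∧
    ∀ r, Hits ω (D (σ r)) (c r)

open Classical in
/-- The number of pairs whose sum is in `C`. -/
noncomputable def cnt {t U : ℕ} (C : Finset ℕ) (y : Fin t ⊕ Fin t → Fin U) : ℕ :=
  ((univ : Finset (Fin t × Fin t)).filter (fun p => sm y p ∈ C)).card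

open Classical in
/-- The number of pairs of pairs with a common coordinate and sums in `C` and in `C'`. -/
noncomputable def shr {t U : ℕ} (C C' : Finset ℕ) (y : Fin t ⊕ Fin t → Fin U) : ℕ :=
  ((univ : Finset ((Fin t × Fin t) × (Fin t × Fin t))).filter
    (fun q => sm y q.1 ∈ C ∧ sm y q.2 ∈ C' ∧ ¬ Dj q.1 q.2)).card

open Classical in
/-- The number of configurations which hit `C`. -/
noncomputable def hc {j t U : ℕ} (C : Finset ℕ) (ω : Inp j t U) : ℕ :=
  ((univ : Finset (Conf j t)).filter (fun c => Hits ω C c)).card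

open Classical in
/-- The number of pairs of configurations which hit `C` and `C'` and are not disjoint. -/
noncomputable def xc {j t U : ℕ} (C C' : Finset ℕ) (ω : Inp j t U) : ℕ :=
  ((univ : Finset (Conf j t × Conf j t)).filter
    (fun q => Hits ω C q.1 ∧ Hits ω C' q.2 ∧ ¬ Disj q.1 q.2)).card

open Classical in
/-- The largest size (at most `t`) of a packing. -/
noncomputable def kmax {j t U N : ℕ} (G : Fin N → Finset ℕ) (ω : Inp j t U) : ℕ :=
  Nat.findGreatest (fun K => Pack ω G K) t

variable {H S W : ℕ}

/-- The scheme handles the input `ω`. -/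
def HInp (P : Scheme H S W) (T F : ℕ) {j t U : ℕ} (ω : Inp j t U) : Prop :=
  ∃ (g : Fin H) (M : Fin S → Fin W), (∀ l p, P.run T g M (sm (ω l) p) = true) ∧
    ((range (2 * U)).filter (fun z => P.run T g M z = true)).card ≤ F

/-- The address of probe number `t + 1` when the memory is `M`. -/
def cl (P : Scheme H S W) (g : Fin H) (M : Fin S → Fin W) (t z : ℕ) : Fin S :=
  P.addr g z (P.reads g M z t)

/-- The first `t` probes are made in `Q`. -/
def Res (P : Scheme H S W) (g : Fin H) (M : Fin S → Fin W) (Q : Finset (Fin S)) (t z : ℕ) : Prop :=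
  ∀ i < t, cl P g M i z ∈ Q

open Classical in
/-- The memory defined by a header. -/
noncomputable def hmem {h : ℕ} (θ : Fin h → Fin S × Fin W) (w₀ : Fin W) (c : Fin S) : Fin W :=
  if hc : ∃ i, (θ i).1 = c then (θ hc.choose).2 else w₀

open Classical in
/-- The cells of a header. -/
noncomputable def hset {h : ℕ} (θ : Fin h → Fin S × Fin W) : Finset (Fin S) :=
  (univ : Finset (Fin h)).image (fun i => (θ i).1)

end proof

end Pool.Agent.H66.WSZ
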