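import Pool.Agent.H66.WSZ.KmB

namespace Pool.Agent.H66.WSZ

open Finset Classical

variable {j t U N : ℕ}

/-- A large packing by deletion.
PROOF. Let `V` be the finset of all `v = (a, c)` in `Fin N × Conf j t` with `Hits ω (G a) c`,
`B` the finset of all `(v, v')` in `V × V` with `v ≠ v'` and `¬ Disj v.2 v'.2`, and `I` the finset
of all `v ∈ V` with `Disj v.2 v'.2` for all `v' ∈ V`, `v' ≠ v`. Then `|V| ≤ |I| + |B|`, because
`V \ I` is contained in the image of `B` under the first projection. The elements of `I`,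
enumerated by `Fin |I|` (`I.equivFin`), are a packing, so `|I| ≤ kmax G ω` by `le_kmax`. Moreover
`|V| = ∑ a, hc (G a) ω`. The elements of `B` with different first components `a ≠ a'` of `v`, `v'`
are at most `∑ a, ∑ a' ∈ univ.erase a, xc (G a) (G a') ω`, and those with the same `a` are pairs
`(c, c')` of different configurations which hit `G a`, so they are at most
`hc (G a) ω ^ 2 - hc (G a) ω` for each `a` (`Finset.offDiag_card`). -/
theorem del (hj : 0 < j) (G : Fin N → Finset ℕ) (ω : Inp j t U) :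
    2 * ∑ a, hc (G a) ω ≤ kmax G ω + ∑ a, hc (G a) ω ^ 2 +
      ∑ a, ∑ a' ∈ (univ : Finset (Fin N)).erase a, xc (G a) (G a') ω := by
  let S : Fin N → Finset (Conf j t) := fun a => univ.filter (fun c => Hits ω (G a) c)
  have hSm : ∀ a c, c ∈ S a ↔ Hits ω (G a) c := fun a c => by simp [S]
  have hSc : ∀ a, hc (G a) ω = (S a).card := fun a => rfl
  let X : Fin N → Fin N → Finset (Conf j t × Conf j t) := fun a a' =>
    univ.filter (fun q => Hits ω (G a) q.1 ∧ Hits ω (G a') q.2 ∧ ¬ Disj q.1 q.2)
  have hXc : ∀ a a', xc (G a) (G a') ω = (X a a').card := fun a a' => rfl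
  let V : Finset (Fin N × Conf j t) := univ.filter (fun v => Hits ω (G v.1) v.2)
  have hVm : ∀ v, v ∈ V ↔ Hits ω (G v.1) v.2 := fun v => by simp [V]
  let I : Finset (Fin N × Conf j t) := V.filter (fun v => ∀ v' ∈ V, v' ≠ v → Disj v.2 v'.2)
  let B1 : Finset ((Fin N × Conf j t) × (Fin N × Conf j t)) :=
    (V ×ˢ V).filter (fun q => q.1 ≠ q.2 ∧ ¬ Disj q.1.2 q.2.2 ∧ q.1.1 = q.2.1)
  let B2 : Finset ((Fin N × Conf j t) × (Fin N × Conf j t)) :=
    (V ×ˢ V).filter (fun q => ¬ Disj q.1.2 q.2.2 ∧ q.1.1 ≠ q.2.1)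
  have h1 : V.card ≤ I.card + (B1.card + B2.card) := by
    have hsub : V ⊆ I ∪ (B1.image Prod.fst ∪ B2.image Prod.fst) := by
      intro v hv
      by_cases hvI : v ∈ I
      · exact mem_union_left _ hvI
      · apply mem_union_right
        have hex : ∃ v' ∈ V, v' ≠ v ∧ ¬ Disj v.2 v'.2 := by
          by_contra hcon
          push Not at hcon
          exact hvI (mem_filter.mpr ⟨hv, fun v' hv' hne => hcon v' hv' hne⟩)
        obtain ⟨v', hv', hne, hnd⟩ := hex
        by_cases he : v.1 = v'.1
        · apply mem_union_left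
          exact mem_image.mpr ⟨(v, v'), mem_filter.mpr
            ⟨mem_product.mpr ⟨hv, hv'⟩, fun h => hne h.symm, hnd, he⟩, rfl⟩
        · apply mem_union_right
          exact mem_image.mpr ⟨(v, v'), mem_filter.mpr
            ⟨mem_product.mpr ⟨hv, hv'⟩, hnd, he⟩, rfl⟩
    have e1 := card_le_card hsub
    have e2 := card_union_le I (B1.image Prod.fst ∪ B2.image Prod.fst)
    have e3 := card_union_le (B1.image Prod.fst) (B2.image Prod.fst)
    have e4 : (B1.image Prod.fst).card ≤ B1.card := card_image_le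
    have e5 : (B2.image Prod.fst).card ≤ B2.card := card_image_le
    omega
  have h2 : V.card = ∑ a, hc (G a) ω := by
    show (univ.filter (fun v : Fin N × Conf j t => Hits ω (G v.1) v.2)).card = _
    rw [card_filter, Fintype.sum_prod_type]
    apply sum_congr rfl
    intro a _
    rw [hSc]
    show _ = (univ.filter (fun c => Hits ω (G a) c)).card
    rw [card_filter]
  have h3 : I.card ≤ kmax G ω := by
    apply le_kmax hj
    refine ⟨fun r => (I.equivFin.symm r).1.2, fun r => (I.equivFin.symm r).1.1, ?_, ?_⟩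
    · intro r r' hrr
      have m1 := (I.equivFin.symm r).2
      have m2 := (I.equivFin.symm r').2
      have hne : (I.equivFin.symm r').1 ≠ (I.equivFin.symm r).1 := by
        intro h
        exact hrr (I.equivFin.symm.injective (Subtype.ext h)).symm
      exact (mem_filter.mp m1).2 _ (mem_filter.mp m2).1 hne
    · intro r
      have m1 := (I.equivFin.symm r).2
      exact (hVm _).mp (mem_filter.mp m1).1
  have h4 : B1.card ≤ ∑ a, ((S a).card * (S a).card - (S a).card) := by
    have e : (univ.sigma (fun a => (S a).offDiag)).card =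
        ∑ a, ((S a).card * (S a).card - (S a).card) := by
      rw [card_sigma]
      exact sum_congr rfl (fun a _ => offDiag_card _)
    rw [← e]
    apply card_le_card_of_injOn
      (fun q => (⟨q.1.1, (q.1.2, q.2.2)⟩ : Σ _ : Fin N, Conf j t × Conf j t))
    · intro q hq
      have hq' := mem_filter.mp (mem_coe.mp hq)
      obtain ⟨hq1, hq2, hq3, hq4⟩ := hq'
      have hv := mem_product.mp hq1
      apply mem_coe.mpr
      rw [mem_sigma]
      refine ⟨mem_univ _, ?_⟩
      rw [mem_offDiag]
      refine ⟨(hSm _ _).mpr ((hVm _).mp hv.1), (hSm _ _).mpr ?_, ?_⟩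
      · show Hits ω (G q.1.1) q.2.2
        rw [hq4]
        exact (hVm _).mp hv.2
      · intro h
        exact hq2 (Prod.ext hq4 h)
    · intro q hq q' hq' h
      have a1 := (mem_filter.mp (mem_coe.mp hq)).2.2.2
      have a2 := (mem_filter.mp (mem_coe.mp hq')).2.2.2
      simp only [Sigma.mk.injEq, heq_eq_eq, Prod.mk.injEq] at h
      obtain ⟨h1, h2, h3⟩ := h
      exact Prod.ext (Prod.ext h1 h2) (Prod.ext (by rw [← a1, ← a2, h1]) h3)
  have h5 : B2.card ≤ ∑ a, ∑ a' ∈ (univ : Finset (Fin N)).erase a, xc (G a) (G a') ω := by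
    have e : (univ.sigma (fun a => ((univ : Finset (Fin N)).erase a).sigma
        (fun a' => X a a'))).card =
        ∑ a, ∑ a' ∈ (univ : Finset (Fin N)).erase a, xc (G a) (G a') ω := by
      rw [card_sigma]
      refine sum_congr rfl (fun a _ => ?_)
      rw [card_sigma]
      exact sum_congr rfl (fun a' _ => (hXc a a').symm)
    rw [← e]
    apply card_le_card_of_injOn
      (fun q => (⟨q.1.1, ⟨q.2.1, (q.1.2, q.2.2)⟩⟩ :
        Σ _ : Fin N, Σ _ : Fin N, Conf j t × Conf j t))
    · intro q hq
      obtain ⟨hq1, hq2, hq3⟩ := mem_filter.mp (mem_coe.mp hq)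
      have hv := mem_product.mp hq1
      apply mem_coe.mpr
      rw [mem_sigma]
      refine ⟨mem_univ _, ?_⟩
      rw [mem_sigma]
      refine ⟨mem_erase.mpr ⟨fun h => hq3 h.symm, mem_univ _⟩, ?_⟩
      exact mem_filter.mpr ⟨mem_univ _, (hVm _).mp hv.1, (hVm _).mp hv.2, hq2⟩
    · intro q hq q' hq' h
      simp only [Sigma.mk.injEq, heq_eq_eq, Prod.mk.injEq] at h
      obtain ⟨h1, h2, h3, h4⟩ := h
      exact Prod.ext (Prod.ext h1 h3) (Prod.ext h2 h4)
  have h6 : ∑ a, ((S a).card * (S a).card - (S a).card) + ∑ a, hc (G a) ω =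
      ∑ a, hc (G a) ω ^ 2 := by
    rw [← sum_add_distrib]
    refine sum_congr rfl (fun a _ => ?_)
    rw [hSc, pow_two]
    exact Nat.sub_add_cancel (Nat.le_mul_self _)
  omega

end Pool.Agent.H66.WSZ
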