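import Mathlib

namespace Pool.Agent.H66.WSZ

open Finset

/-- `e^x ≤ x + e^(x^2)`.
PROOF. If `|x| ≤ 1`: `e^x ≤ 1 + x + x^2` by `Real.abs_exp_sub_one_sub_id_le`, and
`e^(x^2) ≥ 1 + x^2` by `Real.add_one_le_exp`. If `x > 1`: `x ≤ x^2`, so `e^x ≤ e^(x^2)`. If
`x < -1`: `x + e^(x^2) ≥ x + 1 + x^2 ≥ 1 ≥ e^x`. -/
theorem exp_le_add (x : ℝ) : Real.exp x ≤ x + Real.exp (x ^ 2) := by
  have h2 := Real.add_one_le_exp (x ^ 2)
  rcases le_or_gt |x| 1 with h | h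
  · have h1 := Real.abs_exp_sub_one_sub_id_le h
    have h3 := (abs_le.mp h1).2
    linarith
  · rcases lt_abs.mp h with h | h
    · have h1 : Real.exp x ≤ Real.exp (x ^ 2) := Real.exp_le_exp.mpr (by nlinarith)
      linarith
    · have h1 : Real.exp x ≤ 1 := Real.exp_le_one_iff.mpr (by linarith)
      nlinarith

end Pool.Agent.H66.WSZ
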