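import Pool.Agent.H66.WSZ.Defs

namespace Pool.Agent.H66.WSZ

open Finset Classical

/-- PROOF. The set of all `c` with `Hits ω C c` is the product
`Fintype.piFinset (fun l => univ.filter (fun p => sm (ω l) p ∈ C))`; `Fintype.card_piFinset`. -/
theorem hc_eq {j t U : ℕ} (C : Finset ℕ) (ω : Inp j t U) : hc C ω = ∏ l, cnt C (ω l) := by
  unfold hc cnt
  have h : (univ : Finset (Conf j t)).filter (fun c => Hits ω C c) =
      Fintype.piFinset (fun l : Fin j =>
        (univ : Finset (Fin t × Fin t)).filter (fun p => sm (ω l) p ∈ C)) := by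
    ext c
    simp only [mem_filter, mem_univ, true_and, Fintype.mem_piFinset]
    rfl
  rw [h, Fintype.card_piFinset]

/-- PROOF. `hc_eq` and `∑ ω, ∏ l, f (ω l) = ∏ l, ∑ y, f y` (`Finset.prod_univ_sum` with
`Fintype.piFinset_univ`), `Finset.prod_const`, `Finset.card_univ`, `Fintype.card_fin`. -/
theorem sum_hc {j t U : ℕ} (C : Finset ℕ) :
    ∑ ω : Inp j t U, hc C ω = (∑ y : Fin t ⊕ Fin t → Fin U, cnt C y) ^ j := by
  have h := Finset.prod_univ_sum (fun _ : Fin j => (univ : Finset (Fin t ⊕ Fin t → Fin U)))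
    (fun (_ : Fin j) (y : Fin t ⊕ Fin t → Fin U) => cnt C y)
  rw [Fintype.piFinset_univ, Finset.prod_const, Finset.card_univ, Fintype.card_fin] at h
  rw [h]
  exact Finset.sum_congr rfl fun ω _ => hc_eq C ω

/-- PROOF. The same with `hc C ω ^ 2 = ∏ l, cnt C (ω l) ^ 2` (`Finset.prod_pow`). -/
theorem sum_hc_sq {j t U : ℕ} (C : Finset ℕ) :
    ∑ ω : Inp j t U, hc C ω ^ 2 = (∑ y : Fin t ⊕ Fin t → Fin U, cnt C y ^ 2) ^ j := by
  have h := Finset.prod_univ_sum (fun _ : Fin j => (univ : Finset (Fin t ⊕ Fin t → Fin U)))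
    (fun (_ : Fin j) (y : Fin t ⊕ Fin t → Fin U) => cnt C y ^ 2)
  rw [Fintype.piFinset_univ, Finset.prod_const, Finset.card_univ, Fintype.card_fin] at h
  rw [h]
  refine Finset.sum_congr rfl fun ω _ => ?_
  rw [hc_eq, Finset.prod_pow]

end Pool.Agent.H66.WSZ
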