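import Pool.Agent.H66.WSZ.Defs

namespace Pool.Agent.H66.WSZ

open Finset Classical

private theorem XcP_card {j t U : ℕ} (C C' : Finset ℕ) (ω : Inp j t U) (l₀ : Fin j) :
    ((univ : Finset (Conf j t × Conf j t)).filter
      (fun q => Hits ω C q.1 ∧ Hits ω C' q.2 ∧ ¬ Dj (q.1 l₀) (q.2 l₀))).card ≤
      ∏ l, (if l = l₀ then shr C C' (ω l) else cnt C (ω l) * cnt C' (ω l)) := by
  let S : Fin j → Finset ((Fin t × Fin t) × (Fin t × Fin t)) := fun l =>
    if l = l₀ then (univ : Finset ((Fin t × Fin t) × (Fin t × Fin t))).filter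
      (fun q => sm (ω l) q.1 ∈ C ∧ sm (ω l) q.2 ∈ C' ∧ ¬ Dj q.1 q.2)
    else ((univ : Finset (Fin t × Fin t)).filter (fun p => sm (ω l) p ∈ C)) ×ˢ
      ((univ : Finset (Fin t × Fin t)).filter (fun p => sm (ω l) p ∈ C'))
  have hS : ∀ l, (S l).card = if l = l₀ then shr C C' (ω l) else cnt C (ω l) * cnt C' (ω l) := by
    intro l
    simp only [S]
    by_cases h : l = l₀
    · rw [if_pos h, if_pos h]
      rfl
    · rw [if_neg h, if_neg h, Finset.card_product]
      rfl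
  have h1 : ∏ l, (if l = l₀ then shr C C' (ω l) else cnt C (ω l) * cnt C' (ω l)) =
      (Fintype.piFinset S).card := by
    rw [Fintype.card_piFinset]
    exact Finset.prod_congr rfl fun l _ => (hS l).symm
  rw [h1]
  refine Finset.card_le_card_of_injOn (fun q l => (q.1 l, q.2 l)) ?_ ?_
  · intro q hq
    rw [Finset.mem_coe, Finset.mem_filter] at hq
    obtain ⟨-, hq1, hq2, hq3⟩ := hq
    rw [Finset.mem_coe, Fintype.mem_piFinset]
    intro l
    simp only [S]
    by_cases h : l = l₀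
    · rw [if_pos h, Finset.mem_filter]
      refine ⟨Finset.mem_univ _, hq1 l, hq2 l, ?_⟩
      rw [h]
      exact hq3
    · rw [if_neg h, Finset.mem_product, Finset.mem_filter, Finset.mem_filter]
      exact ⟨⟨Finset.mem_univ _, hq1 l⟩, ⟨Finset.mem_univ _, hq2 l⟩⟩
  · rintro ⟨c, c'⟩ _ ⟨d, d'⟩ _ h
    have h2 : ∀ l, (c l, c' l) = (d l, d' l) := fun l => congrFun h l
    refine Prod.ext (funext fun l => ?_) (funext fun l => ?_)
    · exact congrArg Prod.fst (h2 l)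
    · exact congrArg Prod.snd (h2 l)

private theorem XcP_le {j t U : ℕ} (C C' : Finset ℕ) (ω : Inp j t U) :
    xc C C' ω ≤ ∑ l₀ : Fin j,
      ∏ l, (if l = l₀ then shr C C' (ω l) else cnt C (ω l) * cnt C' (ω l)) := by
  unfold xc
  refine le_trans ?_ (Finset.sum_le_sum fun l₀ _ => XcP_card C C' ω l₀)
  refine le_trans (Finset.card_le_card ?_) Finset.card_biUnion_le
  intro q hq
  rw [Finset.mem_filter] at hq
  obtain ⟨-, hq1, hq2, hq3⟩ := hq
  unfold Disj at hq3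
  rw [not_forall] at hq3
  obtain ⟨l₀, hl₀⟩ := hq3
  rw [Finset.mem_biUnion]
  refine ⟨l₀, Finset.mem_univ _, ?_⟩
  rw [Finset.mem_filter]
  exact ⟨Finset.mem_univ _, hq1, hq2, hl₀⟩

/-- PROOF. For fixed `ω` the set counted by `xc C C' ω` is contained in the union over `l₀ : Fin j`
of the sets of all `(c, c')` such that `sm (ω l₀) (c l₀) ∈ C`, `sm (ω l₀) (c' l₀) ∈ C'`,
`¬ Dj (c l₀) (c' l₀)`, and `sm (ω l) (c l) ∈ C`, `sm (ω l) (c' l) ∈ C'` for all `l ≠ l₀`. Via
`(c, c') ↦ (fun l => (c l, c' l))` this is a `Fintype.piFinset`, with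
`∏ l, φ l₀ l (ω l)` elements, where `φ l₀ l y` is `shr C C' y` for `l = l₀` and
`cnt C y * cnt C' y` for `l ≠ l₀`. So `xc C C' ω ≤ ∑ l₀, ∏ l, φ l₀ l (ω l)`, and summing over `ω`
(`Finset.prod_univ_sum`, `Fintype.piFinset_univ`) gives
`∑ l₀, ∏ l, ∑ y, φ l₀ l y = ∑ l₀, (∑ y, shr C C' y) * (∑ y, cnt C y * cnt C' y) ^ (j - 1)`
(`Finset.mul_prod_erase`, `Finset.prod_const`, `Finset.card_erase_of_mem`). -/
theorem sum_xc {j t U : ℕ} (C C' : Finset ℕ) :
    ∑ ω : Inp j t U, xc C C' ω ≤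
      j * ((∑ y : Fin t ⊕ Fin t → Fin U, shr C C' y) *
        (∑ y : Fin t ⊕ Fin t → Fin U, cnt C y * cnt C' y) ^ (j - 1)) := by
  have h1 : ∀ l₀ : Fin j, ∑ ω : Inp j t U,
      ∏ l, (if l = l₀ then shr C C' (ω l) else cnt C (ω l) * cnt C' (ω l)) =
      (∑ y : Fin t ⊕ Fin t → Fin U, shr C C' y) *
        (∑ y : Fin t ⊕ Fin t → Fin U, cnt C y * cnt C' y) ^ (j - 1) := by
    intro l₀
    have h2 := Finset.prod_univ_sum (fun _ : Fin j => (univ : Finset (Fin t ⊕ Fin t → Fin U)))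
      (fun l y => if l = l₀ then shr C C' y else cnt C y * cnt C' y)
    rw [Fintype.piFinset_univ] at h2
    have h3 : ∑ ω : Inp j t U,
        ∏ l, (if l = l₀ then shr C C' (ω l) else cnt C (ω l) * cnt C' (ω l)) =
        ∏ l : Fin j, ∑ y : Fin t ⊕ Fin t → Fin U,
          (if l = l₀ then shr C C' y else cnt C y * cnt C' y) := h2.symm
    rw [h3, ← Finset.mul_prod_erase univ _ (Finset.mem_univ l₀)]
    congr 1
    · refine Finset.sum_congr rfl fun y _ => ?_
      rw [if_pos rfl]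
    · rw [Finset.prod_congr rfl (g := fun _ => ∑ y : Fin t ⊕ Fin t → Fin U,
        cnt C y * cnt C' y) (fun l hl => Finset.sum_congr rfl fun y _ =>
          if_neg (Finset.ne_of_mem_erase hl)), Finset.prod_const,
        Finset.card_erase_of_mem (Finset.mem_univ _), Finset.card_univ, Fintype.card_fin]
  calc ∑ ω : Inp j t U, xc C C' ω
      ≤ ∑ ω : Inp j t U, ∑ l₀ : Fin j,
        ∏ l, (if l = l₀ then shr C C' (ω l) else cnt C (ω l) * cnt C' (ω l)) :=
        Finset.sum_le_sum fun ω _ => XcP_le C C' ω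
    _ = ∑ l₀ : Fin j, ((∑ y : Fin t ⊕ Fin t → Fin U, shr C C' y) *
        (∑ y : Fin t ⊕ Fin t → Fin U, cnt C y * cnt C' y) ^ (j - 1)) := by
        rw [Finset.sum_comm]
        exact Finset.sum_congr rfl fun l₀ _ => h1 l₀
    _ = _ := by
        rw [Finset.sum_const, Finset.card_univ, Fintype.card_fin, smul_eq_mul]

end Pool.Agent.H66.WSZ
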