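import Pool.Agent.H66.WSZ.Cnt1
import Pool.Agent.H66.WSZ.Cnt2
import Pool.Agent.H66.WSZ.Cnt3
import Pool.Agent.H66.WSZ.HcP
import Pool.Agent.H66.WSZ.XcP
import Pool.Agent.H66.WSZ.Del
import Pool.Agent.H66.WSZ.AlgJ

namespace Pool.Agent.H66.WSZ

open Finset Classical

variable {j t U N m : ℕ}

theorem card_inp : Fintype.card (Inp j t U) = (U ^ (2 * t)) ^ j := by
  rw [Fintype.card_fun, Fintype.card_fun, Fintype.card_sum, Fintype.card_fin, Fintype.card_fin,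
    Fintype.card_fin]
  congr 2
  ring

theorem card_inp_real : (Fintype.card (Inp j t U) : ℝ) = ((U : ℝ) ^ (2 * t)) ^ j := by
  rw [card_inp]
  push_cast
  rfl

/-- Lower bound for the number of configurations in one group.
PROOF. `sum_hc` and `sum_cnt_ge` (divide by `2 * U`), `Fintype.card (Inp j t U) = (U ^ (2 * t)) ^ j`. -/
theorem exp_hc_ge (hU : 0 < U) (C : Finset ℕ) (hC : C ⊆ Ico (U / 2) U) (hm : C.card = m) :
    ((m : ℝ) * t ^ 2 / U / 2) ^ j * (Fintype.card (Inp j t U) : ℝ) ≤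
      ∑ ω : Inp j t U, (hc C ω : ℝ) := by
  have hU' : (0 : ℝ) < U := by exact_mod_cast hU
  have h1 : ∑ ω : Inp j t U, (hc C ω : ℝ) =
      (((∑ y : Fin t ⊕ Fin t → Fin U, cnt C y : ℕ)) : ℝ) ^ j := by
    have := sum_hc (j := j) (t := t) (U := U) C
    have h2 : (((∑ ω : Inp j t U, hc C ω : ℕ)) : ℝ) =
      ((((∑ y : Fin t ⊕ Fin t → Fin U, cnt C y) ^ j : ℕ)) : ℝ) := by rw [this]
    push_cast at h2 ⊢
    exact h2
  have h3 : ((C.card * t ^ 2 * U ^ (2 * t) : ℕ) : ℝ) ≤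
      ((2 * U * ∑ y : Fin t ⊕ Fin t → Fin U, cnt C y : ℕ) : ℝ) := by
    exact_mod_cast sum_cnt_ge (t := t) C hC
  rw [hm] at h3
  rw [h1, card_inp_real, ← mul_pow]
  refine pow_le_pow_left₀ (by positivity) ?_ j
  rw [Nat.cast_mul, Nat.cast_mul] at h3
  have h4 : (m : ℝ) * t ^ 2 / U / 2 * (U : ℝ) ^ (2 * t) =
      (m * t ^ 2 * (U : ℝ) ^ (2 * t)) / (2 * U) := by
    field_simp
  rw [h4, div_le_iff₀ (by positivity)]
  push_cast at h3 ⊢
  linarith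

/-- Upper bound for the conflicts in one group. -/
theorem exp_hc_sq (hj : 0 < j) (hU : 0 < U) (C : Finset ℕ) (hm : C.card = m)
    (hl : (m : ℝ) * t ^ 2 / U ≤ 1) :
    ∑ ω : Inp j t U, (hc C ω : ℝ) ^ 2 - ∑ ω : Inp j t U, (hc C ω : ℝ) ≤
      j * 2 ^ (j - 1) * ((m : ℝ) * t ^ 2 / U) ^ (j + 1) * (Fintype.card (Inp j t U) : ℝ) := by
  have hU' : (0 : ℝ) < U := by exact_mod_cast hU
  set Y : ℝ := (U : ℝ) ^ (2 * t) with hY
  have hYpos : 0 < Y := by positivity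
  set lam : ℝ := (m : ℝ) * t ^ 2 / U with hlam
  have hlam0 : 0 ≤ lam := by positivity
  set s1 : ℝ := ∑ y : Fin t ⊕ Fin t → Fin U, (cnt C y : ℝ) with hs1
  set s2 : ℝ := ∑ y : Fin t ⊕ Fin t → Fin U, (cnt C y : ℝ) ^ 2 with hs2
  have h1 : ∑ ω : Inp j t U, (hc C ω : ℝ) = s1 ^ j := by
    have := sum_hc (j := j) (t := t) (U := U) C
    have h2 : (((∑ ω : Inp j t U, hc C ω : ℕ)) : ℝ) =
      ((((∑ y : Fin t ⊕ Fin t → Fin U, cnt C y) ^ j : ℕ)) : ℝ) := by rw [this]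
    push_cast at h2
    exact h2
  have h2 : ∑ ω : Inp j t U, (hc C ω : ℝ) ^ 2 = s2 ^ j := by
    have := sum_hc_sq (j := j) (t := t) (U := U) C
    have h2 : (((∑ ω : Inp j t U, hc C ω ^ 2 : ℕ)) : ℝ) =
      ((((∑ y : Fin t ⊕ Fin t → Fin U, cnt C y ^ 2) ^ j : ℕ)) : ℝ) := by rw [this]
    push_cast at h2
    exact h2
  have h3 : (U : ℝ) * s1 ≤ m * t ^ 2 * Y := by
    have h := sum_cnt_le (t := t) (U := U) C
    rw [hm] at h
    have h' : ((U * ∑ y : Fin t ⊕ Fin t → Fin U, cnt C y : ℕ) : ℝ) ≤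
      ((m * t ^ 2 * U ^ (2 * t) : ℕ) : ℝ) := by exact_mod_cast h
    push_cast at h'
    exact h'
  have h4 : (U : ℝ) ^ 2 * s2 ≤ (U : ℝ) ^ 2 * s1 + (m * t ^ 2) ^ 2 * Y := by
    have h := sum_cnt_sq (t := t) (U := U) C
    rw [hm] at h
    have h' : ((U ^ 2 * ∑ y : Fin t ⊕ Fin t → Fin U, cnt C y ^ 2 : ℕ) : ℝ) ≤
      ((U ^ 2 * ∑ y : Fin t ⊕ Fin t → Fin U, cnt C y + (m * t ^ 2) ^ 2 * U ^ (2 * t) : ℕ) : ℝ) := by
      exact_mod_cast h
    push_cast at h'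
    exact h'
  have h5 : s1 ≤ s2 := by
    refine Finset.sum_le_sum (fun y _ => ?_)
    have : cnt C y ≤ cnt C y ^ 2 := Nat.le_self_pow (by norm_num) _
    exact_mod_cast this
  have h6 : 0 ≤ s1 := Finset.sum_nonneg (fun y _ => Nat.cast_nonneg _)
  have hB : s1 / Y ≤ lam := by
    rw [div_le_iff₀ hYpos, hlam, div_mul_eq_mul_div, le_div_iff₀ hU']
    linarith
  have hA : s2 / Y ≤ s1 / Y + lam ^ 2 := by
    rw [div_le_iff₀ hYpos, add_mul, div_mul_cancel₀ _ hYpos.ne', hlam, div_pow,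
      div_mul_eq_mul_div, ← sub_le_iff_le_add', le_div_iff₀ (by positivity)]
    linarith
  have key := algJ j hj (s2 / Y) (s1 / Y) lam (by positivity)
    (by exact div_le_div_of_nonneg_right h5 hYpos.le) hA hB hl
  rw [h1, h2, card_inp_real]
  have e1 : s2 ^ j = (s2 / Y) ^ j * Y ^ j := by
    rw [← mul_pow, div_mul_cancel₀ _ hYpos.ne']
  have e2 : s1 ^ j = (s1 / Y) ^ j * Y ^ j := by
    rw [← mul_pow, div_mul_cancel₀ _ hYpos.ne']
  rw [e1, e2, ← sub_mul]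
  refine mul_le_mul_of_nonneg_right ?_ (by positivity)
  linarith

/-- Upper bound for the conflicts between two groups. -/
theorem exp_xc (hj : 0 < j) (ht : 0 < t) (hU : 0 < U) (C C' : Finset ℕ) (hm : C.card = m)
    (hm' : C'.card = m) (hC : Disjoint C C') :
    ∑ ω : Inp j t U, (xc C C' ω : ℝ) ≤
      2 * j / t * ((m : ℝ) * t ^ 2 / U) ^ (2 * j) * (Fintype.card (Inp j t U) : ℝ) := by
  have hU' : (0 : ℝ) < U := by exact_mod_cast hU
  have ht' : (0 : ℝ) < t := by exact_mod_cast ht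
  set Y : ℝ := (U : ℝ) ^ (2 * t) with hY
  have hYpos : 0 < Y := by positivity
  set lam : ℝ := (m : ℝ) * t ^ 2 / U with hlam
  have hlam0 : 0 ≤ lam := by positivity
  set s1 : ℝ := ∑ y : Fin t ⊕ Fin t → Fin U, (shr C C' y : ℝ) with hs1
  set s2 : ℝ := ∑ y : Fin t ⊕ Fin t → Fin U, (cnt C y : ℝ) * cnt C' y with hs2
  have h1 : ∑ ω : Inp j t U, (xc C C' ω : ℝ) ≤ j * (s1 * s2 ^ (j - 1)) := by
    have := sum_xc (j := j) (t := t) (U := U) C C'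
    have h2 : (((∑ ω : Inp j t U, xc C C' ω : ℕ)) : ℝ) ≤
      (((j * ((∑ y : Fin t ⊕ Fin t → Fin U, shr C C' y) *
        (∑ y : Fin t ⊕ Fin t → Fin U, cnt C y * cnt C' y) ^ (j - 1)) : ℕ)) : ℝ) := by
      exact_mod_cast this
    push_cast at h2
    exact h2
  have h3 : s1 ≤ 2 / t * lam ^ 2 * Y := by
    have h := sum_shr (t := t) (U := U) C C' hC
    rw [hm, hm'] at h
    have h' : ((U ^ 2 * ∑ y : Fin t ⊕ Fin t → Fin U, shr C C' y : ℕ) : ℝ) ≤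
      ((2 * t ^ 3 * (m * m) * U ^ (2 * t) : ℕ) : ℝ) := by exact_mod_cast h
    push_cast at h'
    have e : 2 / (t : ℝ) * lam ^ 2 * Y = (2 * t ^ 3 * (m * m) * Y) / U ^ 2 := by
      rw [hlam]
      field_simp
    rw [e, le_div_iff₀ (by positivity)]
    linarith
  have h4 : s2 ≤ lam ^ 2 * Y := by
    have h := sum_cnt_mul (t := t) (U := U) C C' hC
    rw [hm, hm'] at h
    have h' : ((U ^ 2 * ∑ y : Fin t ⊕ Fin t → Fin U, cnt C y * cnt C' y : ℕ) : ℝ) ≤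
      (((m * t ^ 2) * (m * t ^ 2) * U ^ (2 * t) : ℕ) : ℝ) := by exact_mod_cast h
    push_cast at h'
    have e : lam ^ 2 * Y = ((m * t ^ 2) * (m * t ^ 2) * Y) / U ^ 2 := by
      rw [hlam]
      field_simp
    rw [e, le_div_iff₀ (by positivity)]
    linarith
  have h5 : 0 ≤ s2 := Finset.sum_nonneg (fun y _ => by positivity)
  have h6 : 0 ≤ s1 := Finset.sum_nonneg (fun y _ => Nat.cast_nonneg _)
  have h7 : s1 * s2 ^ (j - 1) ≤ (2 / t * lam ^ 2 * Y) * (lam ^ 2 * Y) ^ (j - 1) := by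
    gcongr
  refine h1.trans ?_
  rw [card_inp_real]
  have e3 : (lam ^ 2 * Y) ^ j = (lam ^ 2 * Y) * (lam ^ 2 * Y) ^ (j - 1) := by
    rw [← pow_succ', Nat.sub_add_cancel hj]
  have e4 : 2 * (j : ℝ) / t * lam ^ (2 * j) * Y ^ j = j * (2 / t * (lam ^ 2 * Y) ^ j) := by
    rw [mul_pow, pow_mul]
    ring
  rw [e4, e3]
  have : (j : ℝ) * (2 / t * (lam ^ 2 * Y * (lam ^ 2 * Y) ^ (j - 1))) =
      j * ((2 / t * lam ^ 2 * Y) * (lam ^ 2 * Y) ^ (j - 1)) := by ring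
  rw [this]
  exact mul_le_mul_of_nonneg_left h7 (Nat.cast_nonneg _)

/-- Lower bound for the expected size of a packing. -/
theorem exp_kmax (hj : 0 < j) (ht : 0 < t) (hU : 0 < U) (G : Fin N → Finset ℕ)
    (hG1 : ∀ a, G a ⊆ Ico (U / 2) U) (hG2 : ∀ a, (G a).card = m)
    (hG3 : ∀ a a', a ≠ a' → Disjoint (G a) (G a')) (hl : (m : ℝ) * t ^ 2 / U ≤ 1) :
    N * ((m : ℝ) * t ^ 2 / U) ^ j / 2 ^ j -
      N * ((m : ℝ) * t ^ 2 / U) ^ j * (j * 2 ^ (j - 1) * ((m : ℝ) * t ^ 2 / U)) -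
      2 * j / t * (N * ((m : ℝ) * t ^ 2 / U) ^ j) ^ 2 ≤
      (∑ ω : Inp j t U, (kmax G ω : ℝ)) / (Fintype.card (Inp j t U) : ℝ) := by
  have hU' : (0 : ℝ) < U := by exact_mod_cast hU
  have ht' : (0 : ℝ) < t := by exact_mod_cast ht
  set lam : ℝ := (m : ℝ) * t ^ 2 / U with hlam
  have hlam0 : 0 ≤ lam := by positivity
  set Z : ℝ := (Fintype.card (Inp j t U) : ℝ) with hZ
  have hZpos : 0 < Z := by rw [hZ, card_inp_real]; positivity
  rw [le_div_iff₀ hZpos]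
  -- sum of `del`
  have h0 : ∀ ω : Inp j t U, 2 * ∑ a, (hc (G a) ω : ℝ) ≤ (kmax G ω : ℝ) +
      ∑ a, (hc (G a) ω : ℝ) ^ 2 +
      ∑ a, ∑ a' ∈ (univ : Finset (Fin N)).erase a, (xc (G a) (G a') ω : ℝ) := by
    intro ω
    have := del hj G ω
    have h' : ((2 * ∑ a, hc (G a) ω : ℕ) : ℝ) ≤ ((kmax G ω + ∑ a, hc (G a) ω ^ 2 +
      ∑ a, ∑ a' ∈ (univ : Finset (Fin N)).erase a, xc (G a) (G a') ω : ℕ) : ℝ) := by
      exact_mod_cast this
    push_cast at h'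
    exact h'
  have h1 := Finset.sum_le_sum (fun (ω : Inp j t U) (_ : ω ∈ univ) => h0 ω)
  rw [Finset.sum_add_distrib, Finset.sum_add_distrib, ← Finset.mul_sum, Finset.sum_comm,
    Finset.sum_comm (f := fun (ω : Inp j t U) (a : Fin N) => (hc (G a) ω : ℝ) ^ 2)] at h1
  have h2 : ∑ ω : Inp j t U, ∑ a, ∑ a' ∈ (univ : Finset (Fin N)).erase a,
      (xc (G a) (G a') ω : ℝ) =
      ∑ a, ∑ a' ∈ (univ : Finset (Fin N)).erase a, ∑ ω : Inp j t U, (xc (G a) (G a') ω : ℝ) := by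
    rw [Finset.sum_comm]
    refine Finset.sum_congr rfl (fun a _ => ?_)
    rw [Finset.sum_comm]
  rw [h2] at h1
  -- bounds
  have b1 : ∀ a, (lam / 2) ^ j * Z ≤ ∑ ω : Inp j t U, (hc (G a) ω : ℝ) := fun a =>
    exp_hc_ge hU (G a) (hG1 a) (hG2 a)
  have b2 : ∀ a, ∑ ω : Inp j t U, (hc (G a) ω : ℝ) ^ 2 ≤ ∑ ω : Inp j t U, (hc (G a) ω : ℝ) +
      j * 2 ^ (j - 1) * lam ^ (j + 1) * Z := fun a => by
    have := exp_hc_sq hj hU (G a) (hG2 a) hl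
    linarith
  have b3 : ∀ a, ∀ a' ∈ (univ : Finset (Fin N)).erase a,
      ∑ ω : Inp j t U, (xc (G a) (G a') ω : ℝ) ≤ 2 * j / t * lam ^ (2 * j) * Z := fun a a' ha' =>
    exp_xc hj ht hU (G a) (G a') (hG2 a) (hG2 a') (hG3 a a' (Finset.ne_of_mem_erase ha').symm)
  have c2 : ∑ a, ∑ ω : Inp j t U, (hc (G a) ω : ℝ) ^ 2 ≤
      ∑ a, ∑ ω : Inp j t U, (hc (G a) ω : ℝ) + N * (j * 2 ^ (j - 1) * lam ^ (j + 1) * Z) := by
    refine (Finset.sum_le_sum (fun a _ => b2 a)).trans ?_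
    rw [Finset.sum_add_distrib, Finset.sum_const, Finset.card_univ, Fintype.card_fin,
      nsmul_eq_mul]
  have c1 : N * ((lam / 2) ^ j * Z) ≤ ∑ a, ∑ ω : Inp j t U, (hc (G a) ω : ℝ) := by
    have := Finset.card_nsmul_le_sum (univ : Finset (Fin N))
      (fun a => ∑ ω : Inp j t U, (hc (G a) ω : ℝ)) ((lam / 2) ^ j * Z) (fun a _ => b1 a)
    rwa [Finset.card_univ, Fintype.card_fin, nsmul_eq_mul] at this
  have c3 : ∑ a, ∑ a' ∈ (univ : Finset (Fin N)).erase a,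
      ∑ ω : Inp j t U, (xc (G a) (G a') ω : ℝ) ≤ N * (N * (2 * j / t * lam ^ (2 * j) * Z)) := by
    have hpos : 0 ≤ 2 * j / t * lam ^ (2 * j) * Z := by positivity
    have h : ∀ a ∈ (univ : Finset (Fin N)), ∑ a' ∈ (univ : Finset (Fin N)).erase a,
      ∑ ω : Inp j t U, (xc (G a) (G a') ω : ℝ) ≤ N * (2 * j / t * lam ^ (2 * j) * Z) := by
      intro a _
      refine (Finset.sum_le_card_nsmul _ _ _ (b3 a)).trans ?_
      rw [nsmul_eq_mul]
      refine mul_le_mul_of_nonneg_right ?_ hpos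
      have : ((univ : Finset (Fin N)).erase a).card ≤ N := by
        refine (Finset.card_le_univ _).trans ?_
        rw [Fintype.card_fin]
      exact_mod_cast this
    have := Finset.sum_le_card_nsmul _ _ _ h
    rwa [Finset.card_univ, Fintype.card_fin, nsmul_eq_mul] at this
  have e1 : (lam / 2) ^ j = lam ^ j / 2 ^ j := div_pow _ _ _
  have e2 : (N * lam ^ j / 2 ^ j - N * lam ^ j * (j * 2 ^ (j - 1) * lam) -
      2 * j / t * (N * lam ^ j) ^ 2) * Z = N * ((lam / 2) ^ j * Z) -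
      N * (j * 2 ^ (j - 1) * lam ^ (j + 1) * Z) - N * (N * (2 * j / t * lam ^ (2 * j) * Z)) := by
    rw [e1, pow_succ, mul_comm 2 j, pow_mul]
    ring
  rw [e2]
  linarith

end Pool.Agent.H66.WSZ
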