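import Pool.Agent.H66.WSZ.Defs

/-!
Headers: small sets of cells with known contents. The proofs are those of
`Pool.Agent.H54.TSG.Hub`, for schemes with an index.
-/

namespace Pool.Agent.H66.WSZ

open Finset Pool.Agent.H55.FreeIdx

variable {H S W h : ℕ}

theorem reads_eq (P : Scheme H S W) (g : Fin H) (M N : Fin S → Fin W) (Q : Finset (Fin S))
    (hMN : ∀ c ∈ Q, N c = M c) (t z : ℕ) (hr : Res P g M Q t z) :
    ∀ i ≤ t, P.reads g N z i = P.reads g M z i := by
  intro i
  induction i with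
  | zero => intro _; rfl
  | succ i ih =>
    intro hi
    have ih' := ih (by omega)
    have h1 : cl P g M i z ∈ Q := hr i (by omega)
    show N (P.addr g z (P.reads g N z i)) :: P.reads g N z i =
      M (P.addr g z (P.reads g M z i)) :: P.reads g M z i
    rw [ih']
    have h2 : N (P.addr g z (P.reads g M z i)) = M (P.addr g z (P.reads g M z i)) := hMN _ h1
    rw [h2]

theorem cl_eq (P : Scheme H S W) (g : Fin H) (M N : Fin S → Fin W) (Q : Finset (Fin S))
    (hMN : ∀ c ∈ Q, N c = M c) (t z : ℕ) (hr : Res P g M Q t z) (i : ℕ) (hi : i ≤ t) :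
    cl P g N i z = cl P g M i z := by
  unfold cl
  rw [reads_eq P g M N Q hMN t z hr i hi]

theorem res_iff (P : Scheme H S W) (g : Fin H) (M N : Fin S → Fin W) (Q : Finset (Fin S))
    (hMN : ∀ c ∈ Q, N c = M c) (t z : ℕ) : Res P g N Q t z ↔ Res P g M Q t z := by
  constructor
  · intro hr i hi
    have h1 := cl_eq P g N M Q (fun c hc => (hMN c hc).symm) t z hr i (by omega)
    rw [h1]
    exact hr i hi
  · intro hr i hi
    rw [cl_eq P g M N Q hMN t z hr i (by omega)]
    exact hr i hi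

theorem res_mono (P : Scheme H S W) (g : Fin H) (N : Fin S → Fin W) (Q Q' : Finset (Fin S))
    (hQ : Q ⊆ Q') (t z : ℕ) (hr : Res P g N Q t z) : Res P g N Q' t z := fun i hi => hQ (hr i hi)

theorem res_succ (P : Scheme H S W) (g : Fin H) (N : Fin S → Fin W) (Q : Finset (Fin S))
    (t z : ℕ) (hr : Res P g N Q t z) (h' : cl P g N t z ∈ Q) : Res P g N Q (t + 1) z := by
  intro i hi
  rcases Nat.lt_succ_iff_lt_or_eq.1 hi with h1 | h1
  · exact hr i h1
  · rw [h1]; exact h'

theorem hmem_eq (θ : Fin h → Fin S × Fin W) (w₀ : Fin W) (M : Fin S → Fin W)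
    (hθ : ∀ i, (θ i).2 = M (θ i).1) (c : Fin S) (hc : c ∈ hset θ) : hmem θ w₀ c = M c := by
  have hex : ∃ i, (θ i).1 = c := by
    obtain ⟨i, _, hi⟩ := mem_image.1 hc
    exact ⟨i, hi⟩
  unfold hmem
  rw [dif_pos hex, hθ, hex.choose_spec]

theorem exists_header (Q : Finset (Fin S)) (hQ : Q.card ≤ h) (hS : 0 < S) (M : Fin S → Fin W) :
    ∃ θ : Fin h → Fin S × Fin W, (∀ i, (θ i).2 = M (θ i).1) ∧ Q ⊆ hset θ := by
  classical
  obtain ⟨f, hf⟩ : ∃ f : Fin h → Fin S, ∀ c ∈ Q, ∃ i, f i = c := by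
    refine ⟨fun i => if hi : i.val < Q.toList.length then Q.toList.get ⟨i.val, hi⟩ else ⟨0, hS⟩,
      fun c hc => ?_⟩
    have h1 : c ∈ Q.toList := mem_toList.2 hc
    obtain ⟨j, hj⟩ := List.get_of_mem h1
    have hlen : Q.toList.length = Q.card := length_toList Q
    refine ⟨⟨j.val, by have := j.isLt; omega⟩, ?_⟩
    have h2 : j.val < Q.toList.length := j.isLt
    show (if hi : j.val < Q.toList.length then Q.toList.get ⟨j.val, hi⟩ else ⟨0, hS⟩) = c
    rw [dif_pos h2]
    exact hj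
  refine ⟨fun i => (f i, M (f i)), fun i => rfl, fun c hc => ?_⟩
  obtain ⟨i, hi⟩ := hf c hc
  exact mem_image.2 ⟨i, mem_univ _, hi⟩

end Pool.Agent.H66.WSZ
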