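import Pool.Agent.H66.WSZ.Defs

namespace Pool.Agent.H66.WSZ

open Finset Classical

variable {j t U N : ℕ}

/-- PROOF. Restrict the two functions along `Fin.castLE`. -/
theorem pack_mono {ω : Inp j t U} {G : Fin N → Finset ℕ} {K K' : ℕ} (h : K' ≤ K)
    (hp : Pack ω G K) : Pack ω G K' := by
  obtain ⟨c, a, h1, h2⟩ := hp
  exact ⟨fun r => c (Fin.castLE h r), fun r => a (Fin.castLE h r),
    fun r r' hr => h1 _ _ fun e => hr (Fin.castLE_injective h e), fun r => h2 _⟩

/-- PROOF. With `l₀ = ⟨0, hj⟩` the map `r ↦ (c r l₀).1` from `Fin K` to `Fin t` is injective. -/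
theorem pack_le (hj : 0 < j) {ω : Inp j t U} {G : Fin N → Finset ℕ} {K : ℕ}
    (hp : Pack ω G K) : K ≤ t := by
  obtain ⟨c, a, h1, h2⟩ := hp
  have hinj : Function.Injective fun r : Fin K => (c r ⟨0, hj⟩).1 := by
    intro r r' e
    by_contra hne
    exact (h1 r r' hne ⟨0, hj⟩).1 e
  simpa using Fintype.card_le_of_injective _ hinj

/-- PROOF. `Nat.findGreatest_spec` with the value `0`, for which `Pack` is trivial
(`Fin 0` is empty). -/
theorem pack_kmax (G : Fin N → Finset ℕ) (ω : Inp j t U) : Pack ω G (kmax G ω) := by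
  refine Nat.findGreatest_spec (P := fun K => Pack ω G K) (Nat.zero_le t) ?_
  exact ⟨fun r => r.elim0, fun r => r.elim0, fun r => r.elim0, fun r => r.elim0⟩

/-- PROOF. `Nat.le_findGreatest` and `pack_le`. -/
theorem le_kmax (hj : 0 < j) {ω : Inp j t U} {G : Fin N → Finset ℕ} {K : ℕ}
    (hp : Pack ω G K) : K ≤ kmax G ω :=
  Nat.le_findGreatest (pack_le hj hp) hp

end Pool.Agent.H66.WSZ
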