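import Pool.Agent.H66.WSZ.Hub
import Pool.Agent.H66.WSZ.Cho

namespace Pool.Agent.H66.WSZ

open Finset Classical Pool.Agent.H55.FreeIdx

variable {H S W : ℕ}

/-- PROOF. Induction on `τ`. For `τ = 0` take `Q = ∅`; `Res` is trivially true. Step: let `Q` be
given for `τ` and `Z' = Z.filter (Res P g M Q τ)`; `cho` with `f z = cl P g M τ z` and `Z'` gives
`Q'` with at most `h` elements and `h * |Z'| ≤ S * |{z ∈ Z' | cl P g M τ z ∈ Q'}|`. Take `Q ∪ Q'`;
`res_mono` and `res_succ` show `Res P g M (Q ∪ Q') (τ + 1) z` for all `z` of the last set, so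
`h ^ (τ + 1) * |Z| = h * (h ^ τ * |Z|) ≤ h * S ^ τ * |Z'| ≤ S ^ (τ + 1) * |...|`. -/
theorem lev (P : Scheme H S W) (g : Fin H) (M : Fin S → Fin W) (Z : Finset ℕ) (h : ℕ)
    (hh : h ≤ S) (τ : ℕ) :
    ∃ Q : Finset (Fin S), Q.card ≤ τ * h ∧
      h ^ τ * Z.card ≤ S ^ τ * (Z.filter (fun z => Res P g M Q τ z)).card := by
  induction τ with
  | zero =>
    refine ⟨∅, by simp, ?_⟩
    have h1 : Z.filter (fun z => Res P g M ∅ 0 z) = Z := by
      refine Finset.filter_true_of_mem fun z _ => ?_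
      intro i hi
      exact absurd hi (Nat.not_lt_zero i)
    rw [h1, pow_zero, pow_zero]
  | succ τ ih =>
    obtain ⟨Q, hQ, hZ⟩ := ih
    obtain ⟨Q', hQ', hc⟩ := cho h hh (fun z => cl P g M τ z) (Z.filter (fun z => Res P g M Q τ z))
    refine ⟨Q ∪ Q', ?_, ?_⟩
    · calc (Q ∪ Q').card ≤ Q.card + Q'.card := Finset.card_union_le _ _
        _ ≤ τ * h + h := Nat.add_le_add hQ hQ'
        _ = (τ + 1) * h := by ring
    · have hsub : (Z.filter (fun z => Res P g M Q τ z)).filter (fun z => cl P g M τ z ∈ Q') ⊆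
          Z.filter (fun z => Res P g M (Q ∪ Q') (τ + 1) z) := by
        intro z hz
        rw [Finset.mem_filter, Finset.mem_filter] at hz
        rw [Finset.mem_filter]
        refine ⟨hz.1.1, ?_⟩
        exact res_succ P g M _ τ z (res_mono P g M Q _ Finset.subset_union_left τ z hz.1.2)
          (Finset.mem_union_right _ hz.2)
      calc h ^ (τ + 1) * Z.card = h * (h ^ τ * Z.card) := by ring
        _ ≤ h * (S ^ τ * (Z.filter (fun z => Res P g M Q τ z)).card) := Nat.mul_le_mul_left h hZ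
        _ = S ^ τ * (h * (Z.filter (fun z => Res P g M Q τ z)).card) := by ring
        _ ≤ S ^ τ * (S * ((Z.filter (fun z => Res P g M Q τ z)).filter
            (fun z => cl P g M τ z ∈ Q')).card) := Nat.mul_le_mul_left _ hc
        _ = S ^ (τ + 1) * ((Z.filter (fun z => Res P g M Q τ z)).filter
            (fun z => cl P g M τ z ∈ Q')).card := by ring
        _ ≤ S ^ (τ + 1) * (Z.filter (fun z => Res P g M (Q ∪ Q') (τ + 1) z)).card :=
            Nat.mul_le_mul_left _ (Finset.card_le_card hsub)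

end Pool.Agent.H66.WSZ
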