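import Pool.Agent.H66.WSZ.KmB

namespace Pool.Agent.H66.WSZ

open Finset Classical

variable {j t U N : ℕ}

/-- Changing one entry destroys at most one configuration of a packing.
PROOF. Let `c`, `a` be a packing of size `K + 1`. For `v = inl i` call `r` bad if `(c r l).1 = i`,
for `v = inr k` call it bad if `(c r l).2 = k`. Two different `r` cannot both be bad because the
configurations are disjoint. Let `r₀` be the bad one, or `r₀ = 0` (in `Fin (K + 1)`) if there is
none. The packing `r ↦ c (r₀.succAbove r)`, `r ↦ a (r₀.succAbove r)` of size `K` works for the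
changed input: if `r ≠ r₀` then `sm` of the changed input and of `ω` agree at `(l', c r l')` for
all `l'` (for `l' ≠ l` by `Function.update_of_ne`, for `l' = l` because the entry `v` is not
one of the two entries in the sum). -/
theorem pack_update {ω : Inp j t U} {G : Fin N → Finset ℕ} {K : ℕ} (hp : Pack ω G (K + 1))
    (l : Fin j) (v : Fin t ⊕ Fin t) (x : Fin U) :
    Pack (Function.update ω l (Function.update (ω l) v x)) G K := by
  obtain ⟨c, a, hd, hh⟩ := hp
  have key : ∃ r₀ : Fin (K + 1), ∀ r, r ≠ r₀ → Sum.inl (c r l).1 ≠ v ∧ Sum.inr (c r l).2 ≠ v := by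
    by_cases h : ∃ r, Sum.inl (c r l).1 = v ∨ Sum.inr (c r l).2 = v
    · obtain ⟨r₀, h₀⟩ := h
      refine ⟨r₀, fun r hr => ?_⟩
      obtain ⟨d1, d2⟩ := hd r r₀ hr l
      refine ⟨fun e => ?_, fun e => ?_⟩
      · rcases h₀ with h₀ | h₀
        · exact d1 (Sum.inl_injective (e.trans h₀.symm))
        · exact Sum.inl_ne_inr (e.trans h₀.symm)
      · rcases h₀ with h₀ | h₀
        · exact Sum.inr_ne_inl (e.trans h₀.symm)
        · exact d2 (Sum.inr_injective (e.trans h₀.symm))
    · refine ⟨0, fun r _ => ⟨fun e => h ⟨r, Or.inl e⟩, fun e => h ⟨r, Or.inr e⟩⟩⟩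
  obtain ⟨r₀, hr₀⟩ := key
  refine ⟨fun r => c (r₀.succAbove r), fun r => a (r₀.succAbove r), ?_, ?_⟩
  · intro r r' hr
    exact hd _ _ fun e => hr (Fin.succAbove_right_injective e)
  · intro r l'
    have h1 := hh (r₀.succAbove r) l'
    obtain ⟨n1, n2⟩ := hr₀ (r₀.succAbove r) (Fin.succAbove_ne r₀ r)
    by_cases hl : l' = l
    · subst hl
      rw [Function.update_self]
      have e : sm (Function.update (ω l') v x) (c (r₀.succAbove r) l') =
          sm (ω l') (c (r₀.succAbove r) l') := by
        unfold sm
        rw [Function.update_of_ne n1, Function.update_of_ne n2]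
      rw [e]
      exact h1
    · rw [Function.update_of_ne hl]
      exact h1

/-- PROOF. Let `ω' = update ω l (update (ω l) v x)`; then `ω` is obtained from `ω'` in the same way
with the value `ω l v`. By `pack_kmax`, `pack_update`, `le_kmax` we have `kmax G ω - 1 ≤ kmax G ω'`
and `kmax G ω' - 1 ≤ kmax G ω`. -/
theorem kmax_lip (hj : 0 < j) (G : Fin N → Finset ℕ) (ω : Inp j t U) (l : Fin j)
    (v : Fin t ⊕ Fin t) (x : Fin U) :
    |(kmax G ω : ℝ) - (kmax G (Function.update ω l (Function.update (ω l) v x)) : ℝ)| ≤ 1 := by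
  have main : ∀ (ω : Inp j t U) (l : Fin j) (v : Fin t ⊕ Fin t) (x : Fin U),
      kmax G ω ≤ kmax G (Function.update ω l (Function.update (ω l) v x)) + 1 := by
    intro ω l v x
    have hp := pack_kmax G ω
    rcases Nat.eq_zero_or_pos (kmax G ω) with h0 | h0
    · omega
    · obtain ⟨K, hK⟩ : ∃ K, kmax G ω = K + 1 := ⟨kmax G ω - 1, by omega⟩
      rw [hK] at hp
      have h1 := le_kmax hj (pack_update hp l v x)
      omega
  set ω' := Function.update ω l (Function.update (ω l) v x) with hω'
  have h1 : kmax G ω ≤ kmax G ω' + 1 := main ω l v x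
  have h2 : kmax G ω' ≤ kmax G ω + 1 := by
    have h3 := main ω' l v (ω l v)
    have e : Function.update ω' l (Function.update (ω' l) v (ω l v)) = ω := by
      rw [hω', Function.update_self, Function.update_idem, Function.update_idem,
        Function.update_eq_self, Function.update_eq_self]
    rwa [e] at h3
  have h1' : (kmax G ω : ℝ) ≤ kmax G ω' + 1 := by exact_mod_cast h1
  have h2' : (kmax G ω' : ℝ) ≤ kmax G ω + 1 := by exact_mod_cast h2
  rw [abs_le]
  constructor <;> linarith

end Pool.Agent.H66.WSZ
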