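import Mathlib
import Pool.Agent.H66.WSZ.Ex2

namespace Pool.Agent.H66.WSZ

open Finset

/-- Exponential moment of a function with bounded differences.
PROOF. Induction on `n`, for all `F`. For `n = 0` there is one `Y` and both sides are `1`. Step:
write `Y = Fin.cons y Z` (`Fin.consEquiv` or `Fin.insertNthEquiv`, `Fintype.sum_prod_type`), let
`F_y Z = F (Fin.cons y Z)`, which satisfies the hypothesis for `n` (update at `j.succ`), let `q` be
the cardinality of `β`, `a_y = (∑ Z, F_y Z) / q^n` and `a = (∑ Y, F Y) / q^(n+1) = (∑ y, a_y) / q`.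
The sum is `∑ y, exp (lam * (a - a_y)) * ∑ Z, exp (lam * (a_y - F_y Z))`
`≤ q^n * exp (n * lam^2 * c^2) * ∑ y, exp (lam * (a - a_y))`. By `exp_le_add` and
`∑ y, (a - a_y) = 0` the last sum is at most `∑ y, exp (lam^2 * (a - a_y)^2) ≤ q * exp (lam^2 * c^2)`,
because `|a_y' - a_y| ≤ c` for all `y, y'` (hypothesis with `j = 0`, averaged over `Z`), so
`|a - a_y| ≤ c`. -/
theorem exp_moment {β : Type*} [Fintype β] [Nonempty β] (n : ℕ) (F : (Fin n → β) → ℝ) (c : ℝ)
    (hc : 0 ≤ c)
    (hF : ∀ (Y : Fin n → β) (j : Fin n) (y : β), |F Y - F (Function.update Y j y)| ≤ c)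
    (lam : ℝ) :
    ∑ Y, Real.exp (lam * ((∑ Z, F Z) / (Fintype.card β : ℝ) ^ n - F Y)) ≤
      (Fintype.card β : ℝ) ^ n * Real.exp (n * (lam ^ 2 * c ^ 2)) := by
  induction n with
  | zero => simp
  | succ n ih =>
    have hq : (0 : ℝ) < (Fintype.card β : ℝ) := by
      exact_mod_cast Fintype.card_pos
    have hqn : (0 : ℝ) < (Fintype.card β : ℝ) ^ n := pow_pos hq n
    have hcard : (Fintype.card (Fin n → β) : ℝ) = (Fintype.card β : ℝ) ^ n := by
      rw [Fintype.card_fun, Fintype.card_fin]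
      push_cast
      rfl
    have hsplit : ∀ G : (Fin (n + 1) → β) → ℝ,
        ∑ Y, G Y = ∑ y : β, ∑ Z : Fin n → β, G (Fin.cons y Z) := by
      intro G
      rw [← (Fin.consEquiv (fun _ => β)).sum_comp, Fintype.sum_prod_type]
      rfl
    set A : β → ℝ := fun y => (∑ Z : Fin n → β, F (Fin.cons y Z)) / (Fintype.card β : ℝ) ^ n
      with hA
    set a : ℝ := (∑ Z, F Z) / (Fintype.card β : ℝ) ^ (n + 1) with ha'
    have hFy : ∀ (y : β) (Y : Fin n → β) (j : Fin n) (y' : β),
        |F (Fin.cons y Y) - F (Fin.cons y (Function.update Y j y'))| ≤ c := by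
      intro y Y j y'
      have h := hF (Fin.cons y Y) j.succ y'
      rwa [← Fin.cons_update] at h
    have hF0 : ∀ (y y' : β) (Z : Fin n → β), |F (Fin.cons y Z) - F (Fin.cons y' Z)| ≤ c := by
      intro y y' Z
      have h := hF (Fin.cons y Z) 0 y'
      rwa [Fin.update_cons_zero] at h
    have hAA : ∀ y y', |A y - A y'| ≤ c := by
      intro y y'
      have e1 : A y - A y' = (∑ Z : Fin n → β, (F (Fin.cons y Z) - F (Fin.cons y' Z))) /
          (Fintype.card β : ℝ) ^ n := by
        rw [Finset.sum_sub_distrib, sub_div]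
      rw [e1, abs_div, abs_of_pos hqn, div_le_iff₀ hqn]
      calc |∑ Z : Fin n → β, (F (Fin.cons y Z) - F (Fin.cons y' Z))|
          ≤ ∑ Z : Fin n → β, |F (Fin.cons y Z) - F (Fin.cons y' Z)| :=
            Finset.abs_sum_le_sum_abs _ _
        _ ≤ ∑ _Z : Fin n → β, c := Finset.sum_le_sum (fun Z _ => hF0 y y' Z)
        _ = c * (Fintype.card β : ℝ) ^ n := by
            rw [Finset.sum_const, Finset.card_univ, nsmul_eq_mul, hcard, mul_comm]
    have ha : a = (∑ y, A y) / (Fintype.card β : ℝ) := by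
      rw [ha', hsplit F, hA]
      rw [← Finset.sum_div, div_div, pow_succ]
    have hqa : (Fintype.card β : ℝ) * a = ∑ y, A y := by
      rw [ha]
      field_simp
    have hsum0 : ∑ y, (a - A y) = 0 := by
      rw [Finset.sum_sub_distrib, Finset.sum_const, Finset.card_univ, nsmul_eq_mul, hqa, sub_self]
    have hdist : ∀ y, |a - A y| ≤ c := by
      intro y
      have e1 : a - A y = (∑ y', (A y' - A y)) / (Fintype.card β : ℝ) := by
        rw [Finset.sum_sub_distrib, Finset.sum_const, Finset.card_univ, nsmul_eq_mul, ← hqa]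
        field_simp
      rw [e1, abs_div, abs_of_pos hq, div_le_iff₀ hq]
      calc |∑ y', (A y' - A y)| ≤ ∑ y', |A y' - A y| := Finset.abs_sum_le_sum_abs _ _
        _ ≤ ∑ _y' : β, c := Finset.sum_le_sum (fun y' _ => hAA y' y)
        _ = c * (Fintype.card β : ℝ) := by
            rw [Finset.sum_const, Finset.card_univ, nsmul_eq_mul, mul_comm]
    have hE : ∑ y, Real.exp (lam * (a - A y)) ≤
        (Fintype.card β : ℝ) * Real.exp (lam ^ 2 * c ^ 2) := by
      calc ∑ y, Real.exp (lam * (a - A y))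
          ≤ ∑ y, (lam * (a - A y) + Real.exp ((lam * (a - A y)) ^ 2)) :=
            Finset.sum_le_sum (fun y _ => exp_le_add _)
        _ = lam * ∑ y, (a - A y) + ∑ y, Real.exp ((lam * (a - A y)) ^ 2) := by
            rw [Finset.sum_add_distrib, Finset.mul_sum]
        _ = ∑ y, Real.exp ((lam * (a - A y)) ^ 2) := by rw [hsum0]; ring
        _ ≤ ∑ _y : β, Real.exp (lam ^ 2 * c ^ 2) := by
            refine Finset.sum_le_sum (fun y _ => Real.exp_le_exp.mpr ?_)
            rw [mul_pow]
            refine mul_le_mul_of_nonneg_left ?_ (sq_nonneg _)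
            rw [← sq_abs]
            exact pow_le_pow_left₀ (abs_nonneg _) (hdist y) 2
        _ = (Fintype.card β : ℝ) * Real.exp (lam ^ 2 * c ^ 2) := by
            rw [Finset.sum_const, Finset.card_univ, nsmul_eq_mul]
    calc ∑ Y, Real.exp (lam * (a - F Y))
        = ∑ y, ∑ Z : Fin n → β, Real.exp (lam * (a - F (Fin.cons y Z))) := hsplit _
      _ = ∑ y, Real.exp (lam * (a - A y)) *
            ∑ Z : Fin n → β, Real.exp (lam * (A y - F (Fin.cons y Z))) := by
          refine Finset.sum_congr rfl (fun y _ => ?_)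
          rw [Finset.mul_sum]
          refine Finset.sum_congr rfl (fun Z _ => ?_)
          rw [← Real.exp_add]
          congr 1
          ring
      _ ≤ ∑ y, Real.exp (lam * (a - A y)) *
            ((Fintype.card β : ℝ) ^ n * Real.exp (n * (lam ^ 2 * c ^ 2))) := by
          refine Finset.sum_le_sum (fun y _ => mul_le_mul_of_nonneg_left ?_ (Real.exp_pos _).le)
          exact ih (fun Z => F (Fin.cons y Z)) (fun Y j y' => hFy y Y j y')
      _ = (∑ y, Real.exp (lam * (a - A y))) *
            ((Fintype.card β : ℝ) ^ n * Real.exp (n * (lam ^ 2 * c ^ 2))) := by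
          rw [Finset.sum_mul]
      _ ≤ ((Fintype.card β : ℝ) * Real.exp (lam ^ 2 * c ^ 2)) *
            ((Fintype.card β : ℝ) ^ n * Real.exp (n * (lam ^ 2 * c ^ 2))) :=
          mul_le_mul_of_nonneg_right hE (mul_nonneg hqn.le (Real.exp_pos _).le)
      _ = (Fintype.card β : ℝ) ^ (n + 1) * Real.exp (((n + 1 : ℕ) : ℝ) * (lam ^ 2 * c ^ 2)) := by
          have e2 : (((n + 1 : ℕ) : ℝ) * (lam ^ 2 * c ^ 2)) =
              lam ^ 2 * c ^ 2 + n * (lam ^ 2 * c ^ 2) := by push_cast; ring
          rw [e2, Real.exp_add, pow_succ]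
          ring

end Pool.Agent.H66.WSZ
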