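import Pool.Agent.H66.WSZ.Defs
import Pool.Agent.H66.WSZ.McB

namespace Pool.Agent.H66.WSZ

open Finset

/-- Concentration of a function with bounded differences on `Inp j t U`.
PROOF. `mcd` (file `McB`) with `n = 2 * j * t`, `β = Fin U`, `c = 1`, transported along a bijection:
let `e : Fin (2 * j * t) ≃ Fin j × (Fin t ⊕ Fin t)` (`Fintype.equivFinOfCardEq` or `equivFin`
and `finCongr`; the cardinality is `j * (t + t)`), and let `Φ : (Fin (2 * j * t) → Fin U) ≃ Inp j t U`
be `Φ Y l v = Y (e.symm (l, v))` (`Equiv.arrowCongr`, `Equiv.curry`). For `Y` and `i` with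
`e i = (l, v)`: `Φ (update Y i x) = update (Φ Y) l (update (Φ Y l) v x)`. So `F = f ∘ Φ` has bounded
differences, `∑ Y, F Y = ∑ ω, f ω`, the cardinality of `Inp j t U` is `U ^ (2 * j * t)`, and the set
`G` corresponds to its preimage. `4 * n * c ^ 2 = 8 * (j * t)`. -/
theorem mcd_inp {j t U : ℕ} (hj : 0 < j) (ht : 0 < t) (hU : 0 < U) (f : Inp j t U → ℝ)
    (hf : ∀ (ω : Inp j t U) (l : Fin j) (v : Fin t ⊕ Fin t) (x : Fin U),
      |f ω - f (Function.update ω l (Function.update (ω l) v x))| ≤ 1) (τ : ℝ) (hτ : 0 ≤ τ)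
    (G : Finset (Inp j t U))
    (hG : ∀ ω ∈ G, f ω ≤ (∑ ω', f ω') / (Fintype.card (Inp j t U) : ℝ) - τ) :
    (G.card : ℝ) ≤
      (Fintype.card (Inp j t U) : ℝ) * Real.exp (-(τ ^ 2 / (8 * ((j : ℝ) * (t : ℝ))))) := by
  have hUne : Nonempty (Fin U) := ⟨⟨0, hU⟩⟩
  have hn : 0 < 2 * j * t := by positivity
  have hcardE : Fintype.card (Fin j × (Fin t ⊕ Fin t)) = 2 * j * t := by
    simp [Fintype.card_prod, Fintype.card_sum]
    ring
  let e : Fin j × (Fin t ⊕ Fin t) ≃ Fin (2 * j * t) := Fintype.equivFinOfCardEq hcardE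
  let Φ : (Fin (2 * j * t) → Fin U) ≃ Inp j t U :=
    { toFun := fun Y l v => Y (e (l, v))
      invFun := fun ω i => ω (e.symm i).1 (e.symm i).2
      left_inv := by
        intro Y
        funext i
        simp
      right_inv := by
        intro ω
        funext l v
        simp }
  have hΦ : ∀ Y l v, Φ Y l v = Y (e (l, v)) := fun Y l v => rfl
  have hupd : ∀ (Y : Fin (2 * j * t) → Fin U) (i : Fin (2 * j * t)) (x : Fin U),
      Φ (Function.update Y i x) =
        Function.update (Φ Y) (e.symm i).1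
          (Function.update ((Φ Y) (e.symm i).1) (e.symm i).2 x) := by
    intro Y i x
    funext l v
    rw [hΦ]
    by_cases h : e (l, v) = i
    · have h' : (l, v) = e.symm i := by rw [← h]; simp
      have hl : l = (e.symm i).1 := by rw [← h']
      have hv : v = (e.symm i).2 := by rw [← h']
      rw [h, Function.update_self]
      subst hl
      rw [Function.update_self]
      subst hv
      rw [Function.update_self]
    · rw [Function.update_of_ne h]
      by_cases hl : l = (e.symm i).1
      · subst hl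
        rw [Function.update_self]
        have hv : v ≠ (e.symm i).2 := by
          rintro rfl
          exact h (by simp)
        rw [Function.update_of_ne hv, hΦ]
      · rw [Function.update_of_ne hl, hΦ]
  have hcardI : Fintype.card (Inp j t U) = U ^ (2 * j * t) := by
    rw [← Fintype.card_congr Φ]
    simp
  have hcardR : (Fintype.card (Inp j t U) : ℝ) = (Fintype.card (Fin U) : ℝ) ^ (2 * j * t) := by
    rw [hcardI]
    simp
  have hsum : ∑ Y, f (Φ Y) = ∑ ω, f ω := Equiv.sum_comp Φ f
  have key := mcd hn (fun Y => f (Φ Y)) 1 one_pos (by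
      intro Y i y
      have := hf (Φ Y) (e.symm i).1 (e.symm i).2 y
      rw [← hupd] at this
      exact this) τ hτ (G.map Φ.symm.toEmbedding) (by
      intro Y hY
      rw [Finset.mem_map] at hY
      obtain ⟨ω, hω, rfl⟩ := hY
      have h1 := hG ω hω
      simp only [Equiv.coe_toEmbedding, Equiv.apply_symm_apply]
      rw [hsum, ← hcardR]
      exact h1)
  rw [Finset.card_map, ← hcardR] at key
  have e1 : (4 * ((2 * j * t : ℕ) : ℝ) * 1 ^ 2) = 8 * ((j : ℝ) * (t : ℝ)) := by
    push_cast
    ring
  rw [e1] at key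
  exact key

end Pool.Agent.H66.WSZ
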