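import Pool.Agent.H66.WSZ.Cst

namespace Pool.Agent.H66.WSZ

/-- PROOF. Let `a = c1 j ^ 2 / (16 * j ^ 2)`, so `0 < a ≤ c1 j / (2 * j)` (because `c1 j ≤ 1`), and
`C₆ ≥ 12 / a`. Put `K = ⌊c1 j * t⌋`. From `t ≥ n / (2 * j)`: `exp (-(c1 j ^ 2 * t / (8 * j))) ≤
exp (-(a * n))` and `K ≥ c1 j * n / (2 * j) - 1 ≥ a * n - 1`, so `(1 / 2) ^ K ≤ 2 * 2 ^ (-(a * n))`.
Both are at most `2 * 2 ^ (-(a * n))` (as `exp (-x) ≤ 2 ^ (-x)` for `x ≥ 0`, `2 ≤ e`), so the sum is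
at most `4 * 2 ^ (-(a * n))`. Further `3 * n / C ≤ a * n / 4` and `a * n ≥ 12`, so
`2 ^ (3 * n / C) * 4 * 2 ^ (-(a * n)) ≤ 4 * 2 ^ (-(3 / 4 * a * n)) ≤ 4 * 2 ^ (-9) < 1`. -/
theorem num (j : ℕ) (hj : 0 < j) : ∃ C₆ : ℕ, 0 < C₆ ∧ ∀ C n t : ℕ, C₆ ≤ C → C ≤ n →
    n ≤ 2 * j * t → ∃ K : ℕ, (K : ℝ) ≤ c1 j * t ∧
      (2 : ℝ) ^ ((n : ℝ) / C) * (2 : ℝ) ^ ((n : ℝ) / C) *
        (Real.exp (-(c1 j ^ 2 * t / (8 * j))) + (1 / 2 : ℝ) ^ K) < (2 : ℝ) ^ (-((n : ℝ) / C)) := by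
  have hj' : (0 : ℝ) < j := by exact_mod_cast hj
  have hj1 : (1 : ℝ) ≤ j := by exact_mod_cast hj
  have h4 : (1 : ℝ) ≤ 4 ^ j := one_le_pow₀ (by norm_num)
  have hc0 : 0 < c1 j := by unfold c1; positivity
  have hc1 : c1 j ≤ 1 := by
    unfold c1
    rw [div_le_one (by positivity)]
    nlinarith
  set c : ℝ := c1 j with hc
  set a : ℝ := c ^ 2 / (16 * j ^ 2) with ha
  have ha0 : 0 < a := by positivity
  have hac : a ≤ c / (2 * j) := by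
    rw [ha, div_le_div_iff₀ (by positivity) (by positivity)]
    have h1 : c ^ 2 ≤ c := by nlinarith
    have h2 : (j : ℝ) ≤ j ^ 2 := by nlinarith
    nlinarith [mul_le_mul h1 h2 hj'.le hc0.le, mul_pos hc0 (pow_pos hj' 2)]
  obtain ⟨C₆, hC₆⟩ := exists_nat_ge (12 / a)
  have hC₆0 : (0 : ℝ) < C₆ := lt_of_lt_of_le (by positivity) hC₆
  refine ⟨C₆, by exact_mod_cast hC₆0, fun C n t h1 h2 h3 => ?_⟩
  have h1' : (C₆ : ℝ) ≤ C := by exact_mod_cast h1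
  have h2' : (C : ℝ) ≤ n := by exact_mod_cast h2
  have h3' : (n : ℝ) ≤ 2 * j * t := by exact_mod_cast h3
  have hC0 : (0 : ℝ) < C := lt_of_lt_of_le hC₆0 h1'
  have hn0 : (0 : ℝ) < n := lt_of_lt_of_le hC0 h2'
  have hCa : 12 / a ≤ C := hC₆.trans h1'
  have hCa' : 12 ≤ a * C := by
    rw [div_le_iff₀ ha0] at hCa
    linarith
  have han : 12 ≤ a * n := hCa'.trans (mul_le_mul_of_nonneg_left h2' ha0.le)
  have hnC : (n : ℝ) / C ≤ a * n / 12 := by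
    rw [div_le_div_iff₀ hC0 (by norm_num)]
    nlinarith
  have ht0 : (0 : ℝ) ≤ t := Nat.cast_nonneg t
  have htn : (n : ℝ) / (2 * j) ≤ t := by
    rw [div_le_iff₀ (by positivity)]
    linarith
  refine ⟨⌊c * t⌋₊, Nat.floor_le (by positivity), ?_⟩
  have e1 : Real.exp (-(c ^ 2 * t / (8 * j))) ≤ (2 : ℝ) ^ (-(a * n)) := by
    rw [Real.rpow_def_of_pos (by norm_num)]
    apply Real.exp_le_exp.2
    have hl : Real.log 2 ≤ 1 := by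
      have := Real.log_two_lt_d9
      linarith
    have h5 : a * n ≤ c ^ 2 * t / (8 * j) := by
      have h6 : a * n = c ^ 2 / (8 * j) * (n / (2 * j)) := by
        rw [ha]
        field_simp
        ring
      rw [h6]
      have h7 : c ^ 2 * t / (8 * j) = c ^ 2 / (8 * j) * t := by ring
      rw [h7]
      exact mul_le_mul_of_nonneg_left htn (by positivity)
    have h8 : 0 ≤ a * n := by positivity
    nlinarith
  have e2 : (1 / 2 : ℝ) ^ ⌊c * t⌋₊ ≤ 2 * (2 : ℝ) ^ (-(a * n)) := by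
    have h5 : (1 / 2 : ℝ) ^ ⌊c * t⌋₊ = (2 : ℝ) ^ (-(⌊c * t⌋₊ : ℝ)) := by
      rw [Real.rpow_neg (by norm_num), Real.rpow_natCast, one_div, inv_pow]
    have h6 : 2 * (2 : ℝ) ^ (-(a * n)) = (2 : ℝ) ^ (1 - a * n) := by
      rw [sub_eq_add_neg, Real.rpow_add (by norm_num), Real.rpow_one]
    rw [h5, h6]
    apply Real.rpow_le_rpow_of_exponent_le (by norm_num)
    have h7 : c * t < ⌊c * t⌋₊ + 1 := Nat.lt_floor_add_one _
    have h8 : a * n ≤ c * t := by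
      have h9 : c / (2 * j) * n = c * (n / (2 * j)) := by ring
      calc a * n ≤ c / (2 * j) * n := mul_le_mul_of_nonneg_right hac hn0.le
        _ = c * (n / (2 * j)) := h9
        _ ≤ c * t := mul_le_mul_of_nonneg_left htn hc0.le
    linarith
  have e3 : (2 : ℝ) ^ ((n : ℝ) / C) * (2 : ℝ) ^ ((n : ℝ) / C) *
      (Real.exp (-(c ^ 2 * t / (8 * j))) + (1 / 2 : ℝ) ^ ⌊c * t⌋₊) ≤
      (2 : ℝ) ^ ((n : ℝ) / C) * (2 : ℝ) ^ ((n : ℝ) / C) * (3 * (2 : ℝ) ^ (-(a * n))) := by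
    apply mul_le_mul_of_nonneg_left _ (by positivity)
    linarith
  refine lt_of_le_of_lt e3 ?_
  have e4 : (2 : ℝ) ^ ((n : ℝ) / C) * (2 : ℝ) ^ ((n : ℝ) / C) * (3 * (2 : ℝ) ^ (-(a * n))) =
      3 * ((2 : ℝ) ^ (3 * ((n : ℝ) / C) - a * n)) * (2 : ℝ) ^ (-((n : ℝ) / C)) := by
    have h5 : (2 : ℝ) ^ (3 * ((n : ℝ) / C) - a * n) * (2 : ℝ) ^ (-((n : ℝ) / C)) =
        (2 : ℝ) ^ ((n : ℝ) / C) * (2 : ℝ) ^ ((n : ℝ) / C) * (2 : ℝ) ^ (-(a * n)) := by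
      rw [← Real.rpow_add (by norm_num), ← Real.rpow_add (by norm_num),
        ← Real.rpow_add (by norm_num)]
      congr 1
      ring
    rw [mul_assoc 3, h5]
    ring
  rw [e4]
  have e5 : 3 * ((2 : ℝ) ^ (3 * ((n : ℝ) / C) - a * n)) < 1 := by
    have h5 : (2 : ℝ) ^ (3 * ((n : ℝ) / C) - a * n) ≤ (2 : ℝ) ^ (-2 : ℝ) := by
      apply Real.rpow_le_rpow_of_exponent_le (by norm_num)
      linarith
    have h6 : (2 : ℝ) ^ (-2 : ℝ) = 1 / 4 := by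
      rw [Real.rpow_neg (by norm_num)]
      norm_num
    rw [h6] at h5
    linarith
  have e6 : 0 < (2 : ℝ) ^ (-((n : ℝ) / C)) := by positivity
  nlinarith

end Pool.Agent.H66.WSZ
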