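import Pool.Agent.H66.WSZ.Cst

namespace Pool.Agent.H66.WSZ

/-- PROOF. `j * 2 ^ (j - 1) * lam ≤ 2 ^ (j - 1) / 2 ^ (2 * j + 1) = 1 / 2 ^ (j + 2)` and
`(2 * j / t) * X ≤ 2 * j * x2 j = 1 / 2 ^ (j + 2)`. So the left side is at least
`X * (1 / 2 ^ j - 1 / 2 ^ (j + 2) - 1 / 2 ^ (j + 2)) = X / 2 ^ (j + 1)`, and `X ≥ x2 j * t / 2` gives
`x2 j * t / 2 ^ (j + 2) = t / (32 * j * 4 ^ j) = 2 * c1 j * t` (`2 ^ j * 2 ^ j = 4 ^ j`). -/
theorem numX (j : ℕ) (hj : 0 < j) (t X lam : ℝ) (ht : 0 < t) (hl0 : 0 ≤ lam)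
    (hl : lam ≤ lamS j) (h1 : x2 j * t / 2 ≤ X) (h2 : X ≤ x2 j * t) :
    2 * (c1 j * t) ≤ X / 2 ^ j - X * (j * 2 ^ (j - 1) * lam) - 2 * j / t * X ^ 2 := by
  obtain ⟨m, rfl⟩ : ∃ m, j = m + 1 := Nat.exists_eq_succ_of_ne_zero hj.ne'
  have hJ : (0 : ℝ) < ((m + 1 : ℕ) : ℝ) := by positivity
  set J : ℝ := ((m + 1 : ℕ) : ℝ) with hJdef
  have hq : (0 : ℝ) < (2 : ℝ) ^ m := by positivity
  have e1 : (2 : ℝ) ^ (m + 1) = 2 * 2 ^ m := by rw [pow_succ]; ring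
  have e2 : (4 : ℝ) ^ (m + 1) = 4 * (2 ^ m) ^ 2 := by
    have : (4 : ℝ) = 2 ^ 2 := by norm_num
    rw [pow_succ, this, ← pow_mul, mul_comm 2 m, pow_mul]; ring
  have e3 : (2 : ℝ) ^ (2 * (m + 1) + 1) = 8 * (2 ^ m) ^ 2 := by
    have : 2 * (m + 1) + 1 = m * 2 + 3 := by ring
    rw [this, pow_add, pow_mul]; norm_num; ring
  have el : lamS (m + 1) = 1 / (J * (8 * (2 ^ m) ^ 2)) := by
    unfold lamS; rw [e3]
  have ex : x2 (m + 1) = 1 / (16 * J * 2 ^ m) := by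
    unfold x2; rw [e1]; congr 1; ring
  have ec : c1 (m + 1) = 1 / (256 * J * (2 ^ m) ^ 2) := by
    unfold c1; rw [e2]; congr 1; ring
  rw [el] at hl
  rw [ex] at h1 h2
  rw [ec, Nat.add_sub_cancel, e1]
  generalize (2 : ℝ) ^ m = q at *
  have hX : 0 ≤ X := le_trans (by positivity) h1
  have hX1 : t ≤ X * (32 * J * q) := by
    have h3 : 1 / (16 * J * q) * t / 2 = t / (32 * J * q) := by
      field_simp
      ring
    rw [h3, div_le_iff₀ (by positivity)] at h1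
    exact h1
  have hX2 : X * (16 * J * q) ≤ t := by
    have h3 : 1 / (16 * J * q) * t = t / (16 * J * q) := by ring
    rw [h3, le_div_iff₀ (by positivity)] at h2
    exact h2
  have hl2 : lam * (J * (8 * q ^ 2)) ≤ 1 := by
    rw [le_div_iff₀ (by positivity)] at hl
    exact hl
  -- the three terms
  have t1 : J * q * lam ≤ 1 / (8 * q) := by
    rw [le_div_iff₀ (by positivity)]
    calc J * q * lam * (8 * q) = lam * (J * (8 * q ^ 2)) := by ring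
      _ ≤ 1 := hl2
  have t2 : 2 * J / t * X ≤ 1 / (8 * q) := by
    rw [div_mul_eq_mul_div, div_le_div_iff₀ ht (by positivity)]
    calc 2 * J * X * (8 * q) = X * (16 * J * q) := by ring
      _ ≤ 1 * t := by linarith
  have t3 : 2 * (1 / (256 * J * q ^ 2) * t) ≤ X * (1 / (4 * q)) := by
    have h3 : 2 * (1 / (256 * J * q ^ 2) * t) = t / (128 * J * q ^ 2) := by
      field_simp
      ring
    have h4 : X * (1 / (4 * q)) = X / (4 * q) := by ring
    rw [h3, h4, div_le_div_iff₀ (by positivity) (by positivity)]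
    calc t * (4 * q) ≤ (X * (32 * J * q)) * (4 * q) :=
          mul_le_mul_of_nonneg_right hX1 (by positivity)
      _ = X * (128 * J * q ^ 2) := by ring
  have t4 : X * (J * q * lam) ≤ X * (1 / (8 * q)) := mul_le_mul_of_nonneg_left t1 hX
  have t5 : 2 * J / t * X ^ 2 ≤ X * (1 / (8 * q)) := by
    calc 2 * J / t * X ^ 2 = X * (2 * J / t * X) := by ring
      _ ≤ X * (1 / (8 * q)) := mul_le_mul_of_nonneg_left t2 hX
  have t6 : X / (2 * q) - X * (1 / (8 * q)) - X * (1 / (8 * q)) = X * (1 / (4 * q)) := by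
    field_simp
    ring
  linarith

end Pool.Agent.H66.WSZ
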