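import Pool.Agent.H66.WSZ.ExpK
import Pool.Agent.H66.WSZ.NumX
import Pool.Agent.H66.WSZ.Lip
import Pool.Agent.H66.WSZ.McI

namespace Pool.Agent.H66.WSZ

open Finset Classical

theorem lamS_le_one (j : ℕ) (hj : 0 < j) : lamS j ≤ 1 := by
  unfold lamS
  have hj' : (1 : ℝ) ≤ j := by exact_mod_cast hj
  have h2 : (1 : ℝ) ≤ 2 ^ (2 * j + 1) := one_le_pow₀ (by norm_num)
  rw [div_le_one (by positivity)]
  nlinarith

/-- Almost all inputs have a packing with `K` configurations. -/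
theorem packL {j t U m N K : ℕ} (hj : 0 < j) (ht : 0 < t) (hU : 0 < U) (G : Fin N → Finset ℕ)
    (hG1 : ∀ a, G a ⊆ Ico (U / 2) U) (hG2 : ∀ a, (G a).card = m)
    (hG3 : ∀ a a', a ≠ a' → Disjoint (G a) (G a')) (hl : (m : ℝ) * t ^ 2 / U ≤ lamS j)
    (hx1 : x2 j * t / 2 ≤ N * ((m : ℝ) * t ^ 2 / U) ^ j)
    (hx2 : N * ((m : ℝ) * t ^ 2 / U) ^ j ≤ x2 j * t) (hK : (K : ℝ) ≤ c1 j * t) :
    (((univ : Finset (Inp j t U)).filter (fun ω => ¬ Pack ω G K)).card : ℝ) ≤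
      (Fintype.card (Inp j t U) : ℝ) * Real.exp (-(c1 j ^ 2 * t / (8 * j))) := by
  have ht' : (0 : ℝ) < t := by exact_mod_cast ht
  have hj' : (0 : ℝ) < j := by exact_mod_cast hj
  have hlam0 : 0 ≤ (m : ℝ) * t ^ 2 / U := by positivity
  have hE := exp_kmax hj ht hU G hG1 hG2 hG3 (hl.trans (lamS_le_one j hj))
  have hN := numX j hj t (N * ((m : ℝ) * t ^ 2 / U) ^ j) ((m : ℝ) * t ^ 2 / U) ht' hlam0 hl
    hx1 hx2
  have hc1 : 0 ≤ c1 j := by unfold c1; positivity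
  have key := mcd_inp hj ht hU (fun ω : Inp j t U => (kmax G ω : ℝ))
    (fun ω l v x => kmax_lip hj G ω l v x) (c1 j * t) (by positivity)
    ((univ : Finset (Inp j t U)).filter (fun ω => ¬ Pack ω G K)) (by
      intro ω hω
      have hω' := (mem_filter.1 hω).2
      have h1 : kmax G ω < K := by
        by_contra h
        exact hω' (pack_mono (not_lt.1 h) (pack_kmax G ω))
      have h2 : (kmax G ω : ℝ) ≤ K := by exact_mod_cast h1.le
      show (kmax G ω : ℝ) ≤ _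
      linarith)
  refine key.trans (le_of_eq ?_)
  congr 2
  field_simp

end Pool.Agent.H66.WSZ
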