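import Pool.Agent.H66.WSZ.Defs
import Pool.Agent.H66.WSZ.FixR

namespace Pool.Agent.H66.WSZ

open Finset Classical

private theorem aux_card {U : ℕ} (C : Finset ℕ) (m : ℕ) :
    ((univ : Finset (Fin U)).filter (fun b : Fin U => m + (b : ℕ) ∈ C)).card ≤ C.card := by
  refine Finset.card_le_card_of_injOn (fun b : Fin U => m + (b : ℕ)) ?_ ?_
  · intro b hb
    exact (Finset.mem_filter.1 (Finset.mem_coe.1 hb)).2
  · intro a _ b _ hab
    have h : m + (a : ℕ) = m + (b : ℕ) := hab
    exact Fin.ext (by omega)

private theorem aux_pair {t U : ℕ} (C C' : Finset ℕ) (u v u' v' : Fin t ⊕ Fin t) (hv : v ≠ v')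
    (h1 : u ≠ v) (h2 : u ≠ v') (h3 : u' ≠ v) (h4 : u' ≠ v') :
    U ^ 2 * ((univ : Finset (Fin t ⊕ Fin t → Fin U)).filter
      (fun y => (y u : ℕ) + (y v : ℕ) ∈ C ∧ (y u' : ℕ) + (y v' : ℕ) ∈ C')).card ≤
      C.card * C'.card * U ^ (2 * t) := by
  have h := fixR (X := Fin U) ({v, v'} : Finset (Fin t ⊕ Fin t))
    (fun r => if r = v then C.card else C'.card)
    (fun r x => if r = v then (univ : Finset (Fin U)).filter (fun b : Fin U => (x u : ℕ) + (b : ℕ) ∈ C)
      else (univ : Finset (Fin U)).filter (fun b : Fin U => (x u' : ℕ) + (b : ℕ) ∈ C'))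
    (by
      intro r _ x x' hx
      have hu : x u = x' u := hx u (by simp [h1, h2])
      have hu' : x u' = x' u' := hx u' (by simp [h3, h4])
      simp only [hu, hu'])
    (by
      intro r _ x
      by_cases hr : r = v
      · simp only [hr, if_true]
        exact aux_card C _
      · simp only [hr, if_false]
        exact aux_card C' _)
    ((univ : Finset (Fin t ⊕ Fin t → Fin U)).filter
      (fun y => (y u : ℕ) + (y v : ℕ) ∈ C ∧ (y u' : ℕ) + (y v' : ℕ) ∈ C'))
    (by
      intro x hx r hr
      have hx' := (Finset.mem_filter.1 hx).2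
      rw [Finset.mem_insert, Finset.mem_singleton] at hr
      rcases hr with hr | hr
      · subst hr
        simp only [if_true]
        exact Finset.mem_filter.2 ⟨Finset.mem_univ _, hx'.1⟩
      · subst hr
        rw [if_neg (Ne.symm hv)]
        exact Finset.mem_filter.2 ⟨Finset.mem_univ _, hx'.2⟩)
  rw [Finset.card_pair hv, Finset.prod_pair hv, if_pos rfl, if_neg (Ne.symm hv),
    Fintype.card_fin, Fintype.card_sum, Fintype.card_fin, ← two_mul] at h
  rw [mul_comm]
  exact h

/-- PROOF. `fixR` with `ι = Fin t ⊕ Fin t`, `X = Fin U`, `R = {inr p.2}`, `F = fun _ => C.card`,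
`E r x = {b | (x (inl p.1) : ℕ) + b ∈ C}` (for every `r`), which does not depend on the value of `x`
at `inr p.2`, and has at most `|C|` elements because `b ↦ x (inl p.1) + b` is injective into `C`. -/
theorem single_upper {t U : ℕ} (C : Finset ℕ) (p : Fin t × Fin t) :
    U * ((univ : Finset (Fin t ⊕ Fin t → Fin U)).filter (fun y => sm y p ∈ C)).card ≤
      C.card * U ^ (2 * t) := by
  classical
  have h := fixR (X := Fin U) ({Sum.inr p.2} : Finset (Fin t ⊕ Fin t))
    (fun _ => C.card)
    (fun _ x => (univ : Finset (Fin U)).filter (fun b : Fin U => (x (Sum.inl p.1) : ℕ) + (b : ℕ) ∈ C))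
    (by
      intro r _ x x' hx
      have hu : x (Sum.inl p.1) = x' (Sum.inl p.1) := hx (Sum.inl p.1) (by simp)
      simp only [hu])
    (by
      intro r _ x
      exact aux_card C _)
    ((univ : Finset (Fin t ⊕ Fin t → Fin U)).filter (fun y => sm y p ∈ C))
    (by
      intro x hx r hr
      have hx' := (Finset.mem_filter.1 hx).2
      rw [Finset.mem_singleton] at hr
      subst hr
      exact Finset.mem_filter.2 ⟨Finset.mem_univ _, hx'⟩)
  rw [Finset.card_singleton, Finset.prod_singleton, Fintype.card_fin, Fintype.card_sum,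
    Fintype.card_fin, ← two_mul, pow_one] at h
  rw [mul_comm]
  exact h

/-- PROOF. `p.2 ≠ p'.2` or `p.1 ≠ p'.1`. In the first case use `fixR` with
`R = {inr p.2, inr p'.2}` (two elements), `E (inr p.2) x = {b | x (inl p.1) + b ∈ C}` and
`E r x = {b | x (inl p'.1) + b ∈ C'}` for all other `r`, `F (inr p.2) = C.card`, `F r = C'.card`
for the other `r`; the sets `E r x` depend only on the values of `x` at elements `inl _`, which are
not in `R`. In the second case the same with `inl` and `inr` exchanged. The product over `R` is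
`C.card * C'.card`. -/
theorem pair_upper {t U : ℕ} (C C' : Finset ℕ) (p p' : Fin t × Fin t) (hp : p ≠ p') :
    U ^ 2 * ((univ : Finset (Fin t ⊕ Fin t → Fin U)).filter
      (fun y => sm y p ∈ C ∧ sm y p' ∈ C')).card ≤ C.card * C'.card * U ^ (2 * t) := by
  by_cases h : p.2 = p'.2
  · have h1 : p.1 ≠ p'.1 := fun h1 => hp (Prod.ext h1 h)
    have := aux_pair (U := U) C C' (Sum.inr p.2) (Sum.inl p.1) (Sum.inr p'.2) (Sum.inl p'.1)
      (by simpa using h1) (by simp) (by simp) (by simp) (by simp)
    simpa only [sm, add_comm] using this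
  · exact aux_pair (U := U) C C' (Sum.inl p.1) (Sum.inr p.2) (Sum.inl p'.1) (Sum.inr p'.2)
      (by simpa using h) (by simp) (by simp) (by simp) (by simp)

end Pool.Agent.H66.WSZ
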