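import Mathlib

namespace Pool.Agent.H66.WSZ

/-- PROOF. Take `C₅ ≥ (2 * j) ^ (2 * j - 1) * 2 ^ j * c`. From `n ≤ 2 * j * t`:
`C₅ * S ^ ((τ + 1) * j - 1) < n ^ (2 * j - 1) * h ^ (τ * j) ≤
(2 * j) ^ (2 * j - 1) * t ^ (2 * j - 1) * h ^ (τ * j)`, and
`S ^ ((τ + 1) * j - 1) = S ^ (τ * j) * S ^ (j - 1)`. So
`2 ^ j * c * S ^ (τ * j) * S ^ (j - 1) ≤ t ^ (2 * j - 1) * h ^ (τ * j)`; divide by
`2 ^ j * S ^ (τ * j)` (positive because `S > 0`). -/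
theorem prmA (j : ℕ) (hj : 0 < j) (c : ℝ) (hc : 0 < c) : ∃ C₅ : ℕ, ∀ n t S h τ : ℕ, 0 < S →
    n ≤ 2 * j * t → C₅ * S ^ ((τ + 1) * j - 1) < n ^ (2 * j - 1) * h ^ (τ * j) →
    c * (S : ℝ) ^ (j - 1) ≤ ((h : ℝ) ^ τ / (2 * (S : ℝ) ^ τ)) ^ j * (t : ℝ) ^ (2 * j - 1) := by
  obtain ⟨C₅, hC⟩ := exists_nat_ge ((2 * (j : ℝ)) ^ (2 * j - 1) * 2 ^ j * c)
  refine ⟨C₅, fun n t S h τ hS hn hlt => ?_⟩
  have hSr : (0 : ℝ) < S := by exact_mod_cast hS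
  have hjr : (0 : ℝ) < j := by exact_mod_cast hj
  have h1 : (C₅ : ℝ) * (S : ℝ) ^ ((τ + 1) * j - 1) ≤ (n : ℝ) ^ (2 * j - 1) * (h : ℝ) ^ (τ * j) := by
    exact_mod_cast hlt.le
  have h2 : (n : ℝ) ^ (2 * j - 1) ≤ (2 * (j : ℝ)) ^ (2 * j - 1) * (t : ℝ) ^ (2 * j - 1) := by
    rw [← mul_pow]
    exact pow_le_pow_left₀ (Nat.cast_nonneg n) (by exact_mod_cast hn) _
  have h3 : (S : ℝ) ^ ((τ + 1) * j - 1) = (S : ℝ) ^ (τ * j) * (S : ℝ) ^ (j - 1) := by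
    rw [← pow_add]
    congr 1
    have : (τ + 1) * j = τ * j + j := by ring
    omega
  have h4 : (0 : ℝ) ≤ (h : ℝ) ^ (τ * j) := by positivity
  have hP : (0 : ℝ) < (2 * (j : ℝ)) ^ (2 * j - 1) := by positivity
  have h5 : (2 * (j : ℝ)) ^ (2 * j - 1) * (2 ^ j * c * ((S : ℝ) ^ (τ * j) * (S : ℝ) ^ (j - 1))) ≤
      (2 * (j : ℝ)) ^ (2 * j - 1) * ((t : ℝ) ^ (2 * j - 1) * (h : ℝ) ^ (τ * j)) := by
    calc (2 * (j : ℝ)) ^ (2 * j - 1) * (2 ^ j * c * ((S : ℝ) ^ (τ * j) * (S : ℝ) ^ (j - 1)))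
        = ((2 * (j : ℝ)) ^ (2 * j - 1) * 2 ^ j * c) * ((S : ℝ) ^ (τ * j) * (S : ℝ) ^ (j - 1)) := by
          ring
      _ ≤ C₅ * ((S : ℝ) ^ (τ * j) * (S : ℝ) ^ (j - 1)) := by
          apply mul_le_mul_of_nonneg_right hC; positivity
      _ ≤ (n : ℝ) ^ (2 * j - 1) * (h : ℝ) ^ (τ * j) := by rw [← h3]; exact h1
      _ ≤ ((2 * (j : ℝ)) ^ (2 * j - 1) * (t : ℝ) ^ (2 * j - 1)) * (h : ℝ) ^ (τ * j) :=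
          mul_le_mul_of_nonneg_right h2 h4
      _ = _ := by ring
  have h6 := le_of_mul_le_mul_left h5 hP
  have h7 : ((h : ℝ) ^ τ / (2 * (S : ℝ) ^ τ)) ^ j * (t : ℝ) ^ (2 * j - 1) =
      ((t : ℝ) ^ (2 * j - 1) * (h : ℝ) ^ (τ * j)) / (2 ^ j * (S : ℝ) ^ (τ * j)) := by
    rw [div_pow, mul_pow, ← pow_mul, ← pow_mul]
    ring
  rw [h7, le_div_iff₀ (by positivity)]
  calc c * (S : ℝ) ^ (j - 1) * (2 ^ j * (S : ℝ) ^ (τ * j))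
      = 2 ^ j * c * ((S : ℝ) ^ (τ * j) * (S : ℝ) ^ (j - 1)) := by ring
    _ ≤ _ := h6

end Pool.Agent.H66.WSZ
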