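import Mathlib

namespace Pool.Agent.H66.WSZ

/-- PROOF. It suffices to show `1 ≤ (μ * U / t ^ 2) ^ j` (`one_le_pow_iff_of_nonneg` or by
contradiction with `pow_lt_one₀`). If `μ = L`:
`(L * U / t ^ 2) ^ j = L ^ j * U ^ j / t ^ (2 * j) ≥ L ^ j * 2 * S * n ^ (2 * j) / t ^ (2 * j) ≥
L ^ j * 2 * S ≥ 2 * (L ^ j * n) ≥ 1`. If `μ = q * t ^ 2 / ((C₃ + 1) * S)`: then
`μ * U / t ^ 2 = q * U / ((C₃ + 1) * S)` and its power is
`q ^ j * U ^ j / ((C₃ + 1) ^ j * S ^ j) ≥ q ^ j * 2 * n ^ (2 * j) / ((C₃ + 1) ^ j * S ^ (j - 1))`, and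
`q ^ j ≥ x * 2 ^ j * (C₃ + 1) ^ j * S ^ (j - 1) / (C₃ * t ^ (2 * j - 1))` by `h2`, so it is at least
`2 * x * 2 ^ j * n ^ (2 * j) / (C₃ * t ^ (2 * j - 1)) ≥ 2 * 2 ^ j * (x * n) / C₃ ≥ 1`, because
`n ^ (2 * j) = n * n ^ (2 * j - 1) ≥ n * t ^ (2 * j - 1)`. -/
theorem prmB (j : ℕ) (hj : 0 < j) (n t U S q L x C₃ μ : ℝ) (ht : 0 < t) (htn : t ≤ n)
    (hnS : n ≤ S) (hU : 0 < U) (hq : 0 < q) (hL : 0 < L) (hx : 0 < x) (hC₃ : 0 < C₃)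
    (hμ : μ = min L (q * t ^ 2 / ((C₃ + 1) * S)))
    (h2 : x * 2 ^ j * (C₃ + 1) ^ j * S ^ (j - 1) ≤ C₃ * q ^ j * t ^ (2 * j - 1))
    (hUS : 2 * S * n ^ (2 * j) ≤ U ^ j) (hn1 : 1 ≤ L ^ j * n) (hn2 : C₃ ≤ x * n) :
    1 ≤ μ * U / t ^ 2 := by
  have hn : 0 < n := lt_of_lt_of_le ht htn
  have hS : 0 < S := lt_of_lt_of_le hn hnS
  have hj0 : j ≠ 0 := hj.ne'
  have hL1 : 1 ≤ L * U / t ^ 2 := by
    rw [← one_le_pow_iff_of_nonneg (by positivity) hj0, div_pow, le_div_iff₀ (by positivity),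
      one_mul, mul_pow, ← pow_mul]
    have a1 : t ^ (2 * j) ≤ n ^ (2 * j) := pow_le_pow_left₀ ht.le htn _
    have a2 : L ^ j * (2 * S * n ^ (2 * j)) ≤ L ^ j * U ^ j :=
      mul_le_mul_of_nonneg_left hUS (by positivity)
    have a3 : (1 : ℝ) ≤ L ^ j * S :=
      hn1.trans (mul_le_mul_of_nonneg_left hnS (by positivity))
    have a4 : 0 < n ^ (2 * j) := by positivity
    calc t ^ (2 * j) ≤ n ^ (2 * j) := a1
      _ ≤ (2 * (L ^ j * S)) * n ^ (2 * j) := by nlinarith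
      _ = L ^ j * (2 * S * n ^ (2 * j)) := by ring
      _ ≤ L ^ j * U ^ j := a2
  have hq1 : 1 ≤ (q * t ^ 2 / ((C₃ + 1) * S)) * U / t ^ 2 := by
    have hC : 0 < C₃ + 1 := by linarith
    have e : (q * t ^ 2 / ((C₃ + 1) * S)) * U / t ^ 2 = q * U / ((C₃ + 1) * S) := by
      field_simp
    rw [e, ← one_le_pow_iff_of_nonneg (by positivity) hj0, div_pow, le_div_iff₀ (by positivity),
      one_mul, mul_pow, mul_pow]
    obtain ⟨i, rfl⟩ : ∃ i, j = i + 1 := ⟨j - 1, by omega⟩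
    rw [Nat.add_sub_cancel] at h2
    have e3 : 2 * (i + 1) - 1 = 2 * i + 1 := by omega
    rw [e3] at h2
    have a1 : t ^ (2 * i + 1) ≤ n ^ (2 * i + 1) := pow_le_pow_left₀ ht.le htn _
    have a2 : x * (2 ^ (i + 1) * (C₃ + 1) ^ (i + 1) * S ^ i) ≤
        x * (q ^ (i + 1) * n ^ (2 * (i + 1))) := by
      calc x * (2 ^ (i + 1) * (C₃ + 1) ^ (i + 1) * S ^ i)
          = x * 2 ^ (i + 1) * (C₃ + 1) ^ (i + 1) * S ^ i := by ring
        _ ≤ C₃ * q ^ (i + 1) * t ^ (2 * i + 1) := h2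
        _ ≤ C₃ * q ^ (i + 1) * n ^ (2 * i + 1) := mul_le_mul_of_nonneg_left a1 (by positivity)
        _ = C₃ * (q ^ (i + 1) * n ^ (2 * i + 1)) := by ring
        _ ≤ (x * n) * (q ^ (i + 1) * n ^ (2 * i + 1)) :=
            mul_le_mul_of_nonneg_right hn2 (by positivity)
        _ = x * (q ^ (i + 1) * n ^ (2 * (i + 1))) := by ring
    have a3 := le_of_mul_le_mul_left a2 hx
    have a4 : (1 : ℝ) ≤ 2 ^ (i + 1) := one_le_pow₀ (by norm_num)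
    have a5 : (C₃ + 1) ^ (i + 1) * S ^ i ≤ 2 ^ (i + 1) * (C₃ + 1) ^ (i + 1) * S ^ i := by
      rw [mul_assoc]
      exact le_mul_of_one_le_left (by positivity) a4
    have a6 : (C₃ + 1) ^ (i + 1) * S ^ i ≤ q ^ (i + 1) * n ^ (2 * (i + 1)) := a5.trans a3
    calc (C₃ + 1) ^ (i + 1) * S ^ (i + 1) = ((C₃ + 1) ^ (i + 1) * S ^ i) * S := by ring
      _ ≤ (q ^ (i + 1) * n ^ (2 * (i + 1))) * S := mul_le_mul_of_nonneg_right a6 hS.le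
      _ ≤ 2 * ((q ^ (i + 1) * n ^ (2 * (i + 1))) * S) := by
          have : 0 ≤ (q ^ (i + 1) * n ^ (2 * (i + 1))) * S := by positivity
          linarith
      _ = q ^ (i + 1) * (2 * S * n ^ (2 * (i + 1))) := by ring
      _ ≤ q ^ (i + 1) * U ^ (i + 1) := mul_le_mul_of_nonneg_left hUS (by positivity)
  rw [hμ]
  rcases min_choice L (q * t ^ 2 / ((C₃ + 1) * S)) with h | h
  · rw [h]
    exact hL1
  · rw [h]
    exact hq1

end Pool.Agent.H66.WSZ
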