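import Mathlib

namespace Pool.Agent.H66.WSZ

/-- PROOF. If `μ = L` the left side is `C₃ * t ≤ C₃ * S`. If `μ = q * t ^ 2 / ((C₃ + 1) * S)` it is
`x * t * (2 * (C₃ + 1) * S / (q * t ^ 2)) ^ j =
x * 2 ^ j * (C₃ + 1) ^ j * S ^ j * t / (q ^ j * t ^ (2 * j))`, and this is at most `C₃ * S` by `h2`
(multiply `h2` by `S * t`; `t ^ (2 * j - 1) * t = t ^ (2 * j)`, `S ^ (j - 1) * S = S ^ j`). -/
theorem prmC (j : ℕ) (hj : 0 < j) (t S q L x C₃ μ : ℝ) (ht : 0 < t) (htS : t ≤ S)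
    (hq : 0 < q) (hL : 0 < L) (hx : 0 < x) (hC₃ : C₃ = x * (2 / L) ^ j)
    (hμ : μ = min L (q * t ^ 2 / ((C₃ + 1) * S)))
    (h2 : x * 2 ^ j * (C₃ + 1) ^ j * S ^ (j - 1) ≤ C₃ * q ^ j * t ^ (2 * j - 1)) :
    x * t * (2 / μ) ^ j ≤ C₃ * S := by
  have hS : 0 < S := ht.trans_le htS
  have hC : 0 < C₃ := by
    rw [hC₃]
    positivity
  rcases min_choice L (q * t ^ 2 / ((C₃ + 1) * S)) with h | h
  · rw [hμ, h]
    calc x * t * (2 / L) ^ j = C₃ * t := by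
          rw [hC₃]
          ring
      _ ≤ C₃ * S := by gcongr
  · rw [hμ, h]
    have e : 2 / (q * t ^ 2 / ((C₃ + 1) * S)) = (2 * (C₃ + 1) * S) / (q * t ^ 2) := by
      field_simp
    rw [e, div_pow, ← mul_div_assoc, div_le_iff₀ (by positivity)]
    have e1 : S ^ j = S ^ (j - 1) * S := by
      rw [← pow_succ]
      congr 1
      omega
    have e2 : t ^ (2 * j) = t ^ (2 * j - 1) * t := by
      rw [← pow_succ]
      congr 1
      omega
    have h3 := mul_le_mul_of_nonneg_right h2 (mul_pos hS ht).le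
    calc x * t * (2 * (C₃ + 1) * S) ^ j
        = x * 2 ^ j * (C₃ + 1) ^ j * S ^ (j - 1) * (S * t) := by
          rw [mul_pow, mul_pow, e1]
          ring
      _ ≤ C₃ * q ^ j * t ^ (2 * j - 1) * (S * t) := h3
      _ = C₃ * S * (q * t ^ 2) ^ j := by
          rw [mul_pow, ← pow_mul, e2]
          ring

end Pool.Agent.H66.WSZ
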