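import Mathlib

namespace Pool.Agent.H66.WSZ

/-- PROOF. `m = ⌊μ * U / t ^ 2⌋₊`; for real `y ≥ 1` we have `1 ≤ ⌊y⌋₊` and `y / 2 ≤ ⌊y⌋₊ ≤ y`
(`Nat.floor_le`, `Nat.lt_floor_add_one`). -/
theorem exists_m (t U μ : ℝ) (ht : 0 < t) (hU : 0 < U) (h : 1 ≤ μ * U / t ^ 2) :
    ∃ m : ℕ, 0 < m ∧ (m : ℝ) ≤ μ * U / t ^ 2 ∧ μ / 2 ≤ (m : ℝ) * t ^ 2 / U ∧
      (m : ℝ) * t ^ 2 / U ≤ μ := by
  set y : ℝ := μ * U / t ^ 2 with hy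
  have ht2 : 0 < t ^ 2 := by positivity
  have h1 : (⌊y⌋₊ : ℝ) ≤ y := Nat.floor_le (by linarith)
  have h2 : y < ⌊y⌋₊ + 1 := Nat.lt_floor_add_one y
  have h3 : 1 ≤ ⌊y⌋₊ := Nat.le_floor (by simpa using h)
  have h4 : (1 : ℝ) ≤ (⌊y⌋₊ : ℝ) := by exact_mod_cast h3
  have h5 : μ = y * t ^ 2 / U := by
    rw [hy]
    field_simp
  refine ⟨⌊y⌋₊, by omega, h1, ?_, ?_⟩
  · rw [h5, div_div, div_le_div_iff₀ (by positivity) hU]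
    have : y ≤ 2 * (⌊y⌋₊ : ℝ) := by linarith
    have h6 : y * (t ^ 2 * U) ≤ 2 * (⌊y⌋₊ : ℝ) * (t ^ 2 * U) :=
      mul_le_mul_of_nonneg_right this (by positivity)
    linarith
  · rw [h5]
    gcongr

/-- PROOF. `N = ⌊x * t / lam ^ j⌋₊`; `x * t / lam ^ j ≥ 1` by `h`, so
`x * t / (2 * lam ^ j) ≤ N ≤ x * t / lam ^ j`; and `1 / lam ^ j ≤ (2 / μ) ^ j` because `μ / 2 ≤ lam`. -/
theorem exists_N (j : ℕ) (t x lam μ : ℝ) (ht : 0 < t) (hx : 0 < x) (hμ : 0 < μ)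
    (hlam : μ / 2 ≤ lam) (h : lam ^ j ≤ x * t) :
    ∃ N : ℕ, x * t / 2 ≤ N * lam ^ j ∧ N * lam ^ j ≤ x * t ∧
      (N : ℝ) ≤ x * t * (2 / μ) ^ j := by
  have hlam0 : 0 < lam := by linarith
  have hlj : 0 < lam ^ j := by positivity
  set y : ℝ := x * t / lam ^ j with hy
  have hy1 : 1 ≤ y := by
    rw [hy, le_div_iff₀ hlj, one_mul]
    exact h
  have h1 : (⌊y⌋₊ : ℝ) ≤ y := Nat.floor_le (by linarith)
  have h2 : y < ⌊y⌋₊ + 1 := Nat.lt_floor_add_one y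
  have h3 : 1 ≤ ⌊y⌋₊ := Nat.le_floor (by simpa using hy1)
  have h4 : (1 : ℝ) ≤ (⌊y⌋₊ : ℝ) := by exact_mod_cast h3
  have h5 : y * lam ^ j = x * t := by
    rw [hy]
    field_simp
  refine ⟨⌊y⌋₊, ?_, ?_, ?_⟩
  · have : y / 2 ≤ (⌊y⌋₊ : ℝ) := by linarith
    have h6 : y / 2 * lam ^ j ≤ (⌊y⌋₊ : ℝ) * lam ^ j :=
      mul_le_mul_of_nonneg_right this hlj.le
    linarith
  · rw [← h5]
    exact mul_le_mul_of_nonneg_right h1 hlj.le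
  · refine h1.trans ?_
    rw [hy, div_eq_mul_inv]
    refine mul_le_mul_of_nonneg_left ?_ (by positivity)
    rw [← inv_pow]
    refine pow_le_pow_left₀ (by positivity) ?_ j
    rw [inv_le_comm₀ hlam0 (by positivity), inv_div]
    exact hlam

end Pool.Agent.H66.WSZ
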