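import Pool.Agent.H66.WSZ.Cst
import Pool.Agent.H66.WSZ.PrmA
import Pool.Agent.H66.WSZ.PrmB
import Pool.Agent.H66.WSZ.PrmC
import Pool.Agent.H66.WSZ.PrmD

namespace Pool.Agent.H66.WSZ

/-- Choice of the parameters. -/
theorem prm (j : ℕ) (hj : 0 < j) : ∃ C₅ : ℕ, ∀ n t U S h τ : ℕ, C₅ ≤ n → n ≤ S → 1 ≤ h → h ≤ S →
    t ≤ n → n ≤ 2 * j * t → 2 * S * n ^ (2 * j) ≤ U ^ j →
    C₅ * S ^ ((τ + 1) * j - 1) < n ^ (2 * j - 1) * h ^ (τ * j) →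
    ∃ m N : ℕ, 0 < m ∧ 2 * (m * (N + S)) * S ^ τ ≤ h ^ τ * U ∧
      (m : ℝ) * t ^ 2 / U ≤ lamS j ∧ x2 j * t / 2 ≤ N * ((m : ℝ) * t ^ 2 / U) ^ j ∧
      N * ((m : ℝ) * t ^ 2 / U) ^ j ≤ x2 j * t := by
  set x : ℝ := x2 j with hxdef
  set L : ℝ := lamS j with hLdef
  have hjR : (0:ℝ) < (j:ℝ) := by exact_mod_cast hj
  have hx : 0 < x := by
    rw [hxdef]; unfold x2; positivity
  have hL : 0 < L := by
    rw [hLdef]; unfold lamS; positivity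
  set C₃ : ℝ := x * (2 / L) ^ j with hC₃
  have hC₃pos : 0 < C₃ := by positivity
  obtain ⟨Ca, hCa⟩ := prmA j hj (x * 2 ^ j * (C₃ + 1) ^ j / C₃) (by positivity)
  obtain ⟨C1, hC1⟩ := exists_nat_ge (1 / L ^ j)
  obtain ⟨C2, hC2⟩ := exists_nat_ge (C₃ / x)
  obtain ⟨C4, hC4⟩ := exists_nat_ge (2 * j * L ^ j / x)
  refine ⟨Ca + C1 + C2 + C4 + 1, ?_⟩
  intro n t U S h τ hn hnS hh hhS htn hnt hU hmain
  have hn0 : 0 < n := by omega
  have hS0 : 0 < S := by omega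
  have ht0 : 0 < t := by
    rcases Nat.eq_zero_or_pos t with h0 | h0
    · rw [h0] at hnt; simp at hnt; omega
    · exact h0
  have hU0 : 0 < U := by
    rcases Nat.eq_zero_or_pos U with h0 | h0
    · rw [h0, zero_pow (by omega)] at hU
      have : 0 < 2 * S * n ^ (2*j) := by positivity
      omega
    · exact h0
  have hnR : (0:ℝ) < n := by exact_mod_cast hn0
  have hSR : (0:ℝ) < S := by exact_mod_cast hS0
  have htR : (0:ℝ) < t := by exact_mod_cast ht0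
  have hUR : (0:ℝ) < U := by exact_mod_cast hU0
  have hhR : (0:ℝ) < h := by exact_mod_cast hh
  have htnR : (t:ℝ) ≤ n := by exact_mod_cast htn
  have hnSR : (n:ℝ) ≤ S := by exact_mod_cast hnS
  have hntR : (n:ℝ) ≤ 2 * j * t := by exact_mod_cast hnt
  have hCn : ((Ca + C1 + C2 + C4 + 1 : ℕ):ℝ) ≤ n := by exact_mod_cast hn
  push_cast at hCn
  have hCa0 : (0:ℝ) ≤ Ca := by positivity
  have hC10 : (0:ℝ) ≤ C1 := by positivity
  have hC20 : (0:ℝ) ≤ C2 := by positivity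
  have hC40 : (0:ℝ) ≤ C4 := by positivity
  set q : ℝ := (h:ℝ) ^ τ / (2 * (S:ℝ) ^ τ) with hq
  have hqpos : 0 < q := by positivity
  have hA := hCa n t S h τ hS0 hnt (lt_of_le_of_lt (Nat.mul_le_mul_right _ (by omega)) hmain)
  have h2 : x * 2 ^ j * (C₃ + 1) ^ j * (S:ℝ) ^ (j - 1) ≤ C₃ * q ^ j * (t:ℝ) ^ (2 * j - 1) := by
    have h3 := mul_le_mul_of_nonneg_left hA hC₃pos.le
    calc x * 2 ^ j * (C₃ + 1) ^ j * (S:ℝ) ^ (j - 1) 
        = C₃ * (x * 2 ^ j * (C₃ + 1) ^ j / C₃ * (S:ℝ) ^ (j - 1)) := by field_simp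
      _ ≤ _ := h3
      _ = _ := by rw [← hq]; ring
  set μ : ℝ := min L (q * (t:ℝ) ^ 2 / ((C₃ + 1) * S)) with hμ
  have hμpos : 0 < μ := by
    rw [hμ]
    apply lt_min hL
    positivity
  have hn1 : 1 ≤ L ^ j * n := by
    have : 1 / L ^ j ≤ (n:ℝ) := by linarith
    rw [div_le_iff₀ (by positivity)] at this
    linarith
  have hn2 : C₃ ≤ x * n := by
    have : C₃ / x ≤ (n:ℝ) := by linarith
    rw [div_le_iff₀ hx] at this
    linarith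
  have hUR2 : 2 * (S:ℝ) * (n:ℝ) ^ (2 * j) ≤ (U:ℝ) ^ j := by exact_mod_cast hU
  have hB := prmB j hj n t U S q L x C₃ μ htR htnR hnSR hUR hqpos hL hx hC₃pos hμ h2 hUR2 hn1 hn2
  obtain ⟨m, hm0, hm1, hm2, hm3⟩ := exists_m t U μ htR hUR hB
  have hlam : ((m:ℝ) * t ^ 2 / U) ^ j ≤ x * t := by
    have h4 : (m:ℝ) * t ^ 2 / U ≤ L := hm3.trans (min_le_left _ _)
    have h5 : ((m:ℝ) * t ^ 2 / U) ^ j ≤ L ^ j := pow_le_pow_left₀ (by positivity) h4 j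
    have h6 : 2 * j * L ^ j / x ≤ (n:ℝ) := by linarith
    rw [div_le_iff₀ hx] at h6
    have h7 : 2 * j * L ^ j ≤ 2 * j * (x * t) := by
      calc 2 * j * L ^ j ≤ n * x := h6
        _ ≤ (2 * j * t) * x := by gcongr
        _ = _ := by ring
    have h8 : L ^ j ≤ x * t := le_of_mul_le_mul_left h7 (by positivity)
    exact h5.trans h8
  obtain ⟨N, hN1, hN2, hN3⟩ := exists_N j t x _ μ htR hx hμpos hm2 hlam
  have hC := prmC j hj t S q L x C₃ μ htR (htnR.trans hnSR) hqpos hL hx hC₃ hμ h2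
  have hNS : (N:ℝ) ≤ C₃ * S := hN3.trans hC
  refine ⟨m, N, hm0, ?_, hm3.trans (min_le_left _ _), hN1, hN2⟩
  have h9 : (m:ℝ) ≤ q * U / ((C₃ + 1) * S) := by
    calc (m:ℝ) ≤ μ * U / t ^ 2 := hm1
      _ ≤ (q * (t:ℝ) ^ 2 / ((C₃ + 1) * S)) * U / t ^ 2 := by
          gcongr
          exact min_le_right _ _
      _ = _ := by field_simp
  have h10 : (m:ℝ) * ((N:ℝ) + S) ≤ q * U := by
    calc (m:ℝ) * ((N:ℝ) + S) ≤ (q * U / ((C₃ + 1) * S)) * ((C₃ + 1) * S) := by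
          apply mul_le_mul h9 _ (by positivity) (by positivity)
          linarith
      _ = q * U := by field_simp
  have h11 : 2 * ((m:ℝ) * ((N:ℝ) + S)) * (S:ℝ) ^ τ ≤ (h:ℝ) ^ τ * U := by
    calc 2 * ((m:ℝ) * ((N:ℝ) + S)) * (S:ℝ) ^ τ ≤ 2 * (q * U) * (S:ℝ) ^ τ := by gcongr
      _ = (h:ℝ) ^ τ * U := by rw [hq]; field_simp
  exact_mod_cast h11

end Pool.Agent.H66.WSZ
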