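import Pool.Agent.H66.WSZ.Defs

namespace Pool.Agent.H66.WSZ

open Finset Classical Pool.Agent.H55.FreeIdx

/-- From pairs of arrays to inputs.
PROOF. For a pair `(A, B)` let `ω l (inl i) = A ⟨l * t + i, _⟩`, `ω l (inr k) = B ⟨l * t + k, _⟩`
(`l * t + i < j * t ≤ n`), and let `A'`, `B' : Fin (n - j * t) → Fin U` be the values at the places
`j * t + i`. The map `(A, B) ↦ (ω, A', B')` is injective, because every `x < j * t` is
`(x / t) * t + x % t` (`Nat.div_add_mod`, `Nat.div_lt_of_lt_mul`; `t > 0` if `x < j * t`) and every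
other `x < n` is `j * t + (x - j * t)`. If `Handles P T F A B` then `HInp P T F ω` with the same
`g`, `M`, because `sm (ω l) p = A _ + B _` is a sum. So the number of handled pairs is at most
`#{ω | HInp P T F ω} * U ^ (n - j * t) * U ^ (n - j * t)`. -/
theorem transfer {H S W : ℕ} (P : Scheme H S W) (T F j t n U : ℕ) (hjt : j * t ≤ n) :
    Nat.card {p : (Fin n → Fin U) × (Fin n → Fin U) // Handles P T F p.1 p.2} ≤
      ((univ : Finset (Inp j t U)).filter (fun ω => HInp P T F ω)).card *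
        U ^ (2 * (n - j * t)) := by
  have key : ∀ (l : Fin j) (i : Fin t), (l:ℕ) * t + i < n := by
    intro l i
    have h1 : ((l:ℕ)+1) * t ≤ j * t := Nat.mul_le_mul_right t l.2
    have h2 := i.2
    have h3 : ((l:ℕ)+1) * t = (l:ℕ) * t + t := by ring
    omega
  have key2 : ∀ i : Fin (n - j*t), j*t + (i:ℕ) < n := by
    intro i
    have := i.2
    omega
  have hcov : ∀ x : Fin n, (∃ (l : Fin j) (i : Fin t), (x:ℕ) = (l:ℕ) * t + i) ∨
      (∃ i : Fin (n - j*t), (x:ℕ) = j*t + (i:ℕ)) := by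
    intro x
    rcases lt_or_ge (x:ℕ) (j*t) with hx | hx
    · left
      have ht : 0 < t := by
        rcases Nat.eq_zero_or_pos t with h0 | h0
        · rw [h0] at hx
          simp at hx
        · exact h0
      refine ⟨⟨(x:ℕ)/t, ?_⟩, ⟨(x:ℕ) % t, Nat.mod_lt _ ht⟩, ?_⟩
      · exact Nat.div_lt_of_lt_mul (by rwa [mul_comm t j])
      · simp only
        rw [mul_comm]
        exact (Nat.div_add_mod _ _).symm
    · right
      exact ⟨⟨(x:ℕ) - j*t, by have := x.2; omega⟩, by simp only; omega⟩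
  let om : (Fin n → Fin U) × (Fin n → Fin U) → Inp j t U := fun p l s =>
    Sum.elim (fun i : Fin t => p.1 ⟨(l:ℕ)*t + i, key l i⟩) (fun i : Fin t => p.2 ⟨(l:ℕ)*t + i, key l i⟩) s
  let f : {p : (Fin n → Fin U) × (Fin n → Fin U) // Handles P T F p.1 p.2} →
     ((univ : Finset (Inp j t U)).filter (fun ω => HInp P T F ω)) ×
      ((Fin (n-j*t) → Fin U) × (Fin (n-j*t) → Fin U)) := fun p =>
    (⟨om p.1, by
      rw [mem_filter]
      refine ⟨mem_univ _, ?_⟩
      obtain ⟨g, M, h1, h2⟩ := p.2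
      refine ⟨g, M, ?_, h2⟩
      intro l q
      apply h1
      exact ⟨⟨(l:ℕ)*t + q.1, key l q.1⟩, ⟨(l:ℕ)*t + q.2, key l q.2⟩, rfl⟩⟩,
      (fun i => p.1.1 ⟨j*t + i, key2 i⟩, fun i => p.1.2 ⟨j*t + i, key2 i⟩))
  have hf : Function.Injective f := by
    intro p q hpq
    have h1 : om p.1 = om q.1 := congrArg (fun z => (z.1 : Inp j t U)) hpq
    have h2 : (fun i : Fin (n-j*t) => p.1.1 ⟨j*t + i, key2 i⟩) = (fun i : Fin (n-j*t) => q.1.1 ⟨j*t + i, key2 i⟩) :=
      congrArg (fun z => z.2.1) hpq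
    have h3 : (fun i : Fin (n-j*t) => p.1.2 ⟨j*t + i, key2 i⟩) = (fun i : Fin (n-j*t) => q.1.2 ⟨j*t + i, key2 i⟩) :=
      congrArg (fun z => z.2.2) hpq
    apply Subtype.ext
    apply Prod.ext
    · funext x
      rcases hcov x with ⟨l, i, hx⟩ | ⟨i, hx⟩
      · have := congrFun (congrFun h1 l) (Sum.inl i)
        have hx' : x = ⟨(l:ℕ)*t + i, key l i⟩ := Fin.ext hx
        rw [hx']
        exact this
      · have := congrFun h2 i
        have hx' : x = ⟨j*t + (i:ℕ), key2 i⟩ := Fin.ext hx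
        rw [hx']
        exact this
    · funext x
      rcases hcov x with ⟨l, i, hx⟩ | ⟨i, hx⟩
      · have := congrFun (congrFun h1 l) (Sum.inr i)
        have hx' : x = ⟨(l:ℕ)*t + i, key l i⟩ := Fin.ext hx
        rw [hx']
        exact this
      · have := congrFun h3 i
        have hx' : x = ⟨j*t + (i:ℕ), key2 i⟩ := Fin.ext hx
        rw [hx']
        exact this
  have h := Nat.card_le_card_of_injective f hf
  refine h.trans (le_of_eq ?_)
  rw [Nat.card_prod, Nat.card_prod, Nat.card_eq_fintype_card, Nat.card_eq_fintype_card,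
    Fintype.card_coe, Fintype.card_fun, Fintype.card_fin, Fintype.card_fin, two_mul, pow_add]

end Pool.Agent.H66.WSZ
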