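import Pool.Agent.H66.WSZ.PackL
import Pool.Agent.H66.WSZ.AccC
import Pool.Agent.H66.WSZ.Core
import Pool.Agent.H66.WSZ.Trf
import Pool.Agent.H66.WSZ.Prm
import Pool.Agent.H66.WSZ.Num

namespace Pool.Agent.H66.WSZ

open Finset Classical Pool.Agent.H55.FreeIdx

theorem main (j : ℕ) (hj : 0 < j) : ∃ C : ℕ, 0 < C ∧
    ∀ (n U S W H T F w h : ℕ) (P : Scheme H S W), n ≤ S → 1 ≤ W → 1 ≤ F → 1 ≤ T → 1 ≤ w → 1 ≤ h →
      2 * (S * W) * (n ^ 2 * F) ^ j ≤ U ^ j → S * W ≤ 2 ^ w → C * (T * (w * h)) ≤ n →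
      (H : ℝ) ≤ (2 : ℝ) ^ ((n : ℝ) / C) →
      HandlesFraction P T F n U ((2 : ℝ) ^ (-((n : ℝ) / C))) →
      n ^ (2 * j - 1) * h ^ ((T - 1) * j) ≤ C * S ^ (T * j - 1) := by
  obtain ⟨C₅, h5⟩ := prm j hj
  obtain ⟨C₆, hC6, h6⟩ := num j hj
  refine ⟨C₅ + C₆ + 2 * j, by omega, ?_⟩
  set C : ℕ := C₅ + C₆ + 2 * j with hC
  intro n U S W H T F w h P hnS hW hF hT hw hh hsz hSW hCn hH hfr
  by_contra hcon
  push Not at hcon
  have hCpos : 0 < C := by omega
  have hCn' : C ≤ n := by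
    refine le_trans ?_ hCn
    exact Nat.le_mul_of_pos_right _ (by positivity)
  have hn : 0 < n := by omega
  have hS : 0 < S := by omega
  have hhn : h ≤ n := by
    refine le_trans ?_ hCn
    calc h = 1 * (1 * (1 * h)) := by ring
      _ ≤ C * (T * (w * h)) := by gcongr; omega
  have hhS : h ≤ S := hhn.trans hnS
  have hU : 0 < U := by
    rcases Nat.eq_zero_or_pos U with h0 | h0
    · exfalso
      rw [h0, zero_pow hj.ne'] at hsz
      have : 0 < 2 * (S * W) * (n ^ 2 * F) ^ j := by positivity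
      omega
    · exact h0
  obtain ⟨τ, rfl⟩ : ∃ τ, T = τ + 1 := ⟨T - 1, by omega⟩
  rw [Nat.add_sub_cancel] at hcon
  -- the length of the classes
  set t : ℕ := n / j with ht
  have hjt : j * t ≤ n := Nat.mul_div_le n j
  have ht1 : 0 < t := Nat.div_pos (by omega) hj
  have hnt : n ≤ 2 * j * t := by
    have h1 : n < j * (t + 1) := Nat.lt_mul_div_succ n hj
    have h2 : j ≤ j * t := Nat.le_mul_of_pos_right j ht1
    have h3 : j * (t + 1) = j * t + j := by ring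
    have h4 : 2 * j * t = j * t + j * t := by ring
    omega
  have htn : t ≤ n := Nat.div_le_self n j
  -- parameters
  have hUS : 2 * S * n ^ (2 * j) ≤ U ^ j := by
    refine le_trans ?_ hsz
    have e : (n ^ 2 * F) ^ j = n ^ (2 * j) * F ^ j := by rw [mul_pow, ← pow_mul]
    rw [e]
    have hFj : 1 ≤ F ^ j := Nat.one_le_pow _ _ hF
    calc 2 * S * n ^ (2 * j) = 2 * (S * 1) * (n ^ (2 * j) * 1) := by ring
      _ ≤ 2 * (S * W) * (n ^ (2 * j) * F ^ j) := by gcongr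
  obtain ⟨m, N, hm, hmN, hl, hx1, hx2⟩ := h5 n t U S h τ (by omega) hnS hh hhS htn hnt hUS
    (lt_of_le_of_lt (Nat.mul_le_mul_right _ (by omega)) hcon)
  obtain ⟨K, hK, hlt⟩ := h6 C n t (by omega) hCn' hnt
  -- the counting
  set Z : ℝ := (Fintype.card (Inp j t U) : ℝ) with hZ
  have hU' : (0 : ℝ) < U := by exact_mod_cast hU
  have hZpos : 0 < Z := by rw [hZ, card_inp_real]; positivity
  have hcore := core (j := j) (t := t) (K := K) (F := F) P hhS hm hmN hS
    (Z * Real.exp (-(c1 j ^ 2 * t / (8 * j)))) (Z * (1 / 2 : ℝ) ^ K)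
    (fun G hG1 hG2 hG3 => packL hj ht1 hU G hG1 hG2 hG3 hl hx1 hx2 hK)
    (fun D hD => by
      have h1 : 2 * (S * W * t ^ (2 * j) * F ^ j) ≤ U ^ j := by
        refine le_trans ?_ hsz
        have e : (n ^ 2 * F) ^ j = n ^ (2 * j) * F ^ j := by rw [mul_pow, ← pow_mul]
        rw [e]
        calc 2 * (S * W * t ^ (2 * j) * F ^ j) ≤ 2 * (S * W * n ^ (2 * j) * F ^ j) := by gcongr
          _ = 2 * (S * W) * (n ^ (2 * j) * F ^ j) := by ring
      have h2 := accC (j := j) (t := t) (K := K) (F := F) (s := S * W)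
        (Θ := Fin S × Fin W) (by rw [Fintype.card_prod, Fintype.card_fin, Fintype.card_fin]) D hD
        hU h1
      have h3 : (2 : ℝ) ^ K *
          (((univ : Finset (Inp j t U)).filter (fun ω => Acc ω D K)).card : ℝ) ≤ Z := by
        rw [hZ]
        exact_mod_cast h2
      rw [div_pow, one_pow, mul_one_div, le_div_iff₀ (by positivity)]
      linarith)
    (by positivity) (by positivity)
  have htr := transfer P (τ + 1) F j t n U hjt
  have htr' : (Nat.card {p : (Fin n → Fin U) × (Fin n → Fin U) //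
      Handles P (τ + 1) F p.1 p.2} : ℝ) ≤
      (((univ : Finset (Inp j t U)).filter (fun ω => HInp P (τ + 1) F ω)).card : ℝ) *
        (U : ℝ) ^ (2 * (n - j * t)) := by exact_mod_cast htr
  have hfr' := hfr.trans htr'
  have e1 : (U : ℝ) ^ (2 * n) = Z * (U : ℝ) ^ (2 * (n - j * t)) := by
    rw [hZ, card_inp_real, ← pow_mul, ← pow_add]
    congr 1
    have : 2 * t * j = 2 * (j * t) := by ring
    rw [this, ← mul_add, Nat.add_sub_cancel' hjt]
  rw [e1, ← mul_assoc] at hfr'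
  have hfr2 := le_of_mul_le_mul_right hfr' (by positivity)
  -- the header
  have hhead : ((S * W : ℕ) : ℝ) ^ (τ * h) ≤ (2 : ℝ) ^ ((n : ℝ) / C) := by
    have h1 : ((S * W : ℕ) : ℝ) ≤ (2 : ℝ) ^ w := by exact_mod_cast hSW
    have h2 : ((S * W : ℕ) : ℝ) ^ (τ * h) ≤ ((2 : ℝ) ^ w) ^ (τ * h) :=
      pow_le_pow_left₀ (by positivity) h1 _
    refine h2.trans ?_
    rw [← pow_mul, ← Real.rpow_natCast]
    refine Real.rpow_le_rpow_of_exponent_le (by norm_num) ?_
    rw [le_div_iff₀ (by exact_mod_cast hCpos)]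
    have h3 : w * (τ * h) * C ≤ n := by
      refine le_trans ?_ hCn
      calc w * (τ * h) * C = C * (τ * (w * h)) := by ring
        _ ≤ C * ((τ + 1) * (w * h)) := by gcongr; omega
    exact_mod_cast h3
  have hexp : 0 ≤ Real.exp (-(c1 j ^ 2 * t / (8 * j))) + (1 / 2 : ℝ) ^ K := by positivity
  have h7 : (2 : ℝ) ^ (-((n : ℝ) / C)) * Z ≤
      ((2 : ℝ) ^ ((n : ℝ) / C) * (2 : ℝ) ^ ((n : ℝ) / C) *
        (Real.exp (-(c1 j ^ 2 * t / (8 * j))) + (1 / 2 : ℝ) ^ K)) * Z := by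
    refine (hfr2.trans hcore).trans ?_
    have e2 : (H : ℝ) * ((S * W : ℕ) : ℝ) ^ (τ * h) *
        (Z * Real.exp (-(c1 j ^ 2 * t / (8 * j))) + Z * (1 / 2 : ℝ) ^ K) =
        ((H : ℝ) * ((S * W : ℕ) : ℝ) ^ (τ * h) *
        (Real.exp (-(c1 j ^ 2 * t / (8 * j))) + (1 / 2 : ℝ) ^ K)) * Z := by ring
    rw [e2]
    refine mul_le_mul_of_nonneg_right ?_ hZpos.le
    refine mul_le_mul_of_nonneg_right ?_ hexp
    exact mul_le_mul hH hhead (by positivity) (by positivity)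
  have h8 := le_of_mul_le_mul_right h7 hZpos
  linarith

end Pool.Agent.H66.WSZ
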